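import Pool.Agent.Helper5.ST.GoalsB

/-!
# COC: extension of a homomorphism on a finite index subgroup of a perfect normal subgroup
to a cocycle
-/

namespace Pool.Agent.Helper69.ST

open Pool.Agent.Helper5.ST Pool.Agent.Helper5.Gap
open scoped commutatorElement

universe u

section

variable {H : Type u} [Group H] {N P : Subgroup H} [N.Normal] [P.Normal]
  {W : Type} [AddCommGroup W] [Module ℚ W] (j : H → W) (L : H →* Module.End ℚ W)

/-- conjugation of an element of `P` by `t⁻¹` -/
def cj (t : H) (g : P) : P := MulAut.conjNormal t⁻¹ g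

theorem cj_coe (t : H) (g : P) : (cj t g : H) = t⁻¹ * g * t := by
  unfold cj
  rw [MulAut.conjNormal_apply, inv_inv]

theorem cj_mul (t : H) (g h : P) : cj t (g * h) = cj t g * cj t h := by
  apply Subtype.ext
  rw [Subgroup.coe_mul, cj_coe, cj_coe, cj_coe, Subgroup.coe_mul]
  group

theorem cj_comp (t s : H) (g : P) : cj (t * s) g = cj s (cj t g) := by
  apply Subtype.ext
  rw [cj_coe, cj_coe, cj_coe]
  group

/-- the chosen representatives of the cosets of `N` in `P` -/
noncomputable def sg (q : P ⧸ N.subgroupOf P) : P := Quotient.out q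

theorem mk_sg (q : P ⧸ N.subgroupOf P) : (QuotientGroup.mk (sg q) : P ⧸ N.subgroupOf P) = q :=
  QuotientGroup.out_eq' q

/-- elements of `P` in the same coset -/
theorem mem_of_mk_eq {x y : P}
    (h : (QuotientGroup.mk x : P ⧸ N.subgroupOf P) = QuotientGroup.mk y) :
    (x : H)⁻¹ * y ∈ N ∧ (x : H) * (y : H)⁻¹ ∈ N := by
  have h1 : (x : H)⁻¹ * y ∈ N := by
    have := QuotientGroup.eq.mp h
    rw [Subgroup.mem_subgroupOf] at this
    exact this
  refine ⟨h1, ?_⟩
  have h2 := ‹N.Normal›.conj_mem _ (N.inv_mem h1) x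
  have h3 : (x : H) * ((x : H)⁻¹ * y)⁻¹ * (x : H)⁻¹ = x * (y : H)⁻¹ := by group
  rwa [h3] at h2

theorem mk_mul_sg (g : P) (q : P ⧸ N.subgroupOf P) :
    (QuotientGroup.mk (g * sg q) : P ⧸ N.subgroupOf P) = QuotientGroup.mk g * q := by
  rw [QuotientGroup.mk_mul, mk_sg]

/-- the element of `N` given by the action on cosets -/
noncomputable def aa (g : P) (q : P ⧸ N.subgroupOf P) : H :=
  (g : H) * sg q * (sg (QuotientGroup.mk g * q) : H)⁻¹

theorem aa_mem (g : P) (q : P ⧸ N.subgroupOf P) : aa g q ∈ N := by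
  have h : (QuotientGroup.mk (g * sg q) : P ⧸ N.subgroupOf P) =
      QuotientGroup.mk (sg (QuotientGroup.mk g * q)) := by
    rw [mk_mul_sg, mk_sg]
  have := (mem_of_mk_eq h).2
  rw [Subgroup.coe_mul] at this
  exact this

theorem aa_mul (g h : P) (q : P ⧸ N.subgroupOf P) :
    aa (g * h) q = (g : H) * aa h q * (g : H)⁻¹ * aa g (QuotientGroup.mk h * q) := by
  unfold aa
  rw [QuotientGroup.mk_mul, mul_assoc (QuotientGroup.mk g : P ⧸ N.subgroupOf P),
    Subgroup.coe_mul]
  group

/-- main construction -/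
theorem coc_main (hNP : N ≤ P) (hidx : N.relIndex P ≠ 0) (hperf : ⁅P, P⁆ = P)
    (hadd : ∀ x ∈ N, ∀ y ∈ N, j (x * y) = j x + j y)
    (hconj : ∀ t : H, ∀ x ∈ N, j (t * x * t⁻¹) = L t (j x))
    (hspan : Submodule.span ℚ (j '' (N : Set H)) = ⊤) :
    ∃ v : H → W, (∀ t s, v (t * s) = v t + L t (v s)) ∧ ∀ x ∈ N, v x = j x := by
  classical
  haveI hfi : (N.subgroupOf P).FiniteIndex := ⟨hidx⟩
  haveI hfin : Finite (P ⧸ N.subgroupOf P) := inferInstance
  letI : Fintype (P ⧸ N.subgroupOf P) := Fintype.ofFinite _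
  set F := P ⧸ N.subgroupOf P with hF
  -- basic facts on `j` and `L`
  have j_one : j 1 = 0 := by
    have := hadd 1 N.one_mem 1 N.one_mem
    rw [mul_one] at this
    exact left_eq_add.mp this
  have j_inv : ∀ x ∈ N, j x⁻¹ = - j x := by
    intro x hx
    have := hadd x hx x⁻¹ (N.inv_mem hx)
    rw [mul_inv_cancel, j_one] at this
    exact (neg_eq_of_add_eq_zero_right this.symm).symm
  have L_N : ∀ x ∈ N, ∀ w : W, L x w = w := by
    intro x hx w
    have hw : w ∈ Submodule.span ℚ (j '' (N : Set H)) := by rw [hspan]; exact Submodule.mem_top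
    induction hw using Submodule.span_induction with
    | mem w hw =>
      obtain ⟨y, hy, rfl⟩ := hw
      rw [← hconj x y hy, hadd _ (N.mul_mem hx hy) _ (N.inv_mem hx), hadd x hx y hy, j_inv x hx]
      abel
    | zero => exact map_zero _
    | add a b _ _ ha hb => rw [map_add, ha, hb]
    | smul c a _ ha => rw [map_smul, ha]
  have L_mul : ∀ (x y : H) (w : W), L (x * y) w = L x (L y w) := by
    intro x y w
    rw [map_mul]
    rfl
  have L_one : ∀ w : W, L 1 w = w := by
    intro w
    rw [map_one]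
    rfl
  have L_mk : ∀ (x y : P), (QuotientGroup.mk x : F) = QuotientGroup.mk y →
      ∀ w : W, L (x : H) w = L (y : H) w := by
    intro x y h w
    have h1 := (mem_of_mk_eq h).1
    have h2 : (y : H) = x * ((x : H)⁻¹ * y) := by group
    rw [h2, L_mul, L_N _ h1]
  have he : (Fintype.card F : ℚ) ≠ 0 := by
    have : Fintype.card F ≠ 0 := Fintype.card_ne_zero
    exact_mod_cast this
  set e : ℚ := (Fintype.card F : ℚ) with hee
  have reindexL : ∀ (a : F) (f : F → W), ∑ q, f (a * q) = ∑ q, f q := fun a f =>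
    Fintype.sum_equiv (Equiv.mulLeft a) _ _ (fun _ => rfl)
  have reindexR : ∀ (a : F) (f : F → W), ∑ q, f (q * a) = ∑ q, f q := fun a f =>
    Fintype.sum_equiv (Equiv.mulRight a) _ _ (fun _ => rfl)
  have sum_const : ∀ w : W, ∑ _q : F, w = e • w := by
    intro w
    rw [Finset.sum_const, Finset.card_univ, hee, Nat.cast_smul_eq_nsmul]
  -- the cocycle on `P`
  let c0 : P → W := fun g => e⁻¹ • ∑ q : F, j (aa g q)
  have c0_mul : ∀ g h : P, c0 (g * h) = c0 g + L (g : H) (c0 h) := by
    intro g h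
    change e⁻¹ • ∑ q : F, j (aa (g * h) q) = e⁻¹ • ∑ q : F, j (aa g q) +
      L (g : H) (e⁻¹ • ∑ q : F, j (aa h q))
    rw [map_smul, map_sum, ← smul_add, ← reindexL (QuotientGroup.mk h) (fun q => j (aa g q)),
      ← Finset.sum_add_distrib]
    congr 1
    refine Finset.sum_congr rfl fun q _ => ?_
    rw [aa_mul, hadd _ (‹N.Normal›.conj_mem _ (aa_mem h q) _) _ (aa_mem g _),
      hconj _ _ (aa_mem h q), add_comm]
  have c0_N : ∀ g : P, (g : H) ∈ N → c0 g = j g := by
    intro g hg
    change e⁻¹ • ∑ q : F, j (aa g q) = j g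
    have h1 : (QuotientGroup.mk g : F) = 1 := by
      rw [QuotientGroup.eq_one_iff, Subgroup.mem_subgroupOf]
      exact hg
    have h2 : ∀ q : F, j (aa g q) = j g := by
      intro q
      unfold aa
      rw [h1, one_mul, mul_inv_cancel_right]
    rw [Finset.sum_congr rfl (fun q _ => h2 q), sum_const, smul_smul, inv_mul_cancel₀ he,
      one_smul]
  -- there are no invariants
  let E0 : W → W := fun w => e⁻¹ • ∑ q : F, L (sg q : H) w
  have E0_add : ∀ a b : W, E0 (a + b) = E0 a + E0 b := by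
    intro a b
    change e⁻¹ • ∑ q : F, L (sg q : H) (a + b) = e⁻¹ • ∑ q : F, L (sg q : H) a +
      e⁻¹ • ∑ q : F, L (sg q : H) b
    rw [← smul_add, ← Finset.sum_add_distrib]
    congr 1
    exact Finset.sum_congr rfl fun q _ => map_add _ _ _
  have E0_smul : ∀ (c : ℚ) (a : W), E0 (c • a) = c • E0 a := by
    intro c a
    change e⁻¹ • ∑ q : F, L (sg q : H) (c • a) = c • e⁻¹ • ∑ q : F, L (sg q : H) a
    rw [smul_comm c, Finset.smul_sum (r := c)]
    congr 1
    exact Finset.sum_congr rfl fun q _ => map_smul _ _ _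
  have E0_L : ∀ (g : P) (w : W), E0 (L (g : H) w) = E0 w := by
    intro g w
    change e⁻¹ • ∑ q : F, L (sg q : H) (L (g : H) w) = e⁻¹ • ∑ q : F, L (sg q : H) w
    rw [← reindexR (QuotientGroup.mk g) (fun q => L (sg q : H) w)]
    congr 1
    refine Finset.sum_congr rfl fun q _ => ?_
    rw [← L_mul, ← Subgroup.coe_mul]
    apply L_mk
    rw [QuotientGroup.mk_mul, mk_sg, mk_sg]
  have perf : ∀ f : P → W, (∀ g h, f (g * h) = f g + f h) → ∀ g, f g = 0 := by
    intro f hf g
    let φ : P →* Multiplicative W :=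
      { toFun := fun g => Multiplicative.ofAdd (f g)
        map_one' := by
          have := hf 1 1
          rw [mul_one] at this
          change Multiplicative.ofAdd (f 1) = 1
          rw [left_eq_add.mp this]
          rfl
        map_mul' := fun g h => by
          change Multiplicative.ofAdd (f (g * h)) = _
          rw [hf]
          rfl }
    have htop : commutator P = ⊤ := by
      have h1 := Subgroup.map_subtype_commutator P
      rw [hperf] at h1
      rw [eq_top_iff]
      intro x _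
      have hx : (x : H) ∈ (commutator P).map P.subtype := by
        rw [h1]
        exact x.2
      obtain ⟨y, hy, hxy⟩ := hx
      have : y = x := Subtype.ext hxy
      rwa [← this]
    have hker : commutator P ≤ φ.ker := Abelianization.commutator_subset_ker φ
    have hg : g ∈ φ.ker := hker (htop ▸ Subgroup.mem_top g)
    exact hg
  have E0_j : ∀ x ∈ N, E0 (j x) = 0 := by
    intro x hx
    have := perf (fun g => E0 (c0 g)) (fun g h => by
      change E0 (c0 (g * h)) = E0 (c0 g) + E0 (c0 h)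
      rw [c0_mul, E0_add, E0_L]) ⟨x, hNP hx⟩
    have h2 : E0 (c0 ⟨x, hNP hx⟩) = 0 := this
    rwa [c0_N ⟨x, hNP hx⟩ hx] at h2
  have E0_zero : ∀ w : W, E0 w = 0 := by
    intro w
    have hw : w ∈ Submodule.span ℚ (j '' (N : Set H)) := by rw [hspan]; exact Submodule.mem_top
    induction hw using Submodule.span_induction with
    | mem w hw =>
      obtain ⟨y, hy, rfl⟩ := hw
      exact E0_j y hy
    | zero => simpa using E0_smul 0 0
    | add a b _ _ ha hb => rw [E0_add, ha, hb, add_zero]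
    | smul c a _ ha => rw [E0_smul, ha, smul_zero]
  have inv_zero : ∀ w : W, (∀ g : P, L (g : H) w = w) → w = 0 := by
    intro w hw
    have h1 : E0 w = w := by
      change e⁻¹ • ∑ q : F, L (sg q : H) w = w
      rw [Finset.sum_congr rfl (fun q _ => hw (sg q)), sum_const, smul_smul, inv_mul_cancel₀ he,
        one_smul]
    rw [← h1, E0_zero]
  -- the cocycles `z t`
  let z : H → P → W := fun t g => L t (c0 (cj t g)) - c0 g
  have z_mul : ∀ (t : H) (g h : P), z t (g * h) = z t g + L (g : H) (z t h) := by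
    intro t g h
    change L t (c0 (cj t (g * h))) - c0 (g * h) = L t (c0 (cj t g)) - c0 g +
      L (g : H) (L t (c0 (cj t h)) - c0 h)
    rw [cj_mul, c0_mul, c0_mul, map_add, map_sub, ← L_mul, ← L_mul, cj_coe]
    have : t * (t⁻¹ * (g : H) * t) = g * t := by group
    rw [this]
    abel
  have z_N : ∀ (t : H) (g : P), (g : H) ∈ N → z t g = 0 := by
    intro t g hg
    change L t (c0 (cj t g)) - c0 g = 0
    have hm : (cj t g : H) ∈ N := by
      rw [cj_coe]
      have := ‹N.Normal›.conj_mem _ hg t⁻¹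
      rwa [inv_inv] at this
    rw [c0_N _ hg, c0_N _ hm, ← hconj t _ hm, cj_coe, sub_eq_zero]
    congr 1
    group
  let v : H → W := fun t => - (e⁻¹ • ∑ q : F, z t (sg q))
  have v_spec : ∀ (t : H) (g : P), z t g = L (g : H) (v t) - v t := by
    intro t g
    have h1 : ∑ q : F, z t (g * sg q) = ∑ q : F, z t (sg q) := by
      rw [← reindexL (QuotientGroup.mk g) (fun q => z t (sg q))]
      refine Finset.sum_congr rfl fun q _ => ?_
      have h2 : (QuotientGroup.mk (sg (QuotientGroup.mk g * q)) : F) =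
          QuotientGroup.mk (g * sg q) := by rw [mk_mul_sg, mk_sg]
      have h3 := (mem_of_mk_eq h2).1
      have h4 : g * sg q = sg (QuotientGroup.mk g * q) *
          ((sg (QuotientGroup.mk g * q))⁻¹ * (g * sg q)) := by group
      have h5 : (((sg (QuotientGroup.mk g * q))⁻¹ * (g * sg q) : P) : H) ∈ N := h3
      rw [h4, z_mul, z_N t _ h5, map_zero, add_zero]
    have h2 : ∑ q : F, z t (g * sg q) = e • z t g + L (g : H) (∑ q : F, z t (sg q)) := by
      rw [map_sum, ← sum_const, ← Finset.sum_add_distrib]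
      exact Finset.sum_congr rfl fun q _ => z_mul t g (sg q)
    have h3 : e • z t g = ∑ q : F, z t (sg q) - L (g : H) (∑ q : F, z t (sg q)) := by
      rw [eq_sub_iff_add_eq, ← h2, h1]
    change z t g = L (g : H) (-(e⁻¹ • ∑ q : F, z t (sg q))) - -(e⁻¹ • ∑ q : F, z t (sg q))
    rw [map_neg, map_smul]
    have h4 : z t g = e⁻¹ • (e • z t g) := by rw [smul_smul, inv_mul_cancel₀ he, one_smul]
    rw [h4, h3, smul_sub]
    abel
  have v_unique : ∀ (t : H) (u : W), (∀ g : P, z t g = L (g : H) u - u) → u = v t := by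
    intro t u hu
    have : u - v t = 0 := by
      apply inv_zero
      intro g
      rw [map_sub]
      have h1 := hu g
      rw [v_spec t g] at h1
      have : L (g : H) u = L (g : H) (v t) - v t + u := by rw [h1]; abel
      rw [this]
      abel
    exact sub_eq_zero.mp this
  refine ⟨v, ?_, ?_⟩
  · intro t s
    symm
    apply v_unique
    intro g
    have h1 : z (t * s) g = L t (z s (cj t g)) + z t g := by
      change L (t * s) (c0 (cj (t * s) g)) - c0 g = L t (L s (c0 (cj s (cj t g))) - c0 (cj t g)) +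
        (L t (c0 (cj t g)) - c0 g)
      rw [map_sub, cj_comp, L_mul]
      abel
    rw [h1, v_spec s, v_spec t, map_sub, ← L_mul, cj_coe]
    have h2 : t * (t⁻¹ * (g : H) * t) = g * t := by group
    rw [h2, L_mul, map_add]
    abel
  · intro n hn
    symm
    apply v_unique
    intro g
    change L n (c0 (cj n g)) - c0 g = _
    have h1 : cj n g = ⟨n⁻¹, hNP (N.inv_mem hn)⟩ * (g * ⟨n, hNP hn⟩) := by
      apply Subtype.ext
      rw [cj_coe, Subgroup.coe_mul, Subgroup.coe_mul]
      group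
    rw [L_N n hn, h1, c0_mul, c0_mul, c0_N ⟨n⁻¹, hNP (N.inv_mem hn)⟩ (N.inv_mem hn),
      c0_N ⟨n, hNP hn⟩ hn]
    change j n⁻¹ + L n⁻¹ (c0 g + L (g : H) (j n)) - c0 g = _
    rw [L_N _ (N.inv_mem hn), j_inv n hn]
    abel

end

open Classical in
/-- Packet COC. -/
theorem coc : SCoc.{u} := by
  intro H _ N P _ _ hNP hidx hperf m ι L hadd hconj hspan
  have hj : ∀ x : N, (if h : (x : H) ∈ N then ι ⟨(x : H), h⟩ else 0) = ι x := by
    intro x
    rw [dif_pos x.2]
  have hA : ∀ x ∈ N, ∀ y ∈ N, (if h : x * y ∈ N then ι ⟨x * y, h⟩ else 0) =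
      (if h : x ∈ N then ι ⟨x, h⟩ else 0) + (if h : y ∈ N then ι ⟨y, h⟩ else 0) := by
    intro x hx y hy
    have h1 := hj (⟨x, hx⟩ * ⟨y, hy⟩)
    have h2 := hj ⟨x, hx⟩
    have h3 := hj ⟨y, hy⟩
    exact h1.trans ((hadd _ _).trans (by rw [← h2, ← h3]))
  have hB : ∀ t : H, ∀ x ∈ N, (if h : t * x * t⁻¹ ∈ N then ι ⟨t * x * t⁻¹, h⟩ else 0) =
      L t (if h : x ∈ N then ι ⟨x, h⟩ else 0) := by
    intro t x hx
    have h1 := hj (MulAut.conjNormal t ⟨x, hx⟩)
    have h2 := hj ⟨x, hx⟩
    have h3 : (⟨t * x * t⁻¹, ‹N.Normal›.conj_mem x hx t⟩ : N) = MulAut.conjNormal t ⟨x, hx⟩ := by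
      apply Subtype.ext
      rw [MulAut.conjNormal_apply]
    rw [dif_pos (‹N.Normal›.conj_mem x hx t), h3, hconj, dif_pos hx]
  have hC : Submodule.span ℚ ((fun h => if h' : h ∈ N then ι ⟨h, h'⟩ else 0) '' (N : Set H)) =
      ⊤ := by
    rw [← hspan]
    congr 1
    ext w
    constructor
    · rintro ⟨x, hx, rfl⟩
      exact ⟨⟨x, hx⟩, (hj ⟨x, hx⟩).symm⟩
    · rintro ⟨x, rfl⟩
      exact ⟨x, x.2, hj x⟩
  obtain ⟨v, hv, hvN⟩ := coc_main (N := N) (P := P)
    (fun h => if h' : h ∈ N then ι ⟨h, h'⟩ else 0) L hNP hidx hperf hA hB hC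
  refine ⟨v, hv, fun x => ?_⟩
  rw [hvN x x.2]
  exact hj x

end Pool.Agent.Helper69.ST
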