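import Pool.Agent.Helper69.ST.Goals

open MeasureTheory Set Complex Metric Filter
open scoped ContDiff Topology ENNReal

namespace Pool.Agent.Helper69.ST

/-- `Good` holds between two points where it holds. -/
theorem good_between (p κ T j₁ j₂ j : ℝ) (hκ : κ < 1) (h1 : Good p κ T j₁) (h2 : Good p κ T j₂)
    (ha : j₁ ≤ j) (hb : j ≤ j₂) : Good p κ T j := by
  obtain ⟨a1, a2, a3⟩ := h1
  obtain ⟨b1, b2, b3⟩ := h2
  rcases eq_or_lt_of_le (ha.trans hb) with h | h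
  · have hj : j = j₁ := le_antisymm (by linarith) ha
    subst hj
    exact ⟨a1, a2, a3⟩
  · refine ⟨by linarith, ?_, ?_⟩
    · have e : (j₂ - j₁) * (T - p + j - 2 * j * κ) =
          (j₂ - j) * (T - p + j₁ - 2 * j₁ * κ) + (j - j₁) * (T - p + j₂ - 2 * j₂ * κ) := by ring
      have : 0 ≤ (j₂ - j₁) * (T - p + j - 2 * j * κ) := by
        rw [e]
        have := mul_nonneg (by linarith : 0 ≤ j₂ - j) a2
        have := mul_nonneg (by linarith : 0 ≤ j - j₁) b2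
        linarith
      exact nonneg_of_mul_nonneg_right this (by linarith)
    · have e : (j₂ - j₁) * ((T - j) * (T - p + j - 2 * j * κ) - j ^ 2 * κ) =
          (j₂ - j) * ((T - j₁) * (T - p + j₁ - 2 * j₁ * κ) - j₁ ^ 2 * κ) +
          (j - j₁) * ((T - j₂) * (T - p + j₂ - 2 * j₂ * κ) - j₂ ^ 2 * κ) +
          (1 - κ) * ((j - j₁) * (j₂ - j) * (j₂ - j₁)) := by ring
      have : 0 ≤ (j₂ - j₁) * ((T - j) * (T - p + j - 2 * j * κ) - j ^ 2 * κ) := by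
        rw [e]
        have := mul_nonneg (by linarith : 0 ≤ j₂ - j)
          (by linarith : 0 ≤ (T - j₁) * (T - p + j₁ - 2 * j₁ * κ) - j₁ ^ 2 * κ)
        have := mul_nonneg (by linarith : 0 ≤ j - j₁)
          (by linarith : 0 ≤ (T - j₂) * (T - p + j₂ - 2 * j₂ * κ) - j₂ ^ 2 * κ)
        have := mul_nonneg (by linarith : 0 ≤ 1 - κ)
          (mul_nonneg (mul_nonneg (by linarith : 0 ≤ j - j₁) (by linarith : 0 ≤ j₂ - j))
            (by linarith : 0 ≤ j₂ - j₁))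
        linarith
      have := nonneg_of_mul_nonneg_right this (by linarith)
      linarith

/-- Lower bounds for `T = m / r`. -/
theorem T_lower (m p κ r t : ℝ) (hm : 0 ≤ m) (hp : 1 ≤ p) (hκ : 0 ≤ κ) (hr : 0 < r)
    (hr2 : r ^ 2 * (p + 1) ≤ 2 + (p - 1) / (1 + κ) ^ 2)
    (h : t ^ 2 * (2 * (1 + κ) ^ 2 + p - 1) ≤ (p + 1) * (1 + κ) ^ 2) : m * t ≤ m / r := by
  have hu : 0 < (1 + κ) ^ 2 := by positivity
  have h1 : r ^ 2 * (p + 1) * (1 + κ) ^ 2 ≤ 2 * (1 + κ) ^ 2 + (p - 1) := by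
    calc r ^ 2 * (p + 1) * (1 + κ) ^ 2 ≤ (2 + (p - 1) / (1 + κ) ^ 2) * (1 + κ) ^ 2 :=
          mul_le_mul_of_nonneg_right hr2 hu.le
      _ = 2 * (1 + κ) ^ 2 + (p - 1) := by field_simp
  have hpos : 0 < 2 * (1 + κ) ^ 2 + p - 1 := by linarith
  have h2 : (r * t) ^ 2 * (2 * (1 + κ) ^ 2 + p - 1) ≤ 2 * (1 + κ) ^ 2 + p - 1 := by
    have := mul_le_mul_of_nonneg_left h (sq_nonneg r)
    nlinarith
  have h3 : (r * t) ^ 2 ≤ 1 := by
    by_contra hc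
    push Not at hc
    nlinarith
  have h4 : r * t ≤ 1 := by nlinarith
  rw [le_div_iff₀ hr]
  calc m * t * r = m * (r * t) := by ring
    _ ≤ m * 1 := mul_le_mul_of_nonneg_left h4 hm
    _ = m := mul_one m

theorem ineq_a (p κ : ℝ) (hp : 20 ≤ p) (h0 : 0 ≤ κ) (h1 : κ ≤ 1 / 3) :
    (1 + 17 * κ / 20) ^ 2 * (2 * (1 + κ) ^ 2 + p - 1) ≤ (p + 1) * (1 + κ) ^ 2 := by
  have hA : 0 ≤ (1 + κ) ^ 2 - (1 + 17 * κ / 20) ^ 2 := by nlinarith
  have hB : (1 + 17 * κ / 20) ^ 2 * (2 * (1 + κ) ^ 2 + 20 - 1) ≤ (20 + 1) * (1 + κ) ^ 2 := by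
    have : 0 ≤ κ * (1 / 3 - κ) := mul_nonneg h0 (by linarith)
    have h3 : 0 ≤ κ ^ 2 * (1 / 3 - κ) := mul_nonneg (by positivity) (by linarith)
    have h4 : 0 ≤ κ ^ 3 * (1 / 3 - κ) := mul_nonneg (by positivity) (by linarith)
    nlinarith
  nlinarith [mul_nonneg hA (by linarith : 0 ≤ p - 20)]

theorem ineq_b (p κ : ℝ) (hp : 23 ≤ p) (h0 : 1 / 3 ≤ κ) (h1 : κ ≤ 1) :
    (104 / 100 + 74 / 100 * κ) ^ 2 * (2 * (1 + κ) ^ 2 + p - 1) ≤ (p + 1) * (1 + κ) ^ 2 := by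
  have hA : 0 ≤ (1 + κ) ^ 2 - (104 / 100 + 74 / 100 * κ) ^ 2 := by nlinarith
  have hB : (104 / 100 + 74 / 100 * κ) ^ 2 * (2 * (1 + κ) ^ 2 + 23 - 1) ≤ (23 + 1) * (1 + κ) ^ 2 := by
    have a1 : 0 ≤ (κ - 1 / 3) * (1 - κ) := mul_nonneg (by linarith) (by linarith)
    have a2 : 0 ≤ (κ - 1 / 3) * (1 - κ) * κ := mul_nonneg a1 (by linarith)
    have a3 : 0 ≤ (κ - 1 / 3) * (1 - κ) * κ ^ 2 := mul_nonneg a1 (by positivity)
    nlinarith
  nlinarith [mul_nonneg hA (by linarith : 0 ≤ p - 23)]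

/-- `Good` at `0`. -/
theorem good_zero (p κ T : ℝ) (hp : 0 ≤ p) (h : p ≤ T) : Good p κ T 0 := by
  refine ⟨by linarith, by linarith, ?_⟩
  have : 0 ≤ T * (T - p) := mul_nonneg (by linarith) (by linarith)
  nlinarith

/-- `Good` at `d = p - m`, case (a1). -/
theorem good_a1 (m p κ T : ℝ) (h0 : 0 ≤ κ) (hd : 1 ≤ p - m) (hm : 3 * (p - m) + 3 ≤ m)
    (hT : m * (1 + 17 * κ / 20) ≤ T) : Good p κ T (p - m) := by
  set d := p - m with hdd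
  have hp : p = m + d := by rw [hdd]; ring
  have hm0 : 0 ≤ m := by linarith
  have hTm : m ≤ T := by nlinarith
  have h2 : (17 * m / 20 - 2 * d) * κ ≤ T - m - 2 * d * κ := by nlinarith
  have h3 : (11 * d + 51) / 20 ≤ 17 * m / 20 - 2 * d := by linarith
  have h4 : 0 ≤ (17 * m / 20 - 2 * d) * κ := mul_nonneg (by linarith) h0
  refine ⟨by linarith, ?_, ?_⟩
  · rw [hp]; linarith
  · have e : T - p + d - 2 * d * κ = T - m - 2 * d * κ := by rw [hp]; ring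
    rw [e]
    calc d ^ 2 * κ ≤ (2 * d + 3) * ((17 * m / 20 - 2 * d) * κ) := by
          have : d ^ 2 ≤ (2 * d + 3) * (17 * m / 20 - 2 * d) := by
            have := mul_le_mul_of_nonneg_left h3 (by linarith : 0 ≤ 2 * d + 3)
            nlinarith
          nlinarith [mul_le_mul_of_nonneg_right this h0]
      _ ≤ (T - d) * ((17 * m / 20 - 2 * d) * κ) := mul_le_mul_of_nonneg_right (by linarith) h4
      _ ≤ (T - d) * (T - m - 2 * d * κ) := mul_le_mul_of_nonneg_left h2 (by linarith)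

/-- `Good` at `p/2` if `T ≥ p x` where `x ≥ 1/2 + κ`, `(x - 1/2)(x - 1/2 - κ) ≥ κ/4`. -/
theorem good_half (p κ T x : ℝ) (hp : 0 ≤ p) (h0 : 0 ≤ κ) (hT : p * x ≤ T) (hx : 1 / 2 + κ ≤ x)
    (hx2 : κ / 4 ≤ (x - 1 / 2) * (x - 1 / 2 - κ)) : Good p κ T (p / 2) := by
  have h1 : p * (x - 1 / 2) ≤ T - p / 2 := by nlinarith
  have h2 : p * (x - 1 / 2 - κ) ≤ T - p / 2 - p * κ := by nlinarith
  have h3 : 0 ≤ p * (x - 1 / 2 - κ) := mul_nonneg hp (by linarith)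
  have h4 : 0 ≤ p * (x - 1 / 2) := mul_nonneg hp (by linarith)
  refine ⟨by linarith, ?_, ?_⟩
  · have e : T - p + p / 2 - 2 * (p / 2) * κ = T - p / 2 - p * κ := by ring
    rw [e]; linarith
  · have e : T - p + p / 2 - 2 * (p / 2) * κ = T - p / 2 - p * κ := by ring
    rw [e]
    calc (p / 2) ^ 2 * κ = p ^ 2 * (κ / 4) := by ring
      _ ≤ p ^ 2 * ((x - 1 / 2) * (x - 1 / 2 - κ)) := mul_le_mul_of_nonneg_left hx2 (sq_nonneg _)
      _ = p * (x - 1 / 2) * (p * (x - 1 / 2 - κ)) := by ring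
      _ ≤ (T - p / 2) * (T - p / 2 - p * κ) := mul_le_mul h1 h2 h3 (by linarith)

/-- (a2): `x = (3/4)(1+κ)`. -/
theorem half_a2 (κ : ℝ) (h0 : 0 ≤ κ) (h1 : κ ≤ 1 / 3) : 1 / 2 + κ ≤ 3 / 4 * (1 + κ) ∧
    κ / 4 ≤ (3 / 4 * (1 + κ) - 1 / 2) * (3 / 4 * (1 + κ) - 1 / 2 - κ) := by
  constructor
  · linarith
  · nlinarith [mul_nonneg (by linarith : 0 ≤ 1 - 3 * κ) (by linarith : 0 ≤ 1 + κ)]

/-- (a3): `x = 1 + 17 κ / 20`. -/
theorem half_a3 (κ : ℝ) (h0 : 0 ≤ κ) (h1 : κ ≤ 1 / 3) : 1 / 2 + κ ≤ 1 + 17 * κ / 20 ∧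
    κ / 4 ≤ (1 + 17 * κ / 20 - 1 / 2) * (1 + 17 * κ / 20 - 1 / 2 - κ) := by
  constructor
  · linarith
  · nlinarith

/-- (b2): `x = 1.04 + 0.74 κ`. -/
theorem half_b2 (κ : ℝ) (h0 : 1 / 3 ≤ κ) (h1 : κ ≤ 1) : 1 / 2 + κ ≤ 104 / 100 + 74 / 100 * κ ∧
    κ / 4 ≤ (104 / 100 + 74 / 100 * κ - 1 / 2) * (104 / 100 + 74 / 100 * κ - 1 / 2 - κ) := by
  constructor
  · linarith
  · nlinarith

/-- `T ≥ (3/4)(1+κ) p` for `κ ≤ 1/3`, `4m ≥ 3p+3`. -/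
theorem T_a2 (m p κ r : ℝ) (hp : 1 ≤ p) (hm : 3 * p + 3 ≤ 4 * m) (h0 : 0 ≤ κ) (h1 : κ ≤ 1 / 3)
    (hr : 0 < r) (hr2 : r ^ 2 * (p + 1) ≤ 2 + (p - 1) / (1 + κ) ^ 2) :
    p * (3 / 4 * (1 + κ)) ≤ m / r := by
  have hm0 : 0 < m := by linarith
  have h := T_lower m p κ r (p * (3 / 4 * (1 + κ)) / m) hm0.le hp h0 hr hr2 ?_
  · rwa [mul_div_cancel₀ _ hm0.ne'] at h
  · have hm2 : 9 / 16 * (p + 1) ^ 2 ≤ m ^ 2 := by nlinarith
    have hu : (1 + κ) ^ 2 ≤ 16 / 9 := by nlinarith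
    have h2 : p ^ 2 * (9 / 16) * (2 * (1 + κ) ^ 2 + p - 1) ≤ (p + 1) * m ^ 2 := by
      have a1 : p ^ 2 * (9 / 16) * (2 * (1 + κ) ^ 2 + p - 1) ≤ p ^ 2 * (9 / 16) * (2 * (16 / 9) + p - 1) :=
        mul_le_mul_of_nonneg_left (by linarith) (by positivity)
      have a2 : (p + 1) * (9 / 16 * (p + 1) ^ 2) ≤ (p + 1) * m ^ 2 :=
        mul_le_mul_of_nonneg_left hm2 (by linarith)
      have a3 : p ^ 2 * (9 / 16) * (2 * (16 / 9) + p - 1) ≤ (p + 1) * (9 / 16 * (p + 1) ^ 2) := by nlinarith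
      linarith
    have e : (p * (3 / 4 * (1 + κ)) / m) ^ 2 * (2 * (1 + κ) ^ 2 + p - 1) =
        (p ^ 2 * (9 / 16) * (2 * (1 + κ) ^ 2 + p - 1)) / m ^ 2 * (1 + κ) ^ 2 := by
      field_simp; ring
    rw [e]
    apply mul_le_mul_of_nonneg_right _ (sq_nonneg _)
    rw [div_le_iff₀ (by positivity)]
    exact h2

/-- `T ≥ p` for `κ ≥ 1/3`, `4m ≥ 3p+3`. -/
theorem T_b1 (m p κ r : ℝ) (hp : 1 ≤ p) (hm : 3 * p + 3 ≤ 4 * m) (h0 : 1 / 3 ≤ κ)
    (hr : 0 < r) (hr2 : r ^ 2 * (p + 1) ≤ 2 + (p - 1) / (1 + κ) ^ 2) :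
    p ≤ m / r := by
  have hm0 : 0 < m := by linarith
  have h := T_lower m p κ r (p / m) hm0.le hp (by linarith) hr hr2 ?_
  · rwa [mul_div_cancel₀ _ hm0.ne'] at h
  · have hm2 : 9 / 16 * (p + 1) ^ 2 ≤ m ^ 2 := by nlinarith
    have hu : 16 / 9 ≤ (1 + κ) ^ 2 := by nlinarith
    rw [div_pow, div_mul_eq_mul_div, div_le_iff₀ (by positivity)]
    have a2 : (p + 1) * (1 + κ) ^ 2 * (9 / 16 * (p + 1) ^ 2) ≤ (p + 1) * (1 + κ) ^ 2 * m ^ 2 :=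
      mul_le_mul_of_nonneg_left hm2 (by positivity)
    have a3 : p ^ 2 * (2 * (1 + κ) ^ 2 + p - 1) ≤ (p + 1) * (1 + κ) ^ 2 * (9 / 16 * (p + 1) ^ 2) := by
      have b1 : 0 ≤ 9 / 16 * (p + 1) ^ 3 - 2 * p ^ 2 := by nlinarith [mul_nonneg (by linarith : 0 ≤ p) (sq_nonneg (p - 1)), mul_nonneg (by linarith : 0 ≤ p) (by linarith : 0 ≤ p)]
      have b2 := mul_le_mul_of_nonneg_right hu b1
      have b3 : p ^ 2 * (p - 1) ≤ 16 / 9 * (9 / 16 * (p + 1) ^ 3 - 2 * p ^ 2) := by nlinarith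
      nlinarith
    linarith

/-- the quadratic `G` of (b1). -/
theorem G_nonneg (m κ x : ℝ) (hm : 23 ≤ m) (h0 : 1 / 3 ≤ κ) (h1 : κ ≤ 1) (hx1 : m / 3 + 1 ≤ x) (hx2 : x ≤ m / 2) :
    x ^ 2 * κ ≤ (m * (104 / 100 + 74 / 100 * κ) - x) *
      (m * (104 / 100 + 74 / 100 * κ) - 2 * m + 3 * x - 1 - 2 * x * κ) := by
  have hk1 : 0 ≤ (κ - 1 / 3) * (1 - κ) := mul_nonneg (by linarith) (by linarith)
  -- at m/2
  have e1 : 0 ≤ (m * (104 / 100 + 74 / 100 * κ) - m / 2) *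
      (m * (104 / 100 + 74 / 100 * κ) - 2 * m + 3 * (m / 2) - 1 - 2 * (m / 2) * κ) - (m / 2) ^ 2 * κ := by
    have a : (m * (104 / 100 + 74 / 100 * κ) - m / 2) *
      (m * (104 / 100 + 74 / 100 * κ) - 2 * m + 3 * (m / 2) - 1 - 2 * (m / 2) * κ) - (m / 2) ^ 2 * κ =
      m * (m * (2916 / 10000 + 92 / 10000 * κ - 1924 / 10000 * κ ^ 2) - (54 / 100 + 74 / 100 * κ)) := by ring
    rw [a]
    apply mul_nonneg (by linarith)
    have b : 1 / 10 ≤ 2916 / 10000 + 92 / 10000 * κ - 1924 / 10000 * κ ^ 2 := by nlinarith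
    have c : 23 * (1 / 10) ≤ m * (2916 / 10000 + 92 / 10000 * κ - 1924 / 10000 * κ ^ 2) :=
      mul_le_mul hm b (by norm_num) (by linarith)
    linarith
  -- at m/3 + 1
  have e2 : 0 ≤ (m * (104 / 100 + 74 / 100 * κ) - (m / 3 + 1)) *
      (m * (104 / 100 + 74 / 100 * κ) - 2 * m + 3 * (m / 3 + 1) - 1 - 2 * (m / 3 + 1) * κ) - (m / 3 + 1) ^ 2 * κ := by
    have a : (m * (104 / 100 + 74 / 100 * κ) - (m / 3 + 1)) *
      (m * (104 / 100 + 74 / 100 * κ) - 2 * m + 3 * (m / 3 + 1) - 1 - 2 * (m / 3 + 1) * κ) - (m / 3 + 1) ^ 2 * κ =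
      m * (m * ((53 / 75 + 37 / 50 * κ) * (1 / 25 + 11 / 150 * κ) - κ / 9) +
        ((53 / 75 + 37 / 50 * κ) * (2 - 2 * κ) - (1 / 25 + 11 / 150 * κ) - 2 / 3 * κ)) + (κ - 2) := by ring
    rw [a]
    have b0 : 0 ≤ (53 / 75 + 37 / 50 * κ) * (1 / 25 + 11 / 150 * κ) - κ / 9 := by nlinarith
    have b1 := mul_le_mul_of_nonneg_right hm b0
    have b2 : 4 / 10 ≤ 23 * ((53 / 75 + 37 / 50 * κ) * (1 / 25 + 11 / 150 * κ) - κ / 9) +
        ((53 / 75 + 37 / 50 * κ) * (2 - 2 * κ) - (1 / 25 + 11 / 150 * κ) - 2 / 3 * κ) := by nlinarith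
    have b3 : 4 / 10 ≤ m * ((53 / 75 + 37 / 50 * κ) * (1 / 25 + 11 / 150 * κ) - κ / 9) +
        ((53 / 75 + 37 / 50 * κ) * (2 - 2 * κ) - (1 / 25 + 11 / 150 * κ) - 2 / 3 * κ) := by linarith
    have b4 := mul_le_mul hm b3 (by norm_num) (by linarith)
    linarith
  have hL : 0 < m / 2 - (m / 3 + 1) := by linarith
  have key : (m / 2 - (m / 3 + 1)) * ((m * (104 / 100 + 74 / 100 * κ) - x) *
      (m * (104 / 100 + 74 / 100 * κ) - 2 * m + 3 * x - 1 - 2 * x * κ) - x ^ 2 * κ) =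
      (x - (m / 3 + 1)) * ((m * (104 / 100 + 74 / 100 * κ) - m / 2) *
      (m * (104 / 100 + 74 / 100 * κ) - 2 * m + 3 * (m / 2) - 1 - 2 * (m / 2) * κ) - (m / 2) ^ 2 * κ) +
      (m / 2 - x) * ((m * (104 / 100 + 74 / 100 * κ) - (m / 3 + 1)) *
      (m * (104 / 100 + 74 / 100 * κ) - 2 * m + 3 * (m / 3 + 1) - 1 - 2 * (m / 3 + 1) * κ) - (m / 3 + 1) ^ 2 * κ) +
      (3 - κ) * ((x - (m / 3 + 1)) * (m / 2 - x) * (m / 2 - (m / 3 + 1))) := by ring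
  have h3 : 0 ≤ (m / 2 - (m / 3 + 1)) * ((m * (104 / 100 + 74 / 100 * κ) - x) *
      (m * (104 / 100 + 74 / 100 * κ) - 2 * m + 3 * x - 1 - 2 * x * κ) - x ^ 2 * κ) := by
    rw [key]
    have a1 := mul_nonneg (by linarith : 0 ≤ x - (m / 3 + 1)) e1
    have a2 := mul_nonneg (by linarith : 0 ≤ m / 2 - x) e2
    have a3 := mul_nonneg (by linarith : 0 ≤ 3 - κ) (mul_nonneg (mul_nonneg (by linarith : 0 ≤ x - (m / 3 + 1))
      (by linarith : 0 ≤ m / 2 - x)) hL.le)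
    linarith
  have := nonneg_of_mul_nonneg_right h3 hL
  linarith

theorem good_b1 (m p κ T : ℝ) (hm : 23 ≤ m) (hp1 : m + 1 ≤ p) (hp2 : 3 * p + 3 ≤ 4 * m) (h0 : 1 / 3 ≤ κ) (h1 : κ ≤ 1)
    (hT : m * (104 / 100 + 74 / 100 * κ) ≤ T) : Good p κ T ((2 * m - p + 1) / 2) := by
  obtain ⟨x, hx⟩ : ∃ x : ℝ, x = (2 * m - p + 1) / 2 := ⟨_, rfl⟩
  rw [← hx]
  have hp : p = 2 * m - 2 * x + 1 := by rw [hx]; ring
  have hx1 : m / 3 + 1 ≤ x := by linarith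
  have hx2 : x ≤ m / 2 := by linarith
  have hG := G_nonneg m κ x hm h0 h1 hx1 hx2
  have hA : 0 < m * (104 / 100 + 74 / 100 * κ) - x := by nlinarith
  have hpos : 0 ≤ x ^ 2 * κ := by positivity
  have hB : 0 ≤ m * (104 / 100 + 74 / 100 * κ) - 2 * m + 3 * x - 1 - 2 * x * κ :=
    nonneg_of_mul_nonneg_right (hpos.trans hG) hA
  refine ⟨by linarith, ?_, ?_⟩
  · rw [hp]; linarith
  · refine hG.trans (mul_le_mul (by linarith) ?_ hB (by linarith))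
    rw [hp]; linarith

/-- The index set. -/
theorem lam_card (p : ℕ) (hp : 1 ≤ p) :
    (Finset.Icc (-(((p - 1) / 2 : ℕ) : ℤ)) ((p / 2 : ℕ) : ℤ)).card = p := by
  rw [Int.card_Icc]
  omega

theorem t_NU : S_NU := by
  intro m p k κ r hm hcase h0 h1 hr hr2
  have hmR : (23 : ℝ) ≤ m := by exact_mod_cast hm
  have hpm : m ≤ p := by rcases hcase with h | h <;> omega
  have hpR : (m : ℝ) ≤ p := by exact_mod_cast hpm
  have hp23 : (23 : ℝ) ≤ p := by linarith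
  have hp1 : (1 : ℝ) ≤ p := by linarith
  set Λ := Finset.Icc (-(((p - 1) / 2 : ℕ) : ℤ)) ((p / 2 : ℕ) : ℤ) with hΛ
  have hΛc : Λ.card = p := lam_card p (by omega)
  have hΛm : ∀ l ∈ Λ, -(p : ℤ) < 2 * l ∧ 2 * l ≤ p := by
    intro l hl
    rw [hΛ, Finset.mem_Icc] at hl
    omega
  have habs : ∀ l : ℤ, -(p : ℤ) < 2 * l → 2 * l ≤ p → |(l : ℝ)| ≤ p / 2 := by
    intro l h3 h4
    have h5 : 2 * |l| ≤ p := by
      rcases abs_cases l with h | h <;> omega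
    have h6 : (2 : ℝ) * |(l : ℝ)| ≤ p := by exact_mod_cast h5
    linarith
  rcases le_or_gt κ (1 / 3) with hk | hk
  · -- case (a)
    have hTa : (m : ℝ) * (1 + 17 * κ / 20) ≤ m / r :=
      T_lower m p κ r _ (by linarith) hp1 h0 hr hr2 (ineq_a p κ (by linarith) h0 hk)
    rcases hcase with ⟨hpm', hk1⟩ | ⟨hmp, h34, hk2⟩
    · refine ⟨Λ, hΛm, by omega, fun l hl => ?_⟩
      obtain ⟨h3, h4⟩ := hΛm l hl
      subst hpm'
      have hT : (p : ℝ) ≤ p / r := by nlinarith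
      exact good_between p κ _ 0 (p / 2) _ h1 (good_zero _ _ _ (by linarith) hT)
        (good_half _ _ _ _ (by linarith) h0 hTa (half_a3 κ h0 hk).1 (half_a3 κ h0 hk).2)
        (abs_nonneg _) (habs l h3 h4)
    · have h34R : 3 * (p : ℝ) + 3 ≤ 4 * m := by exact_mod_cast h34
      have hmpR : (m : ℝ) + 1 ≤ p := by exact_mod_cast hmp
      have hT2 := T_a2 m p κ r hp1 h34R h0 hk hr hr2
      have hG1 := good_a1 m p κ (m / r) h0 (by linarith) (by linarith) hTa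
      have hG2 := good_half p κ (m / r) _ (by linarith) h0 hT2 (half_a2 κ h0 hk).1 (half_a2 κ h0 hk).2
      obtain ⟨d, hd⟩ : ∃ d : ℕ, p = m + d := ⟨p - m, by omega⟩
      refine ⟨Λ \ Finset.Icc (1 - (d : ℤ)) (d - 1), ?_, ?_, ?_⟩
      · intro l hl
        exact hΛm l (Finset.mem_sdiff.mp hl).1
      · have h5 := Finset.le_card_sdiff (Finset.Icc (1 - (d : ℤ)) (d - 1)) Λ
        rw [hΛc, Int.card_Icc] at h5
        omega
      · intro l hl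
        obtain ⟨hl1, hl2⟩ := Finset.mem_sdiff.mp hl
        obtain ⟨h3, h4⟩ := hΛm l hl1
        refine good_between p κ _ (p - m) (p / 2) _ h1 hG1 hG2 ?_ (habs l h3 h4)
        have h6 : (d : ℤ) ≤ |l| := by
          rw [Finset.mem_Icc, not_and_or] at hl2
          rcases abs_cases l with h | h <;> omega
        have h7 : (d : ℝ) ≤ |(l : ℝ)| := by exact_mod_cast h6
        have h8 : (p : ℝ) - m = d := by rw [hd]; push_cast; ring
        rw [h8]; exact h7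
  · -- case (b)
    have hTb : (m : ℝ) * (104 / 100 + 74 / 100 * κ) ≤ m / r :=
      T_lower m p κ r _ (by linarith) hp1 h0 hr hr2 (ineq_b p κ hp23 hk.le h1.le)
    rcases hcase with ⟨hpm', hk1⟩ | ⟨hmp, h34, hk2⟩
    · refine ⟨Λ, hΛm, by omega, fun l hl => ?_⟩
      obtain ⟨h3, h4⟩ := hΛm l hl
      subst hpm'
      have hT : (p : ℝ) ≤ p / r := by nlinarith
      exact good_between p κ _ 0 (p / 2) _ h1 (good_zero _ _ _ (by linarith) hT)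
        (good_half _ _ _ _ (by linarith) h0 hTb (half_b2 κ hk.le h1.le).1 (half_b2 κ hk.le h1.le).2)
        (abs_nonneg _) (habs l h3 h4)
    · have h34R : 3 * (p : ℝ) + 3 ≤ 4 * m := by exact_mod_cast h34
      have hmpR : (m : ℝ) + 1 ≤ p := by exact_mod_cast hmp
      have hT2 := T_b1 m p κ r hp1 h34R hk.le hr hr2
      have hG1 := good_zero p κ (m / r) (by linarith) hT2
      have hG2 := good_b1 m p κ (m / r) hmR hmpR h34R hk.le h1.le hTb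
      refine ⟨Finset.Icc (-(((2 * m - p + 1) / 2 : ℕ) : ℤ)) (((2 * m - p + 1) / 2 : ℕ) : ℤ), ?_, ?_, ?_⟩
      · intro l hl
        rw [Finset.mem_Icc] at hl
        omega
      · rw [Int.card_Icc]
        omega
      · intro l hl
        rw [Finset.mem_Icc] at hl
        refine good_between p κ _ 0 _ _ h1 hG1 hG2 (abs_nonneg _) ?_
        have h6 : 2 * |l| ≤ 2 * (m : ℤ) - p + 1 := by
          rcases abs_cases l with h | h <;> omega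
        have h7 : 2 * |(l : ℝ)| ≤ 2 * (m : ℝ) - p + 1 := by exact_mod_cast h6
        linarith

end Pool.Agent.Helper69.ST
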