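import Pool.Agent.Helper69.ST.Goals

open MeasureTheory Set Complex Metric Filter
open scoped ContDiff Topology ENNReal

namespace Pool.Agent.Helper69.ST

theorem block_real (X Y b x y : ℝ) (hX : 0 ≤ X) (hY : 0 ≤ Y) (hb : b ^ 2 ≤ X * Y) (hb0 : 0 ≤ b)
    (hx : 0 ≤ x) (hy : 0 ≤ y) : 2 * b * x * y ≤ X * x ^ 2 + Y * y ^ 2 := by
  have h1 : (2 * b * x * y) ^ 2 ≤ (X * x ^ 2 + Y * y ^ 2) ^ 2 := by
    have h2 : (2 * b * x * y) ^ 2 ≤ 4 * (X * x ^ 2) * (Y * y ^ 2) := by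
      have : b ^ 2 * (x * y) ^ 2 ≤ X * Y * (x * y) ^ 2 :=
        mul_le_mul_of_nonneg_right hb (sq_nonneg _)
      nlinarith
    nlinarith [sq_nonneg (X * x ^ 2 - Y * y ^ 2)]
  have h3 : 0 ≤ X * x ^ 2 + Y * y ^ 2 := by positivity
  have h4 : 0 ≤ 2 * b * x * y := by positivity
  exact (abs_le_of_sq_le_sq' h1 h3).2

theorem t_BI : S_BI := by
  intro p T j c' α γ hj hG
  obtain ⟨h1, h2, h3⟩ := hG
  have hn : ‖α - γ * c'‖ ^ 2 = ‖α‖ ^ 2 - 2 * (α * starRingEnd ℂ (γ * c')).re + ‖γ‖ ^ 2 * ‖c'‖ ^ 2 := by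
    have h := Complex.normSq_sub α (γ * c')
    simp only [Complex.normSq_eq_norm_sq] at h
    rw [h, norm_mul]
    ring
  have hre : -(α * starRingEnd ℂ (γ * c')).re ≤ ‖α‖ * (‖γ‖ * ‖c'‖) := by
    have h := Complex.abs_re_le_norm (α * starRingEnd ℂ (γ * c'))
    rw [norm_mul, RCLike.norm_conj, norm_mul] at h
    exact (neg_le_abs _).trans h
  have hb := block_real (T - j) (T - p + j - 2 * j * ‖c'‖ ^ 2) (j * ‖c'‖) ‖α‖ ‖γ‖ (by linarith) h2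
    (by nlinarith) (by positivity) (norm_nonneg _) (norm_nonneg _)
  have h5 : j * -(α * starRingEnd ℂ (γ * c')).re ≤ j * (‖α‖ * (‖γ‖ * ‖c'‖)) :=
    mul_le_mul_of_nonneg_left hre hj
  rw [hn]
  nlinarith

end Pool.Agent.Helper69.ST
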