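import Pool.Agent.Helper69.ST.Goals

open MeasureTheory Set Complex Metric Filter
open scoped ContDiff Topology ENNReal

namespace Pool.Agent.Helper69.ST

open Pool.Agent.Helper45.Stek

theorem t_CF (hCA : S_CA) (hCB : S_CB) : S_CF := by
  intro Ω c w p ho hc hp hw hrot
  obtain ⟨f, hd, hinj, him, heq, hnz⟩ := hCA Ω c w p ho hc hp hw hrot
  obtain ⟨β, h1, h2, h3⟩ := hCB p w f hp hw hd heq hnz
  refine ⟨f, Function.invFunOn f (ball 0 1), β, ⟨him, ?_, h1, h2, h3⟩⟩
  intro z hz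
  exact hinj.leftInvOn_invFunOn hz

end Pool.Agent.Helper69.ST
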