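import Pool.Agent.Helper69.ST.Goals

open MeasureTheory Set Complex Metric Filter
open scoped ContDiff Topology ENNReal

namespace Pool.Agent.Helper69.ST

open Pool.Agent.Helper45.Stek

/-- The upper bound for a rotation about `c`. -/
theorem fin_one (hCF : S_CF) (hUB : S_UB) (k : ℕ) (hk : 45 ≤ k) (Ω : Set ℂ) (p : ℕ) (c w : ℂ) (hΩ : LipDomain Ω)
    (hcd : ConfDisk Ω) (hkp : k < 2 * p) (hpk : 3 * p + 3 ≤ 2 * k) (hw : IsPrimitiveRoot w p) (hrot : rot c w '' Ω = Ω) :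
    steklov k Ω * √(area Ω) ≤ ((k + 1) / 2 : ℕ) * √Real.pi := by
  obtain ⟨f, φ, β, hconf⟩ := hCF Ω c w p hΩ.isOpen hcd (by omega) hw hrot
  obtain ⟨hΩ', har, hbd, -⟩ := tr Ω c hΩ
  have h1 := hUB ((k + 1) / 2) p k _ f φ β (by omega) (by omega) hΩ' hconf
  rw [har] at h1
  refine le_trans ?_ h1
  refine mul_le_mul_of_nonneg_right ?_ (Real.sqrt_nonneg _)
  unfold steklov
  exact csInf_le_csInf ⟨0, fun l hl => hl.1⟩ (ne k _ hΩ') (hbd k)

theorem t_FIN (hCF : S_CF) (hUB : S_UB) : S_FIN := by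
  intro k hk
  have h1 := fin_one hCF hUB k hk
  obtain ⟨-, h2, ⟨h3, -, h4⟩, h5⟩ := final k (by omega)
  refine ⟨h1, h2, ?_⟩
  intro Ω hΩ hcd c w hw hrot
  obtain ⟨n, hn1, hnk, hwn⟩ := h5 Ω hΩ c w hw hrot
  have hp := IsPrimitiveRoot.orderOf w
  have hpn : orderOf w ≤ n := orderOf_le_of_pow_eq_one (by omega) hwn
  have hpos : 0 < orderOf w := orderOf_pos_iff.mpr (isOfFinOrder_iff_pow_eq_one.mpr ⟨n, by omega, hwn⟩)
  refine ⟨orderOf w, hpos, hp, ?_⟩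
  by_contra hcon
  have h6 := h1 Ω (orderOf w) c w hΩ.1 hcd (by omega) (by omega) hp hrot
  have h7 := hΩ.2 _ h3
  linarith

end Pool.Agent.Helper69.ST
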