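import Pool.Agent.Helper69.ST.UBG

/-!
# ST: the final theorem

Rotational symmetries of Lipschitz domains and the `k`-th Steklov eigenvalue under the area constraint.
-/

open MeasureTheory Set Complex Metric Filter
open scoped ContDiff Topology ENNReal

namespace Pool.Agent.Helper69.ST

open Pool.Agent.Helper45.Stek

/-- The image of the unit disk under `z + (3/10) z^(k+1) / (k+1) + (9/400) z^(2k+1) / (2k+1)`, the primitive of
`(1 + (3/20) z^k)²`. -/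
noncomputable def petals (k : ℕ) : Set ℂ :=
  (fun z : ℂ => z + 3 / 10 / (k + 1) * z ^ (k + 1) + 9 / 400 / (2 * k + 1) * z ^ (2 * k + 1)) '' ball 0 1

theorem petals_eq (k : ℕ) : petals k = petal k := by
  unfold petals petal
  congr 1
  ext z
  unfold phi
  push_cast
  ring

theorem bound_one (hFL : S_FL) (hCF : S_CF) (hUB : S_UB) (k : ℕ) (hk : 45 ≤ k) (Ω : Set ℂ) (p : ℕ) (c w : ℂ)
    (hΩ : LipDomain Ω) (hkp : k < 2 * p) (hpk : 3 * p + 3 ≤ 2 * k) (hw : IsPrimitiveRoot w p)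
    (hrot : rot c w '' Ω = Ω) : steklov k Ω * √(area Ω) ≤ ((k + 1) / 2 : ℕ) * √Real.pi :=
  transfer hFL hCF k _ Ω p c w (by omega) hΩ hw hrot
    (fun Ω' f φ β h1 h2 => hUB ((k + 1) / 2) p k Ω' f φ β (by omega) (by omega) h1 h2)

theorem bound_two (hFL : S_FL) (hCF : S_CF) (hUB : S_UB) (hUW : S_UW) (k : ℕ) (hk : 60 ≤ k) (Ω : Set ℂ) (p : ℕ)
    (c w : ℂ) (hΩ : LipDomain Ω) (hkp : k < 2 * p) (hpk : 4 * p ≤ 3 * k) (hw : IsPrimitiveRoot w p)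
    (hrot : rot c w '' Ω = Ω) : steklov k Ω * √(area Ω) ≤ 14 / 25 * (k : ℝ) * √Real.pi := by
  by_cases h : 3 * p + 3 ≤ 2 * k
  · refine le_trans (bound_one hFL hCF hUB k (by omega) Ω p c w hΩ hkp h hw hrot) ?_
    refine mul_le_mul_of_nonneg_right ?_ (Real.sqrt_nonneg _)
    have h1 : (((k + 1) / 2 : ℕ) : ℝ) * 2 ≤ k + 1 := by
      exact_mod_cast Nat.div_mul_le_self (k + 1) 2
    have h2 : (60 : ℝ) ≤ k := by exact_mod_cast hk
    linarith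
  · exact transfer hFL hCF k _ Ω p c w (by omega) hΩ hw hrot
      (fun Ω' f φ β h1 h2 => hUW p k Ω' f φ β (by omega) hpk (by omega) h1 h2)

theorem petals_gt (hPN : S_PN2) (hAR : S_AR2) (hLB : S_LB2) (k : ℕ) (hk : 2 ≤ k) :
    LipDomain (petals k) ∧ RotSymmetric k (petals k) ∧
      14 / 25 * (k : ℝ) * √Real.pi < steklov k (petals k) * √(area (petals k)) := by
  rw [petals_eq]
  obtain ⟨h1, h2⟩ := hLB k hk
  refine ⟨h1, (hPN k hk).2.2, ?_⟩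
  have h4 : √Real.pi < √(area (petal k)) := Real.sqrt_lt_sqrt Real.pi_pos.le (hAR k hk)
  have hk0 : (0 : ℝ) < k := by
    have : 0 < k := by omega
    exact_mod_cast this
  calc 14 / 25 * (k : ℝ) * √Real.pi < 14 / 25 * (k : ℝ) * √(area (petal k)) := by
        apply mul_lt_mul_of_pos_left h4; positivity
    _ ≤ _ := mul_le_mul_of_nonneg_right h2 (Real.sqrt_nonneg _)

/-- The theorem. -/
def S_FINW : Prop :=
  (∀ k : ℕ, 45 ≤ k → ∀ (Ω : Set ℂ) (p : ℕ) (c w : ℂ), LipDomain Ω → k < 2 * p → 3 * p + 3 ≤ 2 * k →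
    IsPrimitiveRoot w p → rot c w '' Ω = Ω → steklov k Ω * √(area Ω) ≤ ((k + 1) / 2 : ℕ) * √Real.pi) ∧
  (∀ k : ℕ, 2 ≤ k → steklov k (ball 0 1) * √(area (ball 0 1)) = ((k + 1) / 2 : ℕ) * √Real.pi) ∧
  (∀ k : ℕ, 60 ≤ k → ∀ (Ω : Set ℂ) (p : ℕ) (c w : ℂ), LipDomain Ω → k < 2 * p → 4 * p ≤ 3 * k →
    IsPrimitiveRoot w p → rot c w '' Ω = Ω → steklov k Ω * √(area Ω) ≤ 14 / 25 * (k : ℝ) * √Real.pi) ∧
  (∀ k : ℕ, 2 ≤ k → LipDomain (petals k) ∧ RotSymmetric k (petals k) ∧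
    14 / 25 * (k : ℝ) * √Real.pi < steklov k (petals k) * √(area (petals k))) ∧
  ∀ k : ℕ, 45 ≤ k → ∀ Ω : Set ℂ, IsMaximiser k Ω → ∀ c w : ℂ, ‖w‖ = 1 → rot c w '' Ω = Ω →
    ∃ p : ℕ, 1 ≤ p ∧ p ≤ k ∧ IsPrimitiveRoot w p ∧ (2 * p ≤ k ∨ 2 * k < 3 * p + 3 ∧ (60 ≤ k → 3 * k < 4 * p))

theorem t_FINW (hFL : S_FL) (hCF : S_CF) (hUB : S_UB) (hUW : S_UW) (hPN : S_PN2) (hAR : S_AR2) (hLB : S_LB2) :
    S_FINW := by
  refine ⟨fun k hk Ω p c w => bound_one hFL hCF hUB k hk Ω p c w, fun k hk => (final k hk).2.1,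
    fun k hk Ω p c w => bound_two hFL hCF hUB hUW k hk Ω p c w, fun k hk => petals_gt hPN hAR hLB k hk, ?_⟩
  intro k hk Ω hΩ c w hw hrot
  obtain ⟨-, -, ⟨h3, -, h4⟩, h5⟩ := final k (by omega)
  obtain ⟨n, hn1, hnk, hwn⟩ := h5 Ω hΩ c w hw hrot
  have hp := IsPrimitiveRoot.orderOf w
  have hpn : orderOf w ≤ n := orderOf_le_of_pow_eq_one (by omega) hwn
  have hpos : 0 < orderOf w := orderOf_pos_iff.mpr (isOfFinOrder_iff_pow_eq_one.mpr ⟨n, by omega, hwn⟩)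
  refine ⟨orderOf w, hpos, by omega, hp, ?_⟩
  by_cases h6 : 2 * orderOf w ≤ k
  · exact Or.inl h6
  refine Or.inr ⟨?_, ?_⟩
  · by_contra hcon
    have h7 := bound_one hFL hCF hUB k hk Ω (orderOf w) c w hΩ.1 (by omega) (by omega) hp hrot
    have h8 := hΩ.2 _ h3
    linarith
  · intro hk60
    by_contra hcon
    have h7 := bound_two hFL hCF hUB hUW k hk60 Ω (orderOf w) c w hΩ.1 (by omega) (by omega) hp hrot
    obtain ⟨h9, -, h10⟩ := petals_gt hPN hAR hLB k (by omega)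
    have h8 := hΩ.2 _ h9
    linarith

end Pool.Agent.Helper69.ST
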