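import Pool.Agent.Helper69.ST.FINW

/-!
# ST: the two final theorems
-/

open MeasureTheory Set Complex Metric Filter
open scoped ContDiff Topology ENNReal

namespace Pool.Agent.Helper69.ST

open Pool.Agent.Helper45.Stek

/-- `Ω` is mapped onto itself by a rotation of exact order `p`. -/
def HasRotation (p : ℕ) (Ω : Set ℂ) : Prop := ∃ c w : ℂ, IsPrimitiveRoot w p ∧ rot c w '' Ω = Ω

theorem ball_rotation (p : ℕ) (hp : p ≠ 0) : HasRotation p (ball (0 : ℂ) 1) := by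
  have hprim := Complex.isPrimitiveRoot_exp p hp
  refine ⟨0, _, hprim, ?_⟩
  have hw1 : ‖exp (2 * Real.pi * I / (p : ℂ))‖ = 1 := by
    have : 2 * Real.pi * I / (p : ℂ) = ((2 * Real.pi / p : ℝ) : ℂ) * I := by
      push_cast
      ring
    rw [this, Complex.norm_exp_ofReal_mul_I]
  have h1 : rot 0 (exp (2 * Real.pi * I / (p : ℂ))) = fun z => exp (2 * Real.pi * I / (p : ℂ)) * z := by
    ext z
    simp [rot]
  rw [h1]
  exact rot_ball _ hw1

/-- The disk is optimal among the domains with a rotation of exact order `p`. -/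
theorem disk_optimal (h : S_FINW) (k p : ℕ) (hk : 45 ≤ k) (h1 : k < 2 * p) (h2 : 3 * p + 3 ≤ 2 * k) :
    IsGreatest {x : ℝ | ∃ Ω : Set ℂ, LipDomain Ω ∧ HasRotation p Ω ∧ x = steklov k Ω * √(area Ω)}
      (((k + 1) / 2 : ℕ) * √Real.pi) ∧
    steklov k (ball 0 1) * √(area (ball 0 1)) = ((k + 1) / 2 : ℕ) * √Real.pi ∧
    ∀ Ω : Set ℂ, IsMaximiser k Ω → ¬ HasRotation p Ω := by
  obtain ⟨hA, hB, -, -, -⟩ := h
  refine ⟨⟨⟨ball 0 1, ball_dom, ball_rotation p (by omega), (hB k (by omega)).symm⟩, ?_⟩, hB k (by omega), ?_⟩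
  · rintro x ⟨Ω, hΩ, ⟨c, w, hw, hrot⟩, rfl⟩
    exact hA k hk Ω p c w hΩ h1 h2 hw hrot
  · rintro Ω hΩ ⟨c, w, hw, hrot⟩
    obtain ⟨-, -, ⟨h3, -, h4⟩, -⟩ := final k (by omega)
    have h7 := hA k hk Ω p c w hΩ.1 h1 h2 hw hrot
    have h8 := hΩ.2 _ h3
    linarith

/-- The gap in the orders of the rotations of a maximiser. -/
theorem rotation_gap (h : S_FINW) (k : ℕ) (hk : 60 ≤ k) :
    (∀ (p : ℕ) (Ω : Set ℂ), k < 2 * p → 4 * p ≤ 3 * k → LipDomain Ω → HasRotation p Ω →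
      steklov k Ω * √(area Ω) ≤ 14 / 25 * (k : ℝ) * √Real.pi) ∧
    (LipDomain (petals k) ∧ RotSymmetric k (petals k) ∧
      14 / 25 * (k : ℝ) * √Real.pi < steklov k (petals k) * √(area (petals k))) ∧
    ∀ (p : ℕ) (Ω : Set ℂ), k < 2 * p → 4 * p ≤ 3 * k → IsMaximiser k Ω → ¬ HasRotation p Ω := by
  obtain ⟨-, -, hC, hD, -⟩ := h
  have h2 := hD k (by omega)
  refine ⟨?_, h2, ?_⟩
  · rintro p Ω h3 h4 hΩ ⟨c, w, hw, hrot⟩
    exact hC k hk Ω p c w hΩ h3 h4 hw hrot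
  · rintro p Ω h3 h4 hΩ ⟨c, w, hw, hrot⟩
    have h7 := hC k hk Ω p c w hΩ.1 h3 h4 hw hrot
    have h8 := hΩ.2 _ h2.1
    have h9 := h2.2.2
    linarith

end Pool.Agent.Helper69.ST
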