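import Pool.Agent.Helper69.ST.GoalsR
import Pool.Agent.Helper69.ST.FIN

open MeasureTheory Set Complex Metric Filter
open scoped ContDiff Topology ENNReal

namespace Pool.Agent.Helper69.ST

open Pool.Agent.Helper45.Stek

theorem t_FL (hFA : S_FA) (hFB : S_FB) (hFC : S_FC) (hFR : S_FR) (hFS : S_FS) (hSQ : S_SQ) (hRM : S_RM) : S_FL := by
  intro Ω hΩ
  obtain ⟨h1, h2, h3, h4, -, h5, h6⟩ := hFA Ω hΩ.isOpen hΩ.bdd
  have h7 : LipDomain (fill Ω) := ⟨h1, hFC Ω hΩ, h2, hFB Ω hΩ⟩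
  have h8 : frontier (fill Ω) ⊆ frontier Ω := h5.trans h6
  refine ⟨h7, hRM _ h1 h2 h7.conn (hSQ _ h1 h2 h7.conn h4), fun k => (hFS k Ω _ hΩ h7 h3 h8).1,
    (hFS 0 Ω _ hΩ h7 h3 h8).2, fun c w hw hrot => hFR Ω c w hw hrot⟩

theorem finr_one (hFL : S_FL) (hCF : S_CF) (hUB : S_UB) (k : ℕ) (hk : 45 ≤ k) (Ω : Set ℂ) (p : ℕ) (c w : ℂ)
    (hΩ : LipDomain Ω) (hkp : k < 2 * p) (hpk : 3 * p + 3 ≤ 2 * k) (hw : IsPrimitiveRoot w p)
    (hrot : rot c w '' Ω = Ω) : steklov k Ω * √(area Ω) ≤ ((k + 1) / 2 : ℕ) * √Real.pi := by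
  obtain ⟨h1, h2, h3, h4, h5⟩ := hFL Ω hΩ
  have hw1 : ‖w‖ = 1 := by
    have e : ‖w‖ ^ p = 1 := by rw [← norm_pow, hw.pow_eq_one, norm_one]
    exact (pow_eq_one_iff_of_nonneg (norm_nonneg _) (by omega)).mp e
  refine le_trans ?_ (fin_one hCF hUB k hk _ p c w h1 h2 hkp hpk hw (h5 c w hw1 hrot))
  have h6 : steklov k Ω ≤ steklov k (fill Ω) := by
    unfold steklov
    exact csInf_le_csInf ⟨0, fun l hl => hl.1⟩ (ne k _ h1) (h3 k)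
  have h7 : 0 ≤ steklov k (fill Ω) := by
    unfold steklov
    exact Real.sInf_nonneg (fun l hl => hl.1)
  exact mul_le_mul h6 (Real.sqrt_le_sqrt h4) (Real.sqrt_nonneg _) h7

theorem t_FINR (hFL : S_FL) (hCF : S_CF) (hUB : S_UB) : S_FINR := by
  intro k hk
  have h1 := finr_one hFL hCF hUB k hk
  obtain ⟨-, h2, ⟨h3, -, h4⟩, h5⟩ := final k (by omega)
  refine ⟨h1, h2, ?_⟩
  intro Ω hΩ c w hw hrot
  obtain ⟨n, hn1, hnk, hwn⟩ := h5 Ω hΩ c w hw hrot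
  have hp := IsPrimitiveRoot.orderOf w
  have hpn : orderOf w ≤ n := orderOf_le_of_pow_eq_one (by omega) hwn
  have hpos : 0 < orderOf w := orderOf_pos_iff.mpr (isOfFinOrder_iff_pow_eq_one.mpr ⟨n, by omega, hwn⟩)
  refine ⟨orderOf w, hpos, hp, ?_⟩
  by_contra hcon
  have h6 := h1 Ω (orderOf w) c w hΩ.1 (by omega) (by omega) hp hrot
  have h7 := hΩ.2 _ h3
  linarith

end Pool.Agent.Helper69.ST
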