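import Pool.Agent.Helper45.Stek.Final

/-!
# ST: rotation orders of Steklov maximisers (MP_438009_an), goals

THEOREM. `k ≥ 45`, `k < 2 p`, `3 p + 3 ≤ 2 k`, `Ω` a Lipschitz domain, the image of the unit disk under an injective holomorphic map
(= simply connected), invariant under a rotation of order `p`: `σ_k √|Ω| ≤ ⌈k/2⌉ √π` (the value of the disk).

Notation: `R = √(area/π)`, `h = ∑ β_n z^(pn)`, `f' = h²`, `a = ∑ |β_n|²`, `H` the boundary function of `∑ β_n w^n` (so that of `h` is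
`θ ↦ H (p θ)`), `φ` the inverse of `f`, `Ψ_τ x = x + τ V x`. The definitions `LipDomain, area, energy, bdry, steklov, rot, hf` are those of
`Pool.Agent.Helper45.Stek` (Defs, Goals). Every packet is a `Prop`; prove `theorem t : S_XX` (from the hypotheses listed as USES, as
arguments `(h : S_YY)`) in a file of your own. If a statement is false as it stands, mail helper69 at once.
-/

open MeasureTheory Set Complex Metric Filter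
open scoped ContDiff Topology ENNReal

namespace Pool.Agent.Helper69.ST

open Pool.Agent.Helper45.Stek

/-- `2 ∂G/∂z̄`. -/
noncomputable def dbar (G : ℂ → ℂ) (z : ℂ) : ℂ := fderiv ℝ G z 1 + I * fderiv ℝ G z I

/-- `Ω` is the image of the unit disk under an injective holomorphic map. -/
def ConfDisk (Ω : Set ℂ) : Prop :=
  ∃ f : ℂ → ℂ, DifferentiableOn ℂ f (ball 0 1) ∧ InjOn f (ball 0 1) ∧ f '' ball 0 1 = Ω

/-- The power series `∑ β_n z^(pn)`. -/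
noncomputable def hfun (p : ℕ) (β : ℕ → ℂ) (z : ℂ) : ℂ := ∑' n : ℕ, β n * z ^ (p * n)

/-- `f` maps the unit disk injectively onto `Ω`, `φ` is its inverse, `f' = h²`, `h = ∑ β_n z^(pn)`. -/
structure Conf (p : ℕ) (Ω : Set ℂ) (f φ : ℂ → ℂ) (β : ℕ → ℂ) : Prop where
  im : f '' ball 0 1 = Ω
  inv : ∀ z ∈ ball (0 : ℂ) 1, φ (f z) = z
  sm : ∀ r : ℝ, 0 ≤ r → r < 1 → Summable (fun n : ℕ => ‖β n‖ * r ^ n)
  der : ∀ z ∈ ball (0 : ℂ) 1, HasDerivAt f (hfun p β z ^ 2) z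
  nz : ∀ z ∈ ball (0 : ℂ) 1, hfun p β z ≠ 0

/-- `V` is a smooth vector field such that `x + τ V x` is in `Ω` for all `x` in the closure of `Ω` and all
small `τ > 0`. -/
structure VField (Ω : Set ℂ) (V : ℂ → ℂ) (τ₀ : ℝ) : Prop where
  sm : ContDiff ℝ ∞ V
  cp : HasCompactSupport V
  pos : 0 < τ₀
  shift : ∀ τ : ℝ, 0 < τ → τ < τ₀ → ∀ x ∈ closure Ω, x + τ * V x ∈ Ω

/-- `H` is the boundary function of the power series `∑ β_n w^n` (in `H²`). -/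
structure BdF (β : ℕ → ℂ) (H : ℝ → ℂ) : Prop where
  meas : Measurable H
  per : ∀ t : ℝ, H (t + 2 * Real.pi) = H t
  sq : IntervalIntegrable (fun t => ‖H t‖ ^ 2) volume (-Real.pi) Real.pi
  cv : Tendsto (fun ρ : ℝ => ∫ t in (-Real.pi)..Real.pi, ‖hfun 1 β (ρ * exp (t * I)) - H t‖ ^ 2)
    (𝓝[<] 1) (𝓝 0)
  tot : ∫ t in (-Real.pi)..Real.pi, ‖H t‖ ^ 2 = 2 * Real.pi * ∑' n : ℕ, ‖β n‖ ^ 2

/-- The form `∫ |u|² |h|² dθ` on the circle. -/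
noncomputable def mass (p : ℕ) (H : ℝ → ℂ) (u : ℂ → ℂ) : ℝ :=
  ∫ θ in (-Real.pi)..Real.pi, ‖u (exp (θ * I))‖ ^ 2 * ‖H (p * θ)‖ ^ 2

/-- The Möbius map `(w - c)/(1 - c̄ w)`. -/
noncomputable def mob (c w : ℂ) : ℂ := (w - c) / (1 - starRingEnd ℂ c * w)

/-! ## Part A: the normal form -/

/-- CA. The equivariant Riemann map (`Ω` translated by `-c`).
PROOF. `Ω' = Ω - c`, `g = f₀ - c : ball → Ω'` injective, holomorphic, onto; `w Ω' = Ω'`. `g' ≠ 0` (injective). (1) `0 ∈ Ω'`: otherwise `g` has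
a holomorphic logarithm `L` on the ball (`exp L = g`); `S := g⁻¹ ∘ (w ·) ∘ g` maps the ball to itself, `exp (L (S z)) = w exp (L z)`, so
`L ∘ S - L` is continuous with values in the discrete set `{κ | exp κ = w}`, hence a constant `κ`; adding up along `z, S z, ..., S^p z = z`:
`p κ = 0`, `w = exp 0 = 1`, contradiction (`p ≥ 2`). (2) `z₀ = g⁻¹ 0`, `f z := g ((z + z₀)/(1 + z̄₀ z))`, `f 0 = 0`. `S₁ := f⁻¹ ∘ (w ·) ∘ f` is a holomorphic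
bijection of the ball fixing `0`; Schwarz for `S₁` and its inverse: `|S₁ z| = |z|`, so `S₁ z / z` is constant (maximum modulus), `S₁ z = λ z`,
`f (λ z) = w f z`, derivative at `0`: `λ = w`. -/
def S_CA : Prop := ∀ (Ω : Set ℂ) (c w : ℂ) (p : ℕ), IsOpen Ω → ConfDisk Ω → 2 ≤ p → IsPrimitiveRoot w p →
  rot c w '' Ω = Ω → ∃ f : ℂ → ℂ, DifferentiableOn ℂ f (ball 0 1) ∧ InjOn f (ball 0 1) ∧
    f '' ball 0 1 = (fun z => z - c) '' Ω ∧ (∀ z ∈ ball (0 : ℂ) 1, f (w * z) = w * f z) ∧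
    ∀ z ∈ ball (0 : ℂ) 1, deriv f z ≠ 0

/-- CB. The square root of the derivative.
PROOF. `f' (w z) = f' z`. `f'` has no zero on the ball, so `f' = h²`, `h` holomorphic
(square root of a nonvanishing function on the disk: `exp` of half a primitive of `f''/f'`, or `Mathlib.Analysis.Complex.BranchLogRoot`), `h (w z)² = h z²`, `h (w z)/h z ∈ {1, -1}` is continuous, `1` at `0`: `h (w z) = h z`. The
Taylor coefficients `a_n` of `h` satisfy `a_n w^n = a_n`: `a_n = 0` unless `p ∣ n` (`w` primitive). `β_n = a_(pn)`; the Taylor series converges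
absolutely in the disk (with `r = ρ^p`). -/
def S_CB : Prop := ∀ (p : ℕ) (w : ℂ) (f : ℂ → ℂ), 2 ≤ p → IsPrimitiveRoot w p → DifferentiableOn ℂ f (ball 0 1) →
  (∀ z ∈ ball (0 : ℂ) 1, f (w * z) = w * f z) → (∀ z ∈ ball (0 : ℂ) 1, deriv f z ≠ 0) →
  ∃ β : ℕ → ℂ, (∀ r : ℝ, 0 ≤ r → r < 1 → Summable (fun n : ℕ => ‖β n‖ * r ^ n)) ∧
    (∀ z ∈ ball (0 : ℂ) 1, HasDerivAt f (hfun p β z ^ 2) z) ∧ ∀ z ∈ ball (0 : ℂ) 1, hfun p β z ≠ 0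

/-- CF. The normal form. USES: CA, CB.
PROOF. `φ := invFunOn f (ball 0 1)`. -/
def S_CF : Prop := ∀ (Ω : Set ℂ) (c w : ℂ) (p : ℕ), IsOpen Ω → ConfDisk Ω → 2 ≤ p → IsPrimitiveRoot w p →
  rot c w '' Ω = Ω → ∃ (f φ : ℂ → ℂ) (β : ℕ → ℂ), Conf p ((fun z => z - c) '' Ω) f φ β

/-- PH. The inverse map.
PROOF. `f` is injective on the ball (`inv`), with nonzero derivative (`der`, `nz`), open map; `HasDerivAt` of the inverse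
(`HasDerivAt.of_local_left_inverse` or `HasStrictDerivAt.to_localInverse`; `φ` is continuous on `Ω` as `f` is open). (4) change of variables:
`integral_image_eq_integral_abs_det_fderiv_smul`, the real determinant of multiplication by `h²` is `‖h‖⁴`. (5): `{x ∈ Ω | ‖φ x‖ ≤ 1 - δ}` is the
compact set `f '' closedBall 0 (1 - δ)`, at a positive distance from the complement of `Ω`, whereas `x + τ V x` is within `τ sup ‖V‖` of the point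
`x` of the frontier (not in `Ω`); and it is in `Ω` by `shift`. -/
def S_PH : Prop := ∀ (p : ℕ) (Ω : Set ℂ) (f φ : ℂ → ℂ) (β : ℕ → ℂ), 1 ≤ p → IsOpen Ω → Conf p Ω f φ β →
  (∀ x ∈ Ω, φ x ∈ ball (0 : ℂ) 1 ∧ f (φ x) = x ∧ HasDerivAt φ ((hfun p β (φ x) ^ 2)⁻¹) x) ∧
  InjOn f (ball 0 1) ∧ ContinuousOn (hfun p β) (ball 0 1) ∧ DifferentiableOn ℂ (hfun p β) (ball 0 1) ∧
  (∀ F : ℂ → ℂ, ∫ x in Ω, F x = ∫ z in ball (0 : ℂ) 1, (‖hfun p β z‖ ^ 4 : ℝ) • F (f z)) ∧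
  (∀ F : ℂ → ℝ, ∫ x in Ω, F x = ∫ z in ball (0 : ℂ) 1, (‖hfun p β z‖ ^ 4 : ℝ) * F (f z)) ∧
  ∀ (V : ℂ → ℂ) (τ₀ : ℝ), VField Ω V τ₀ → ∀ δ : ℝ, 0 < δ → ∃ τ₁ : ℝ, 0 < τ₁ ∧ τ₁ ≤ τ₀ ∧
    ∀ τ : ℝ, 0 < τ → τ < τ₁ → ∀ x ∈ frontier Ω, 1 - δ < ‖φ (x + τ * V x)‖ ∧ ‖φ (x + τ * V x)‖ < 1

/-! ## Part B: Lipschitz domains -/

/-- VF. The vector field.
PROOF. For `p` in the frontier (compact) take `a, r, L, g` of `LipschitzBoundary`, `e_p := a I`. For `x = p + a (s + t I)` in the closure of `Ω` with `|s|, |t| < r/2`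
and `0 < σ < r/2` the point `x + σ e_p` is in `Ω`: `g s ≤ t` (if `t < g s`, all points near `x` are outside `Ω`), so `g s < t + σ`, `|t + σ| < r`. Let `χ_p ≥ 0` be a smooth
bump function (`ContDiffBump`), positive exactly on the ball of radius `r/4` around `p`, `χ_p ≤ 1`. Finitely many `p_i` (`i < n`) such that the frontier is in the union of the
balls `{χ_i > 0}`. `V := ∑ χ_i e_i`. Let `τ n < min r_i / 4`, `x ∈ closure Ω`. If all `χ_i x = 0` then `x` is not in the frontier, so `x ∈ Ω`, `V x = 0`. Otherwise add the vectors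
`τ χ_i(x) e_i` one after the other: every partial sum stays within `min r_i / 4` of `x`, so for every `i` with `χ_i x > 0` it has coordinates `< r_i/2` in the box of `p_i`; it is in the closure of
`Ω`, and after the first nonzero step in `Ω`. -/
def S_VF : Prop := ∀ Ω : Set ℂ, LipDomain Ω → ∃ (V : ℂ → ℂ) (τ₀ : ℝ), VField Ω V τ₀

/-- DL. Green's inequality above a Lipschitz graph (real coordinates `ζ = s + t I`).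
PROOF. `A := ∫_{g s < t} G_s + i G_t`. (1) `∫_{g s < t} i G_t = - i ∫ G(s, g s) ds` (Fubini). (2) `∫_{g s < t} G_s = lim_{δ→0} (1/δ) ∫_{g s < t} (G(s+δ,t) - G(s,t)) = lim (1/δ) (∫_{g(s-δ) < t} G -
∫_{g s < t} G) = lim (1/δ) ∫ ds ∫_{g(s-δ)}^{g s} G(s,t) dt` (oriented) `= lim ∫ ((g s - g(s-δ))/δ) G(s, g s) ds` (`|∫_{g(s-δ)}^{g s} (G(s,t) - G(s,g s)) dt| ≤ C δ²`, bounded support). So
`A = lim_{δ→0+} ∫ G(s,g s) ((g s - g(s-δ)) - i δ)/δ ds`. (3) Chord: `|(g s - g(s-δ)) - iδ| = |δ + i (g s - g(s-δ))| ≤ μH[1] (γ '' [s-δ, s])`, `γ s = s + g s I`: the projection to the direction of the chord is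
`1`-Lipschitz, its image of the arc is connected and contains both ends. (4) `‖A‖ ≤ lim (1/δ) ∫ ‖G(γ s)‖ μH[1](γ '' [s-δ,s]) ds = lim ∫_{x ∈ γ '' ℝ} (1/δ) ∫_{x.re}^{x.re+δ} ‖G(γ s)‖ ds dμH[1](x)` (Tonelli) and the
inner average tends to `‖G x‖` uniformly (`G ∘ γ` is uniformly continuous, compact support), `μH[1]` of a bounded piece of the graph is finite. -/
def S_DL : Prop := ∀ (g : ℝ → ℝ) (L : NNReal), LipschitzWith L g → ∀ G : ℂ → ℂ, ContDiff ℝ ∞ G → HasCompactSupport G →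
  ‖∫ z in {z : ℂ | g z.re < z.im}, dbar G z‖ ≤
    ∫ z in {z : ℂ | g z.re = z.im}, ‖G z‖ ∂(Measure.hausdorffMeasure 1)

/-- DV. Green's inequality on a Lipschitz domain. USES: DL.
PROOF. `Ω` is bounded, so we may multiply `G` by a cutoff function and assume compact support. Cover the frontier (compact) by finitely many open boxes
`B_i = {p + a (s + t I) | |s| < r, |t| < r}` of `LipschitzBoundary`; smooth `χ_i ≥ 0` with compact support in `B_i`, `∑ χ_i ≤ 1`, `= 1` near the frontier (`SmoothPartitionOfUnity` or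
`exists_contDiff...`), `χ := 1 - ∑ χ_i`. (1) `∫_Ω dbar (χ G) = 0`: `χ G 1_Ω` is smooth with compact support (`χ = 0` near the frontier); the integral of a directional derivative of a compactly supported `C¹`
function is `0`. (2) `G_i := χ_i G`, `G̃ ζ := G_i (p + a ζ)` has compact support in the box `|s|, |t| < r`; `dbar G̃ ζ = ā · dbar G_i (p + a ζ)` (`|a| = 1`), so `‖∫_Ω dbar G_i‖ = ‖∫_{g s < t} dbar G̃‖ ≤
∫_{graph} ‖G̃‖` (`DL`), and a point of the graph in the box corresponds to a point of the frontier of `Ω`; the map `ζ ↦ p + a ζ` is an isometry. (3) `∑_i ∫_{frontier} χ_i ‖G‖ ≤ ∫_{frontier} ‖G‖`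
(finite measure: `fm` in Helper45/Stek/FM). -/
def S_DV : Prop := ∀ Ω : Set ℂ, LipDomain Ω → ∀ G : ℂ → ℂ, ContDiff ℝ ∞ G →
  ‖∫ z in Ω, dbar G z‖ ≤ ∫ z in frontier Ω, ‖G z‖ ∂(Measure.hausdorffMeasure 1)

/-! ## Part C: the transfer to the disk -/

/-- EX. Smooth extension of `u ∘ φ ∘ Ψ_τ`. USES: PH.
PROOF. `W = {x | x + τ V x ∈ Ω}` is open and contains the compact set `closure Ω`; on `W` the function `u (φ (x + τ V x))` is smooth (`φ` is holomorphic on the open set `Ω`, hence real smooth there). Multiply by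
a smooth function that is `1` on `closure Ω` (or near it) and has compact support in `W` (`exists_contDiff_tsupport_subset`, `exists_smooth_one_nhds_of_subset_interior`), extended by `0`. -/
def S_EX : Prop := ∀ (p : ℕ) (Ω : Set ℂ) (f φ : ℂ → ℂ) (β : ℕ → ℂ) (V : ℂ → ℂ) (τ₀ : ℝ), 1 ≤ p → LipDomain Ω → Conf p Ω f φ β →
  VField Ω V τ₀ → ∀ τ : ℝ, 0 < τ → τ < τ₀ → ∀ u : ℂ → ℂ, ContDiff ℝ ∞ u →
  ∃ v : ℂ → ℂ, ContDiff ℝ ∞ v ∧ ∀ x ∈ closure Ω, v x = u (φ (x + τ * V x))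

/-- EE. The energy. USES: PH.
PROOF. `K := sup ‖fderiv V‖` (finite), `τ K ≤ 1/2`. On `Ω` (open): `v = U ∘ Ψ`, `U = u ∘ φ` on `Ω`, `D v(x) = D U(Ψ x) ∘ (1 + τ D V(x))`. For real linear maps `A, B` of the plane `‖A B 1‖² + ‖A B I‖² ≤ ‖B‖² (‖A 1‖² + ‖A I‖²)`
(Hilbert-Schmidt norm), so `e(v)(x) ≤ (1 + τK)² e(U)(Ψ x)`, `e(U) y = ‖fderiv U y 1‖² + ‖fderiv U y I‖²`. `Ψ` is injective (`τK < 1`), `det DΨ ≥ (1 - τK)²`; change of variables: `∫_Ω e(U)(Ψ x) ≤ (1 - τK)^(-2) ∫_{Ψ Ω} e(U) ≤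
(1 - τK)^(-2) ∫_Ω e(U)`, and `∫_Ω e(U) = energy (ball 0 1) u` (change of variables by `f`: `e(u)(z) = ‖f' z‖² e(U)(f z)`, `PH`). `(1 + x)²/(1 - x)² ≤ 1 + 16 x` for `0 ≤ x ≤ 1/2`. -/
def S_EE : Prop := ∀ (p : ℕ) (Ω : Set ℂ) (f φ : ℂ → ℂ) (β : ℕ → ℂ) (V : ℂ → ℂ) (τ₀ : ℝ), 1 ≤ p → LipDomain Ω → Conf p Ω f φ β →
  VField Ω V τ₀ → ∃ C τ₁ : ℝ, 0 ≤ C ∧ 0 < τ₁ ∧ τ₁ ≤ τ₀ ∧ ∀ τ : ℝ, 0 < τ → τ < τ₁ → ∀ u v : ℂ → ℂ, ContDiff ℝ ∞ u →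
  ContDiff ℝ ∞ v → (∀ x ∈ closure Ω, v x = u (φ (x + τ * V x))) →
  energy Ω v ≤ (1 + C * τ) * energy (ball 0 1) u

/-- GQ. Green's inequality, pulled back to the disk. USES: PH, EX, EE, DV.
PROOF. `v` from `EX` for `u := q`. `DV`: `‖∫_Ω dbar v‖ ≤ ∫_{frontier} ‖v‖`, `v = q ∘ φ ∘ Ψ_τ` on the frontier. On `Ω` let `U = q ∘ φ`. Chain rule: `dbar v (x) = dbar U (Ψ x) · conj (∂Ψ) + ∂U (Ψ x) · dbar Ψ`, where
`∂Ψ = 1 + τ ∂V`, `dbar Ψ = τ dbar V`; so `‖dbar v x - dbar U (Ψ x)‖ ≤ C τ ‖DU (Ψ x)‖` and `∫_Ω ‖DU (Ψ x)‖ dx` is bounded for `τ` small (Cauchy-Schwarz, the change of variables of `EE`, `∫_Ω ‖DU‖² ≤ 2 energy (ball 0 1) q`). `dbar U` is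
zero outside the compact set `f '' closedBall 0 ρ₂` (`dbar U (x) = dbar q (φ x) · conj (φ' x)`, as `φ` is holomorphic), so it extends by `0` to a continuous function `D` on the plane with compact support, and
`∫_Ω D (Ψ_τ x) dx → ∫_Ω D` (uniform continuity, `Ω` bounded). Finally `∫_Ω dbar U = ∫_{ball} |h|⁴ dbar U (f w) = ∫_{ball} dbar q (w) h(w)²` (`dbar q w = dbar U (f w) · conj (f' w)`, `|f'|² = f' conj f'`). -/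
def S_GQ : Prop := ∀ (p : ℕ) (Ω : Set ℂ) (f φ : ℂ → ℂ) (β : ℕ → ℂ) (V : ℂ → ℂ) (τ₀ : ℝ), 1 ≤ p → LipDomain Ω → Conf p Ω f φ β →
  VField Ω V τ₀ → ∀ (q : ℂ → ℂ) (ρ₂ : ℝ), ContDiff ℝ ∞ q → ρ₂ < 1 → (∀ w : ℂ, ρ₂ < ‖w‖ → ‖w‖ < 1 → dbar q w = 0) →
  ∀ ε : ℝ, 0 < ε → ∃ τ₁ : ℝ, 0 < τ₁ ∧ τ₁ ≤ τ₀ ∧ ∀ τ : ℝ, 0 < τ → τ < τ₁ →
  ‖∫ w in ball (0 : ℂ) 1, dbar q w * hfun p β w ^ 2‖ ≤
    (∫ x in frontier Ω, ‖q (φ (x + τ * V x))‖ ∂(Measure.hausdorffMeasure 1)) + ε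

/-- The holomorphic extension of the Poisson integral: for `|w| = 1` this is `(2π)⁻¹ ∫ Q P_ρ`. -/
noncomputable def ker (Q : ℝ → ℂ) (ρ : ℝ) (w : ℂ) : ℂ := (2 * Real.pi : ℂ)⁻¹ * ∫ θ in (-Real.pi)..Real.pi,
  Q θ * ((1 - ρ ^ 2) * w / ((w - ρ * exp (θ * I)) * (1 - ρ * exp (-(θ * I)) * w)))

/-- QI. The kernel identity.
PROOF. `K = ker Q ρ` is holomorphic in `ρ < |w| < 1/ρ`. `q w := η(w) K(w)/w` where `η` is smooth, radial: `η = η₀(|w|²)`, `η₀ = 0` near `[0, ρ²]` and for `|w|` near or above `1/ρ`, `η = 1` for `(1+ρ)/2 < |w| ≤ 1 + δ` (`δ` small). There `dbar q = 0`.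
`∫_{ball} dbar q · F = ∫_{ball} dbar η · (K/w) F`, `dbar η (w) = 2 η₀'(|w|²) w`; polar coordinates: `= ∫_0^1 2 η₀'(r²) r (∫_{-π}^{π} K(r e^{it}) F(r e^{it}) dt) dr`, and for `ρ < r < 1` the inner integral is
`B := ∫ Q(θ) F(ρ e^{iθ}) dθ`: by Fubini and, for fixed `θ`, `(2π)⁻¹ ∫ (1-ρ²) w F(w)/((w - ρ e^{iθ})(1 - ρ e^{-iθ} w)) dt = (2πi)⁻¹ ∮_{|w| = r} (1-ρ²) F(w)/((w - ρe^{iθ})(1 - ρ e^{-iθ} w)) dw = F(ρ e^{iθ})` (Cauchy's formula). The total is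
`B (η₀(1) - η₀(0)) = B`. -/
def S_QI : Prop := ∀ (ρ : ℝ) (Q : ℝ → ℂ), 0 < ρ → ρ < 1 → Continuous Q → ∃ q : ℂ → ℂ, ContDiff ℝ ∞ q ∧
  (∀ w : ℂ, (1 + ρ) / 2 < ‖w‖ → ‖w‖ ≤ 1 → q w = ker Q ρ w / w) ∧
  (∀ w : ℂ, (1 + ρ) / 2 < ‖w‖ → ‖w‖ < 1 → dbar q w = 0) ∧
  ∀ F : ℂ → ℂ, DifferentiableOn ℂ F (ball 0 1) →
    ∫ w in ball (0 : ℂ) 1, dbar q w * F w = ∫ θ in (-Real.pi)..Real.pi, Q θ * F (ρ * exp (θ * I))

/-- KP. The kernel is almost bounded by `g` near the circle.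
PROOF. `‖ker Q ρ w / w‖ ≤ Γ_ρ(w) := (2π)⁻¹ ∫ g(e^{iθ}) (1-ρ²)/(|w - ρ e^{iθ}| |1 - ρ e^{-iθ} w|) dθ`. For `|w| = 1` this is the Poisson integral of `g`, which is `≤ g w + ε/3` for all `|w| = 1` if `ρ` is close to `1` (uniform continuity of `g` on the circle; mass `1`
of the kernel, `|w - ρe^{iθ}| = |1 - ρ e^{-iθ} w|` for `|w| = 1`). `Γ_ρ` and `g` are uniformly continuous on `(1+ρ)/2 ≤ |w| ≤ 1`, so for `|w| > 1 - δ` compare `w` with `w/|w|`. `δ` does not depend on `Q`. -/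
def S_KP : Prop := ∀ g : ℂ → ℝ, Continuous g → (∀ w, 0 ≤ g w) → ∀ ε : ℝ, 0 < ε → ∃ ρ₀ : ℝ, 0 < ρ₀ ∧ ρ₀ < 1 ∧
  ∀ ρ : ℝ, ρ₀ < ρ → ρ < 1 → ∃ δ : ℝ, 0 < δ ∧ ∀ Q : ℝ → ℂ, Continuous Q → (∀ θ, ‖Q θ‖ ≤ g (exp (θ * I))) →
  ∀ w : ℂ, 1 - δ < ‖w‖ → ‖w‖ < 1 → ‖ker Q ρ w / w‖ ≤ g w + ε

/-- H2. `h` is in `H²`. USES: PH, GQ, QI, KP.
PROOF. `VF` gives `V`; here it is a hypothesis. `g = 1`, `ε = 1` in `KP`: `ρ₀`. For `ρ₀ < ρ < 1`: `F := h²`, `Q θ := conj (F (ρ e^{iθ}))/‖F (ρ e^{iθ})‖` is continuous (`nz`), `‖Q‖ = 1`; `q` of `QI`; `∫_{ball} dbar q F = ∫ ‖F(ρ e^{iθ})‖ dθ = ∫ ‖h(ρ e^{iθ})‖² = 2π ∑ ‖β_n‖² ρ^(2pn)`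
(Parseval), and `GQ` with `ρ₂ = (1+ρ)/2`, `ε = 1` and `PH` (5) (for small `τ` the points `φ(x + τ V x)` have `1 - δ < |.| < 1`, so `‖q‖ ≤ 2`) bound it by `2 μH[1](frontier Ω) + 1`, a bound that does not depend on `ρ`. Let `ρ → 1`. -/
def S_H2 : Prop := ∀ (p : ℕ) (Ω : Set ℂ) (f φ : ℂ → ℂ) (β : ℕ → ℂ) (V : ℂ → ℂ) (τ₀ : ℝ), 1 ≤ p → LipDomain Ω → Conf p Ω f φ β →
  VField Ω V τ₀ → Summable (fun n => ‖β n‖ ^ 2)

/-- BF. The boundary function exists.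
PROOF. The sequence `β_n` (`n ≥ 0`, `0` for `n < 0`) is in `ℓ²(ℤ)`; `fourierBasis.repr.symm` gives an `L²` function on the circle `AddCircle (2π)` with these Fourier coefficients; `H t` := a Borel measurable representative at the class of `t`. The Fourier
coefficients of `t ↦ hfun 1 β (ρ e^{it}) - H t` are `β_n (ρ^n - 1)`, so by Parseval the integral in `cv` is `2π ∑ ‖β_n‖² (1 - ρ^n)² → 0` (dominated convergence). -/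
def S_BF : Prop := ∀ β : ℕ → ℂ, Summable (fun n => ‖β n‖ ^ 2) → ∃ H : ℝ → ℂ, BdF β H

/-- MS. The mass inequality. USES: PH, GQ, QI, KP.
PROOF. `hfun p β (ρ e^{iθ}) = hfun 1 β (ρ^p e^{ipθ})`. By `cv` (and `∫_{-π}^{π} F(pθ) dθ = ∫_{-π}^{π} F`, `F` of period `2π`), `∫ g(e^{iθ}) ‖h(ρe^{iθ})‖² dθ → ∫ g(e^{iθ}) ‖H(pθ)‖² dθ` (`ρ → 1`; `g` bounded on the circle, `| |x|² - |y|² | ≤ |x-y| (|x|+|y|)`, Cauchy-Schwarz). Choose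
`ρ` (also `> ρ₀` of `KP` for `ε' = ε/(3 (L+1))`, `L = μH[1](frontier Ω)`). `Q θ := g(e^{iθ}) conj(h(ρe^{iθ}))/h(ρe^{iθ})`, continuous, `‖Q θ‖ = g(e^{iθ})`; with `F = h²`: `∫ Q F(ρe^{iθ}) = ∫ g ‖h(ρe^{iθ})‖²`. `QI` gives `q`, `GQ` (with `ε/3`) and `PH` (5), `KP`: for small `τ`,
`‖q(φ(Ψ_τ x))‖ ≤ g(φ(Ψ_τ x)) + ε'` on the frontier. -/
def S_MS : Prop := ∀ (p : ℕ) (Ω : Set ℂ) (f φ : ℂ → ℂ) (β : ℕ → ℂ) (V : ℂ → ℂ) (τ₀ : ℝ) (H : ℝ → ℂ), 1 ≤ p → LipDomain Ω →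
  Conf p Ω f φ β → VField Ω V τ₀ → BdF β H → ∀ g : ℂ → ℝ, Continuous g → (∀ w, 0 ≤ g w) → ∀ ε : ℝ, 0 < ε →
  ∃ τ₁ : ℝ, 0 < τ₁ ∧ τ₁ ≤ τ₀ ∧ ∀ τ : ℝ, 0 < τ → τ < τ₁ →
  ∫ θ in (-Real.pi)..Real.pi, g (exp (θ * I)) * ‖H (p * θ)‖ ^ 2 ≤
    (∫ x in frontier Ω, g (φ (x + τ * V x)) ∂(Measure.hausdorffMeasure 1)) + ε

/-- TT. The transfer. USES: PH, EX, EE, MS.
PROOF. `ε > 0`; we show `l + ε ∈ bounds k Ω` (then `csInf_le`). For small `τ` let `v_i` be the function of `EX` for `u_i`; for `c ∈ ℂ^(k+1)` the function `v_c = ∑ c_i v_i` is `u_c ∘ φ ∘ Ψ_τ` on `closure Ω`, so `energy Ω v_c ≤ (1 + Cτ) energy (ball 0 1) u_c` (`EE`), and `bdry Ω v_c = ∫_{frontier} ‖u_c(φ(Ψ_τ x))‖²`.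
Claim: for every `ε' > 0` there is `τ₁` with `mass u_c ≤ bdry Ω v_c + ε'` for all `τ < τ₁` and all `‖c‖ ≤ 1`: by `MS` (with `g = ‖u_c‖²`) for the finitely many `c` of a fine net, and both sides are Lipschitz in `c` on the unit ball uniformly in `τ` (the `u_i` are bounded on the closed disk, `μH[1](frontier Ω) < ∞`, `PH`(5)).
`c ↦ mass u_c` is continuous and positive on the unit sphere, so `≥ μ₀ > 0` there (compactness). For `‖c‖ = 1`, `ε' ≤ μ₀/2`: `bdry ≥ μ₀/2`, `energy ≤ (1 + Cτ) l mass ≤ (1+Cτ) l (1 + 2ε'/μ₀) bdry ≤ (l + ε) bdry` for `τ, ε'` small. Scale. -/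
def S_TT : Prop := ∀ (p : ℕ) (Ω : Set ℂ) (f φ : ℂ → ℂ) (β : ℕ → ℂ) (V : ℂ → ℂ) (τ₀ : ℝ) (H : ℝ → ℂ), 1 ≤ p → LipDomain Ω →
  Conf p Ω f φ β → VField Ω V τ₀ → BdF β H → ∀ (k : ℕ) (u : Fin (k + 1) → ℂ → ℂ) (l : ℝ), 0 ≤ l → (∀ i, ContDiff ℝ ∞ (u i)) →
  (∀ c : Fin (k + 1) → ℂ, c ≠ 0 → 0 < mass p H (fun z => ∑ i, c i * u i z) ∧
    energy (ball 0 1) (fun z => ∑ i, c i * u i z) ≤ l * mass p H (fun z => ∑ i, c i * u i z)) →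
  steklov k Ω ≤ l

/-! ## Part D: the disk -/

/-- HC. The centre.
PROOF. `μ := ‖H‖² dt` on `(-π, π)`, total mass `μ₀ > 0`, no atoms. `Φ(c) := ∫ log(|1 - c̄ e^{it}|²/(1 - |c|²)) dμ`, `|c| < 1`, is differentiable (under the integral), and with `w = e^{it}`: `∂/∂c̄ log(|1 - c̄w|²/(1-|c|²)) = -w/(1 - c̄w) + c/(1-|c|²) = -(w - c)/((1 - c̄w)(1-|c|²))`, so at a critical point
`∫ (w-c)/(1-c̄w) dμ = 0`. `Φ` is continuous and tends to `+∞` at the circle: given `ε > 0` there is `η > 0` such that every arc of length `≤ η` has mass `≤ ε` (absolute continuity of the integral); for `|c| ≥ 1/2` and `w` outside the arc of length `η` around `c/|c|`, `|1 - c̄w| ≥ κ(η) > 0`; everywhere `|1 - c̄w| ≥ 1 - |c|`; so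
`Φ ≥ μ₀ log(1/(1-|c|²)) - 2ε log(1/(1-|c|)) - C`, with `ε < μ₀/4` this tends to infinity. Hence `Φ` has a minimum in the open disk. -/
def S_HC : Prop := ∀ H : ℝ → ℂ, Measurable H → IntervalIntegrable (fun t => ‖H t‖ ^ 2) volume (-Real.pi) Real.pi →
  0 < ∫ t in (-Real.pi)..Real.pi, ‖H t‖ ^ 2 →
  ∃ c : ℂ, ‖c‖ < 1 ∧ ∫ t in (-Real.pi)..Real.pi, mob c (exp (t * I)) * ((‖H t‖ ^ 2 : ℝ) : ℂ) = 0

/-- SZ. The mean value inequality.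
PROOF. `w = e^{it}`. `1 - c̄ mob c w = 1 + |c|² - c̄ (1 - |c|²) ∑_{n≥1} c̄^(n-1) w^n`. From `cv`: `∫ w^n H(t) dt = 0` for `n ≥ 1`, `∫ H = 2π β_0` (true for `hfun 1 β (ρ w)` in place of `H` up to the limit `ρ → 1`). So `∫ (1 - c̄ mob c w) H dt = 2π (1+|c|²) β_0`. `|mob c w| = 1`, so `|1 - c̄ mob c w|² = 1 + |c|² - 2 Re(c̄ mob c w)`,
and `∫ |1 - c̄ mob c w|² ‖H‖² = (1+|c|²) ∫‖H‖² = (1+|c|²) 2π a`. Cauchy-Schwarz: `4π² (1+|c|²)² |β_0|² ≤ 2π · (1+|c|²) 2π a`. -/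
def S_SZ : Prop := ∀ (β : ℕ → ℂ) (H : ℝ → ℂ) (c : ℂ), Summable (fun n => ‖β n‖ ^ 2) → BdF β H → ‖c‖ < 1 →
  ∫ t in (-Real.pi)..Real.pi, mob c (exp (t * I)) * ((‖H t‖ ^ 2 : ℝ) : ℂ) = 0 →
  ‖β 0‖ ^ 2 * (1 + ‖c‖ ^ 2) ≤ ∑' n : ℕ, ‖β n‖ ^ 2

/-- AB. The area. USES: PH.
PROOF. `area Ω = ∫_{ball} ‖h‖⁴` (`PH` (4) or `lintegral_image_eq_lintegral_abs_det_fderiv_mul`). `h² = ∑ γ_n z^(pn)`, `γ_n = ∑_{i≤n} β_i β_(n-i)` (Cauchy product), Parseval on circles and polar coordinates: `area = π ∑ ‖γ_n‖²/(pn+1)` (all terms nonnegative, work with `∫⁻` or `r < 1`). `‖γ_n‖² ≤ (n+1) ∑_i ‖β_i‖² ‖β_(n-i)‖²`,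
`(n+1)/(pn+1) ≤ 2/(p+1)` for `n ≥ 1` (`(p-1)(n-1) ≥ 0`), `∑_{n≥0} ∑_{i≤n} ‖β_i‖²‖β_(n-i)‖² = a²`: `area/π ≤ ‖β_0‖⁴ + (2/(p+1)) (a² - ‖β_0‖⁴)`. -/
def S_AB : Prop := ∀ (p : ℕ) (Ω : Set ℂ) (f φ : ℂ → ℂ) (β : ℕ → ℂ), 1 ≤ p → IsOpen Ω → Conf p Ω f φ β →
  Summable (fun n => ‖β n‖ ^ 2) →
  area Ω ≤ Real.pi * ((2 * (∑' n : ℕ, ‖β n‖ ^ 2) ^ 2 + (p - 1) * ‖β 0‖ ^ 4) / (p + 1))

/-- The second function of sector `l` on the circle. -/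
noncomputable def vcirc (p : ℕ) (c : ℂ) (l : ℤ) (θ : ℝ) : ℂ :=
  exp (l * θ * I) * (if 0 ≤ l then starRingEnd ℂ (mob c (exp (p * θ * I))) else mob c (exp (p * θ * I)))

/-- BL. The second function.
PROOF. `0 ≤ l`: on the closed disk `v z = -c̄ z^l + (1-|c|²) z̄^(p-l)/(1 - c z̄^p)`; on the circle `z̄^(p-l)/(1 - c z̄^p) = z^l z̄^p/(1 - c z̄^p)` and `conj (mob c w) = (w̄ - c̄)/(1 - c w̄) = -c̄ + (1-|c|²) w̄/(1 - c w̄)`. `l < 0`: `v z = -c z̄^|l| + (1-|c|²) z^(p-|l|)/(1 - c̄ z^p)`. Multiply by a smooth cutoff that is `1` near the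
closed disk and `0` near the poles (`|z|^p = 1/|c| > 1`). Rotation: `ζ^p = 1`, `ζ̄ = ζ⁻¹`. Energy: for `G, K` holomorphic near the closed disk `energy (ball 0 1) (G + conj K) = 2 ∫ (|G'|² + |K'|²) = 2π ∑ n (|g_n|² + |k_n|²)`; for `α hf l + γ v`, `l ≥ 0`: the coefficient of `z^l` is `α - γ c̄` and those of `z̄^(pn-l)`, `n ≥ 1`, are
`γ (1-|c|²) c^(n-1)`; `∑_{n≥1} |c|^(2(n-1)) (pn - l) = p/(1-|c|²)² - l/(1-|c|²)` gives `(p - l(1-|c|²)) |γ|²`. For `l = 0` the coefficient of `z^0` does not count. -/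
def S_BL : Prop := ∀ (p : ℕ) (c : ℂ) (l : ℤ), 1 ≤ p → ‖c‖ < 1 → 2 * |l| ≤ p → ∃ v : ℂ → ℂ, ContDiff ℝ ∞ v ∧
  (∀ θ : ℝ, v (exp (θ * I)) = vcirc p c l θ) ∧
  (∀ ζ z : ℂ, ζ ^ p = 1 → z ∈ closedBall (0 : ℂ) 1 → v (ζ * z) = ζ ^ l * v z) ∧
  ∀ α γ : ℂ, energy (ball 0 1) (fun z => α * hf l z + γ * v z) = 2 * Real.pi *
    (|(l : ℝ)| * ‖α - γ * (if 0 ≤ l then starRingEnd ℂ c else c)‖ ^ 2 + (p - |(l : ℝ)| * (1 - ‖c‖ ^ 2)) * ‖γ‖ ^ 2)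

/-- SD. Different sectors are orthogonal.
PROOF. `ζ = e^{2πi/p}`. `energy (ball 0 1) (∑ U_l) = ∑_{l,k} ∫ Re ⟨∇U_l, ∇U_k⟩` (sesquilinear), and the rotation `z ↦ ζ z` of the ball multiplies `∫ ⟨∇U_l, ∇U_k⟩` by `ζ^(l-k) ≠ 1`, so the mixed terms vanish (`U_l` is smooth near the closed ball, all integrals exist; `fderiv (U_l ∘ (ζ·)) z v = fderiv U_l (ζz) (ζ v)`, and `∑_{v=1,I} D(ζv) conj(D'(ζv)) = ∑_{v = 1, I} D v conj(D' v)`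
for real linear `D, D'`). For `mass`: `e^{iθ} ↦ ζ e^{iθ}`, the shift by `2π/p` in `θ`; `‖H(pθ)‖²` is invariant (`per`) and the integrand has period `2π`. -/
def S_SD : Prop := ∀ (p : ℕ) (H : ℝ → ℂ) (F : Finset ℤ) (U : ℤ → ℂ → ℂ), 1 ≤ p → Measurable H → (∀ t, H (t + 2 * Real.pi) = H t) →
  IntervalIntegrable (fun t => ‖H t‖ ^ 2) volume (-Real.pi) Real.pi → (∀ l ∈ F, ContDiff ℝ ∞ (U l)) →
  (∀ l ∈ F, ∀ ζ z : ℂ, ζ ^ p = 1 → z ∈ closedBall (0 : ℂ) 1 → U l (ζ * z) = ζ ^ l * U l z) →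
  (∀ l ∈ F, ∀ k ∈ F, l ≠ k → ¬ ((p : ℤ) ∣ l - k)) →
  energy (ball 0 1) (fun z => ∑ l ∈ F, U l z) = ∑ l ∈ F, energy (ball 0 1) (U l) ∧
  mass p H (fun z => ∑ l ∈ F, U l z) = ∑ l ∈ F, mass p H (U l)

/-- MB. The mass of a block.
PROOF. On the circle `|hf l| = |v| = 1`, `hf l conj v = mob c (e^{ipθ})` (`l ≥ 0`) or its conjugate (`l < 0`), so the mixed term is `2 Re (α γ̄ ∫ mob c (e^{ipθ}) ‖H(pθ)‖² dθ) = 0` (resp. with the conjugate), by `∫_{-π}^{π} F(pθ) dθ = ∫_{-π}^{π} F(t) dt` for `F` of period `2π`. -/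
def S_MB : Prop := ∀ (p : ℕ) (H : ℝ → ℂ) (c : ℂ) (l : ℤ) (v : ℂ → ℂ), 1 ≤ p → Measurable H → (∀ t, H (t + 2 * Real.pi) = H t) →
  IntervalIntegrable (fun t => ‖H t‖ ^ 2) volume (-Real.pi) Real.pi → ‖c‖ < 1 →
  ∫ t in (-Real.pi)..Real.pi, mob c (exp (t * I)) * ((‖H t‖ ^ 2 : ℝ) : ℂ) = 0 → Continuous v →
  (∀ θ : ℝ, v (exp (θ * I)) = vcirc p c l θ) → ∀ α γ : ℂ,
  mass p H (fun z => α * hf l z + γ * v z) = (‖α‖ ^ 2 + ‖γ‖ ^ 2) * ∫ t in (-Real.pi)..Real.pi, ‖H t‖ ^ 2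

/-- The condition that the block with index `j` is fine at level `T` (`κ = |c|²`). -/
def Good (p κ T j : ℝ) : Prop := j ≤ T ∧ 0 ≤ T - p + j - 2 * j * κ ∧ j ^ 2 * κ ≤ (T - j) * (T - p + j - 2 * j * κ)

/-- BI. The block inequality.
PROOF. `j|α - γ c̄|² = j|α|² - 2j Re(α γ̄ c) + j|c|²|γ|²`. The right side minus the left side is `(T-j)|α|² + 2j Re(αγ̄c) + (T - p + j - 2jκ)|γ|² ≥ X|α|² - 2j|c||α||γ| + Y|γ|²` with `X, Y ≥ 0`, `j²|c|² ≤ XY`. -/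
def S_BI : Prop := ∀ (p T j : ℝ) (c' α γ : ℂ), 0 ≤ j → Good p (‖c'‖ ^ 2) T j →
  j * ‖α - γ * c'‖ ^ 2 + (p - j * (1 - ‖c'‖ ^ 2)) * ‖γ‖ ^ 2 ≤ T * (‖α‖ ^ 2 + ‖γ‖ ^ 2)

/-- NU. The numbers. `T = m/r`.
PROOF. `u := 1 + κ`, `X := T/p`, `μ := m/p`. `(T/m)² = 1/r² ≥ (p+1)u²/(2u² + p - 1)`; in particular `T ≥ m` (`2u² + p - 1 ≥ ...`: from `r² (p+1) ≤ 2 + (p-1) = p+1`, `r ≤ 1`).
`g(j) := (T-j)(T-p+j-2jκ) - j²κ` is concave in `j` (coefficient of `j²`: `κ - 1 < 0`), `T - p + j(1-2κ)` is affine and `T - j` is fine (`j ≤ p/2 ≤ m ≤ T`); so if `Good` holds at two points `j₁ ≤ j₂ ≤ p/2` it holds between them.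
(a) CASE `κ ≤ 1/3`, `p ≥ 20`: `T ≥ m (1 + 17κ/20)`: `(p+1)(1+κ)² ≥ (1+17κ/20)² (2(1+κ)²+p-1)` (the difference is increasing in `p`, at `p = 20` a polynomial in `κ ∈ [0,1/3]`).
 (a1) `m < p`, `d := p - m ≥ 1`, `3p + 3 ≤ 4m`, i.e. `m ≥ 3d + 3`: `Good` at `j = d`: `T - p + d - 2dκ = T - m - 2dκ ≥ (17m/20 - 2d)κ ≥ 0`, `(T-d)(T-m-2dκ) ≥ (m-d)(17m/20-2d)κ ≥ (2d+3)(11d/20 + 51/20) κ ≥ d²κ`.
 (a2) `m < p`: `Good` at `p/2`: `X ≥ (3/4) u`: `X² ≥ μ²(p+1)u²/(2u²+p-1)`, `μ ≥ (3/4)(1+1/p)`, `(p+1)³/p² - (p-1) = 4 + 3/p + 1/p² + ... ≥ 4 ≥ 2u²` (`u² ≤ 16/9`), so `μ²(p+1) ≥ (9/16)(2u²+p-1)`. Then `X - 1/2 - κ ≥ (1-κ)/4`, `X - 1/2 ≥ (1+3κ)/4`, product `≥ (1+3κ)(1-κ)/16 ≥ κ/4` iff `(1-3κ)(1+κ) ≥ 0`.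
     So `J = {l | d ≤ |l|, -p < 2l ≤ p}` (`2m - p + 1` elements).
 (a3) `m = p`: `Good` at `0` (`T ≥ p`) and at `p/2`: `X ≥ 1 + 17κ/20`, `(1/2 + 17κ/20)(1/2 - 3κ/20) ≥ κ/4`. `J` = all `l` with `-p < 2l ≤ p`.
(b) CASE `1/3 ≤ κ < 1`, `p ≥ 23`: `T ≥ m t`, `t := 1.04 + 0.74κ`: `(p+1)u² ≥ t²(2u²+p-1)` (increasing in `p` as `u ≥ t`; `p = 23`: polynomial in `κ ∈ [1/3,1]`).
 (b1) `m < p`: `Good` at `0`: `T ≥ p`: `X² ≥ μ²(p+1)/(2 + (p-1)/u²)`, `1/u² ≤ 9/16`, `μ²(p+1) ≥ (9/16)(p+1)³/p² ≥ 2 + (9/16)(p-1)`. `Good` at `J' := (2m-p+1)/2`: `m/3 + 1 ≤ J' ≤ m/2`, `p = 2m - 2J' + 1`; `G(J') := (mt - J')(mt - 2m + 3J' - 1 - 2J'κ) - J'²κ` is concave in `J'`; at `J' = m/2` it is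
     `m²((t-1/2)(t-1/2-κ) - κ/4) - m(t - 1/2) ≥ m²/10 - (13/10) m ≥ 0`; at `J' = m/3+1` it is `(m(t-1/3) - 1)(m(t-1-2κ/3) + 2 - 2κ) - (m/3+1)²κ ≥ 0` for `m ≥ 23`. (Both factors are increasing in `T`, so `T ≥ mt` suffices once the second factor is `≥ 0`, which follows from `G(J') ≥ 0` and `mt > J'`.) `J = {l | |l| ≤ (2m-p+1)/2}`
     (natural division), at least `2m-p+1` elements.
 (b2) `m = p`: `Good` at `0` and at `p/2`: `X ≥ t`, `(t-1/2)(t-1/2-κ) ≥ κ/4`. -/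
def S_NU : Prop := ∀ (m p k : ℕ) (κ r : ℝ), 23 ≤ m → (p = m ∧ k + 1 = 2 * m ∨ m < p ∧ 3 * p + 3 ≤ 4 * m ∧ k ≤ 2 * m) → 0 ≤ κ → κ < 1 →
  0 < r → r ^ 2 * (p + 1) ≤ 2 + (p - 1) / (1 + κ) ^ 2 →
  ∃ J : Finset ℤ, (∀ l ∈ J, -(p : ℤ) < 2 * l ∧ 2 * l ≤ p) ∧ k + 1 - p ≤ J.card ∧ ∀ l ∈ J, Good p κ (m / r) |(l : ℝ)|

/-- UB. The upper bound at the origin. USES: VF, H2, BF, TT, HC, SZ, AB, BL, SD, MB, BI, NU.
PROOF. `V` (VF), `Summable ‖β‖²` (H2), `H` (BF), `a := ∑ ‖β_n‖² > 0` (`β_0 = h(0) ≠ 0`), `c` (HC), `R := √(area Ω/π) > 0`, `r := R/a`. SZ: `‖β_0‖² ≤ a/(1+κ)`, `κ = ‖c‖²`; AB: `r² (p+1) ≤ 2 + (p-1)/(1+κ)²`. NU gives `J`; `Λ := {l | -p < 2l ≤ p}` (`p` elements). The functions `hf l` (`l ∈ Λ`) and `v_l` (`l ∈ J ⊆ Λ`, from BL) are at least `k + 1`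
in number: choose `k + 1` of them as `u`. A combination is `∑_{l∈Λ} (α_l hf l + γ_l v_l)` with `γ_l = 0` for `l ∉ J`; `hf l (ζz) = ζ^l hf l z` for `ζ^p = 1`. SD, MB, BL: `mass = 2πa ∑ (|α_l|² + |γ_l|²)` (`tot`), `energy = 2π ∑ (...)`, and with `T := m/r`, `l := m/R = T/a`: `energy ≤ 2πT ∑(|α_l|²+|γ_l|²) = (m/R) mass` by BI (for `l ∉ J`: `|l| |α_l|² ≤ T|α_l|²`, `|l| ≤ p/2 ≤ m ≤ T`).
TT: `steklov k Ω ≤ m/R = m √π/√area`. -/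
def S_UB : Prop := ∀ (m p k : ℕ) (Ω : Set ℂ) (f φ : ℂ → ℂ) (β : ℕ → ℂ), 23 ≤ m →
  (p = m ∧ k + 1 = 2 * m ∨ m < p ∧ 3 * p + 3 ≤ 4 * m ∧ k ≤ 2 * m) → LipDomain Ω → Conf p Ω f φ β →
  steklov k Ω * √(area Ω) ≤ m * √Real.pi

/-- FIN. The theorem. USES: CF, UB.
PROOF. `m := (k+1)/2`. `k = 2m` or `k = 2m - 1`; in the second case `p = m` or `p > m`. `Ω' = Ω - c` (`TR` of Helper45/Stek: `LipDomain`, area, `bounds k Ω' ⊆ bounds k Ω`; `NE`: `bounds k Ω'` is nonempty, so `steklov k Ω ≤ steklov k Ω'`). (2): `final` of Helper45/Stek/Final. (3): let `w` be a rotation of a maximiser; by `final` `w^n = 1` for some `1 ≤ n ≤ k`; `p := orderOf w ≤ k`;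
`p = 1` or `p ≥ 2`; if `k < 2p` and `3p + 3 ≤ 2k` then (1) contradicts `final` (flower). -/
def S_FIN : Prop := ∀ k : ℕ, 45 ≤ k →
  (∀ (Ω : Set ℂ) (p : ℕ) (c w : ℂ), LipDomain Ω → ConfDisk Ω → k < 2 * p → 3 * p + 3 ≤ 2 * k → IsPrimitiveRoot w p →
    rot c w '' Ω = Ω → steklov k Ω * √(area Ω) ≤ ((k + 1) / 2 : ℕ) * √Real.pi) ∧
  steklov k (ball 0 1) * √(area (ball 0 1)) = ((k + 1) / 2 : ℕ) * √Real.pi ∧
  ∀ Ω : Set ℂ, IsMaximiser k Ω → ConfDisk Ω → ∀ c w : ℂ, ‖w‖ = 1 → rot c w '' Ω = Ω →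
    ∃ p : ℕ, 1 ≤ p ∧ IsPrimitiveRoot w p ∧ (2 * p ≤ k ∨ 2 * k < 3 * p + 3 ∧ p ≤ k)

end Pool.Agent.Helper69.ST
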