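import Pool.Agent.Helper69.ST.Goals

/-!
# ST, second part: domains of any connectivity (MP_438009_an), goals

`Ω` a Lipschitz domain, `fill Ω` the domain with the holes filled. `fill Ω` is a Lipschitz domain with connected complement, so it is the
image of the unit disk under an injective holomorphic map (Riemann's theorem, proved here through Runge's theorem), and the value of
`fill Ω` is at least that of `Ω`. Every packet is a `Prop`; prove `theorem t : S_XX` (from the hypotheses listed as USES, as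
arguments `(h : S_YY)`) in a file of your own. If a statement is false as it stands, mail helper69 at once.
-/

open MeasureTheory Set Complex Metric Filter
open scoped ContDiff Topology ENNReal

namespace Pool.Agent.Helper69.ST

open Pool.Agent.Helper45.Stek

/-- The points outside the closure of `Ω` whose component there is unbounded. -/
def outerC (Ω : Set ℂ) : Set ℂ :=
  {z | z ∈ (closure Ω)ᶜ ∧ ¬ Bornology.IsBounded (connectedComponentIn (closure Ω)ᶜ z)}

/-- `Ω` with its holes filled. -/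
def fill (Ω : Set ℂ) : Set ℂ := (closure (outerC Ω))ᶜ

/-- A box with centre `p`. -/
def Box (p a : ℂ) (ρ r : ℝ) : Set ℂ := {z | ∃ s t : ℝ, |s| < ρ ∧ |t| < r ∧ z = p + a * (s + t * I)}

/-! ## Topology -/

/-- OC. The outer component.
PROOF. `closure Ω` is in `closedBall 0 R`. `{z | R < ‖z‖}` is connected (e.g. the image of `Ioi R ×ˢ univ` under `(r, θ) ↦ r e^{iθ}`, a convex set) and unbounded, so it is in
one component `C₀` of `(closure Ω)ᶜ`; an unbounded component meets it, so it is `C₀`. Hence `outerC Ω = C₀`, a component of an open set. (e): a preconnected subset of `(closure Ω)ᶜ` that meets the component `C₀` is in it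
(`IsPreconnected.subset_connectedComponentIn`). -/
def S_OC : Prop := ∀ Ω : Set ℂ, Bornology.IsBounded Ω → IsOpen (outerC Ω) ∧ IsConnected (outerC Ω) ∧
  (∀ z ∈ outerC Ω, z ∉ closure Ω) ∧ (∃ R : ℝ, ∀ z : ℂ, R < ‖z‖ → z ∈ outerC Ω) ∧
  ∀ C : Set ℂ, IsPreconnected C → (C ∩ outerC Ω).Nonempty → C ⊆ (closure Ω)ᶜ → C ⊆ outerC Ω

/-- LC. A Lipschitz domain near a boundary point.
PROOF. `a, r₀, L, g` of `LipschitzBoundary`. `p` is in the closure of `Ω`, not in `Ω`: `g 0 = 0`. Take `r ≤ r₀, ε` (`r > 0`), `0 < ρ ≤ r`, `L ρ < r`; then `|g s| < r` for `|s| < ρ`. `Box` is open (the preimage of an open rectangle under `z ↦ (z - p)/a`). For `|s| < ρ`, `|t| < r`: if `t < g s` all points near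
`z = p + a (s + t I)` are outside `Ω`, so `z` is not in the closure of `Ω`; if `g s ≤ t` the points `p + a (s + t' I)`, `t < t'`, are in `Ω`. Therefore `Box \ closure Ω = {t < g s}` (in coordinates), its closure contains the points of the box with `t ≤ g s` and no others of the box.
It is preconnected: the image of the convex set `{(s, v) | |s| < ρ, 0 < v < 1}` under the continuous map `(s, v) ↦ p + a (s + (-r + v (g s + r)) I)`. -/
def S_LC : Prop := ∀ Ω : Set ℂ, LipDomain Ω → ∀ p ∈ frontier Ω, ∀ ε : ℝ, 0 < ε → ∃ (a : ℂ) (ρ r : ℝ) (L : NNReal) (g : ℝ → ℝ),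
  ‖a‖ = 1 ∧ 0 < ρ ∧ ρ ≤ r ∧ r ≤ ε ∧ LipschitzWith L g ∧ IsOpen (Box p a ρ r) ∧ p ∈ Box p a ρ r ∧
  (∀ s t : ℝ, |s| < ρ → |t| < r → (p + a * (s + t * I) ∈ Ω ↔ g s < t) ∧ (p + a * (s + t * I) ∈ closure Ω ↔ g s ≤ t) ∧
    (p + a * (s + t * I) ∈ closure (Box p a ρ r \ closure Ω) ↔ t ≤ g s)) ∧
  IsPreconnected (Box p a ρ r \ closure Ω)

/-- FA. First properties of the filled domain. USES: OC.
PROOF. `(fill Ω)ᶜ = closure (outerC Ω)` is the closure of a connected set. `Ω` is open and disjoint from `outerC Ω`, so disjoint from its closure. `frontier (outerC Ω) ⊆ frontier Ω`: let `p` be in it; `p ∉ outerC Ω` (open), and if `p ∉ closure Ω` a ball `B` around `p` is in `(closure Ω)ᶜ` and meets `outerC Ω`,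
so `B ⊆ outerC Ω`, contradiction; `p ∉ Ω` as `Ω` is open and disjoint from `outerC Ω`. `frontier (fill Ω) = frontier (closure (outerC Ω)) ⊆ frontier (outerC Ω)`. -/
def S_FA : Prop := ∀ Ω : Set ℂ, IsOpen Ω → Bornology.IsBounded Ω → IsOpen (fill Ω) ∧ Bornology.IsBounded (fill Ω) ∧ Ω ⊆ fill Ω ∧
  IsPreconnected (fill Ω)ᶜ ∧ (∀ z ∈ fill Ω, z ∉ outerC Ω) ∧ frontier (fill Ω) ⊆ frontier (outerC Ω) ∧ frontier (outerC Ω) ⊆ frontier Ω

/-- FB. The filled domain has a Lipschitz boundary. USES: OC, FA, LC.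
PROOF. Let `p` be in `frontier (fill Ω)`, so in the closure of `outerC Ω` and in `frontier Ω`; `N := Box` of `LC`. `N` is a neighbourhood of `p`, so `N` meets `outerC Ω`, in a point of `N \ closure Ω` (`OC`); `N \ closure Ω` is preconnected: `N \ closure Ω ⊆ outerC Ω` (`OC` (e)), so `N ∩ outerC Ω = N \ closure Ω`. `N` is open: for `z ∈ N`,
`z ∈ closure (outerC Ω)` iff `z ∈ closure (N ∩ outerC Ω)` iff (in coordinates) `t ≤ g s`. So `z ∈ fill Ω` iff `g s < t`: the same `a`, `g` and the radius `ρ`. -/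
def S_FB : Prop := ∀ Ω : Set ℂ, LipDomain Ω → LipschitzBoundary (fill Ω)

/-- FC. The filled domain is connected. USES: OC, FA, LC.
PROOF. Every `x ∈ fill Ω` is in a connected subset of `fill Ω` that meets `Ω` (then `isPreconnected_of_forall` with the connected set `Ω`). If `x ∈ closure Ω`: a ball around `x` in the open set `fill Ω`. Otherwise let `W` be the component of `x` in `(closure Ω)ᶜ`, an open set. `x ∉ outerC Ω`, so `W` is disjoint from `outerC Ω` (`OC` (e)), hence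
(open) from its closure: `W ⊆ fill Ω`; `W` is not everything, so it has a frontier point `p`; `p ∈ closure Ω` (otherwise a ball around `p` in `(closure Ω)ᶜ` meets `W`, so it is in `W`), `p ∉ Ω` (`Ω` is open and disjoint from `W`): `p ∈ frontier Ω`. `N := Box` of `LC` at `p`: `N \ closure Ω` is preconnected and meets `W`, so it
is in `W`, disjoint from `outerC Ω`; `outerC Ω` is disjoint from `closure Ω`, so `N ∩ outerC Ω = ∅`, `p ∈ fill Ω`. A ball `B ⊆ fill Ω` around `p` meets `W` and `Ω`; take `W ∪ B`. -/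
def S_FC : Prop := ∀ Ω : Set ℂ, LipDomain Ω → IsConnected (fill Ω)

/-- FR. Symmetry.
PROOF. `rot c w` is a homeomorphism and an isometry; it maps components of `(closure Ω)ᶜ` to components of `(closure Ω)ᶜ`. -/
def S_FR : Prop := ∀ (Ω : Set ℂ) (c w : ℂ), ‖w‖ = 1 → rot c w '' Ω = Ω → rot c w '' fill Ω = fill Ω

/-- FS. Monotonicity.
PROOF. For a smooth `u`, `bdry Ω' u ≤ bdry Ω u` (`frontier Ω' ⊆ frontier Ω`, finite measure: `fm` of Helper45/Stek/FM) and `energy Ω u ≤ energy Ω' u` (`Ω'` bounded). -/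
def S_FS : Prop := ∀ (k : ℕ) (Ω Ω' : Set ℂ), LipDomain Ω → LipDomain Ω' → Ω ⊆ Ω' → frontier Ω' ⊆ frontier Ω →
  bounds k Ω' ⊆ bounds k Ω ∧ area Ω ≤ area Ω'

/-! ## Runge's theorem -/

/-- PP. Pushing poles.
PROOF. In the Banach algebra `C(K, ℂ)` let `A` be the topological closure of `polynomialFunctions K` (a closed subalgebra), `q ζ := (z ↦ (ζ - z)⁻¹)` for `ζ ∉ K`. `T := {ζ ∈ Kᶜ | q ζ ∈ A}`. (1) `ζ ∈ T` for `‖ζ‖` large: `q ζ = ζ⁻¹ ∑ (z/ζ)^n` uniformly on `K`. (2) `T` is open: `q ζ' = q ζ ∑ (ζ - ζ')^n (q ζ)^n` if `‖ζ' - ζ‖ ‖q ζ‖ < 1`.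
(3) `T` is closed in `Kᶜ`: `q` is continuous on `Kᶜ` (or: by (2), if `ζ_n → ζ ∉ K` then `‖ζ - ζ_n‖ ‖q ζ_n‖ < 1` for large `n`). `Kᶜ` is preconnected, so `T = Kᶜ` (`IsPreconnected.subset_of_closure_inter_subset` or similar). -/
def S_PP : Prop := ∀ K : Set ℂ, IsCompact K → IsPreconnected Kᶜ → ∀ ζ ∉ K, ∀ ε : ℝ, 0 < ε →
  ∃ P : Polynomial ℂ, ∀ z ∈ K, ‖(ζ - z)⁻¹ - P.eval z‖ < ε

/-- RU. Runge's theorem. USES: PP.
PROOF. `χ` smooth with compact support in `U`, `χ = 1` near `K`. `χ F` is smooth with compact support; Cauchy-Pompeiu (`Pool.Agent.Helper54.BA` file CT: `pompeiu`): for `z ∈ K`, `F z = (2π)⁻¹ ∫ D(ζ) (z - ζ)⁻¹ dA(ζ)`, `D := dbar (χ F)`, continuous, with compact support `S` disjoint from `K`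
(`χ F` is holomorphic near `K`). Either: Riemann sums (for `z ∈ K`, `ζ ∈ S` the kernel is uniformly continuous): divide a square that contains `S` into small squares. Or: in `C(K, ℂ)`, `A` the closure of `polynomialFunctions K`; `ζ ↦ D ζ • q ζ` is continuous with compact support and values in the
complete space `A` (`PP`), so its Bochner integral is in `A`. -/
def S_RU : Prop := ∀ (K U : Set ℂ) (F : ℂ → ℂ), IsCompact K → IsPreconnected Kᶜ → IsOpen U → K ⊆ U → DifferentiableOn ℂ F U →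
  ∀ ε : ℝ, 0 < ε → ∃ P : Polynomial ℂ, ∀ z ∈ K, ‖F z - P.eval z‖ < ε

/-- HU. Hulls.
PROOF. `K ⊆ closedBall 0 R`, `U ⊆ closedBall 0 R`. `E := {z | R < ‖z‖}` is connected (see `OC`). Let `C₀` be the component of `Kᶜ` that contains `E`, `K' := C₀ᶜ`: closed (`C₀` is open), bounded, `K ⊆ K'`, and `K'ᶜ = C₀` is connected. `Uᶜ` is preconnected, contains `E`, and is in `Kᶜ`, so it is in `C₀`: `K' ⊆ U`. -/
def S_HU : Prop := ∀ U : Set ℂ, IsOpen U → Bornology.IsBounded U → IsPreconnected Uᶜ → ∀ K ⊆ U, IsCompact K →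
  ∃ K' : Set ℂ, IsCompact K' ∧ K ⊆ K' ∧ K' ⊆ U ∧ IsPreconnected K'ᶜ

/-- PR. Primitives. USES: RU, HU.
PROOF. `K_n := {z ∈ U | 1/(n+1) ≤ infDist z Uᶜ}` compact (`U ≠ univ`), `K_n'` its hull, `P_n` a polynomial with `‖F - P_n‖ < 1/(n+1)` on `K_n'`: `P_n → F` locally uniformly on `U`. `Q_n` the primitive of `P_n` with `Q_n z₀ = 0`. The set of `x ∈ U` for which `Q_n x` converges is open and closed in `U`: for a closed ball `B ⊆ U`,
`x, y ∈ B`: `‖(Q_n - Q_m) x - (Q_n - Q_m) y‖ ≤ sup_B ‖P_n - P_m‖ ‖x - y‖`. So it is `U`; `G := lim Q_n`; `hasDerivAt_of_tendstoLocallyUniformlyOn`. -/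
def S_PR : Prop := ∀ U : Set ℂ, IsOpen U → Bornology.IsBounded U → IsConnected U → IsPreconnected Uᶜ → ∀ F : ℂ → ℂ,
  DifferentiableOn ℂ F U → ∃ G : ℂ → ℂ, ∀ z ∈ U, HasDerivAt G (F z) z

/-- `U` has square roots: every holomorphic function without zeros has one. -/
def SqrtProp (U : Set ℂ) : Prop := ∀ g : ℂ → ℂ, DifferentiableOn ℂ g U → (∀ z ∈ U, g z ≠ 0) →
  ∃ s : ℂ → ℂ, DifferentiableOn ℂ s U ∧ ∀ z ∈ U, s z ^ 2 = g z

/-- SQ. Square roots. USES: PR.
PROOF. `G' = g'/g` on `U`; `g exp(-G)` has derivative zero on `U`, so it is a constant `c ≠ 0`; `s := exp ((G + log c)/2)`. -/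
def S_SQ : Prop := ∀ U : Set ℂ, IsOpen U → Bornology.IsBounded U → IsConnected U → IsPreconnected Uᶜ → SqrtProp U

/-! ## Riemann's theorem -/

/-- MT. Montel's theorem (one variable, bounded by `1`).
PROOF. Locally uniformly Lipschitz by Cauchy's estimates; a diagonal sequence converges on a countable dense subset of `U`, hence locally uniformly. Several variables: `montel` in Helper27/Lin/Montel.lean (its lemmas may be copied). -/
def S_MT : Prop := ∀ (U : Set ℂ) (f : ℕ → ℂ → ℂ), IsOpen U → (∀ n, DifferentiableOn ℂ (f n) U) → (∀ n, ∀ z ∈ U, ‖f n z‖ ≤ 1) →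
  ∃ (φ : ℕ → ℕ) (g : ℂ → ℂ), StrictMono φ ∧ DifferentiableOn ℂ g U ∧ TendstoLocallyUniformlyOn (fun n => f (φ n)) g atTop U

/-- HW. Hurwitz's theorem.
PROOF. Let `g` be not constant on `U`, `a ≠ b` in `U`, `g a = g b`. `h z := g z - g a` is holomorphic, not identically zero on the connected set `U`, so `b` is an isolated zero: there is a closed disk `B ⊆ U` around `b` without `a` and `|h| ≥ ε > 0` on its boundary circle. `h_n z := f_n z - f_n a` has no zero in `B` (`f_n` injective) and tends to `h`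
uniformly on `B`, so `|h_n| ≥ ε/2` on the circle for large `n`; the maximum principle for `1/h_n` gives `|h_n b| ≥ ε/2`, in the limit `|h b| ≥ ε/2`, contradiction. -/
def S_HW : Prop := ∀ (U : Set ℂ) (f : ℕ → ℂ → ℂ) (g : ℂ → ℂ), IsOpen U → IsConnected U → (∀ n, DifferentiableOn ℂ (f n) U) →
  (∀ n, InjOn (f n) U) → TendstoLocallyUniformlyOn f g atTop U → (∃ c : ℂ, ∀ z ∈ U, g z = c) ∨ InjOn g U

/-- `h` maps `U` injectively into the unit disk, `z₀` to `0`. -/
structure Fam (U : Set ℂ) (z₀ : ℂ) (h : ℂ → ℂ) : Prop where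
  diff : DifferentiableOn ℂ h U
  inj : InjOn h U
  maps : MapsTo h U (ball 0 1)
  zero : h z₀ = 0

/-- XT. The extremal function. USES: MT, HW.
PROOF. The family is not empty (`(z - z₀)/(2R)`, `U ⊆ ball 0 R`), with derivative `1/(2R) ≠ 0` at `z₀`; the derivatives at `z₀` are bounded (Cauchy's estimate). Take a sequence with `‖h_n' z₀‖` tending to the supremum `> 0`, `MT`: a subsequence tends to `g` locally uniformly, the derivatives at `z₀` too
(`TendstoLocallyUniformlyOn.deriv`), `g' z₀ ≠ 0`, so `g` is not constant near `z₀`; `HW`: injective; `‖g‖ ≤ 1` on `U` and `< 1` by the open mapping theorem (or the maximum principle). -/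
def S_XT : Prop := ∀ (U : Set ℂ) (z₀ : ℂ), IsOpen U → Bornology.IsBounded U → IsConnected U → z₀ ∈ U →
  ∃ f : ℂ → ℂ, Fam U z₀ f ∧ deriv f z₀ ≠ 0 ∧ ∀ h : ℂ → ℂ, Fam U z₀ h → ‖deriv h z₀‖ ≤ ‖deriv f z₀‖

/-- ON. The square root trick.
PROOF. `ψ := mob a ∘ f` (`mob a w = (w - a)/(1 - ā w)`, maps the disk injectively to itself) has no zero on `U`; `s` a square root of `ψ`, injective, with values in the disk; `b := s z₀`, `b² = -a`, `b ≠ 0`; `h := mob b ∘ s`. `mob b' (b) = 1/(1 - |b|²)`, `mob a' (0) = 1 - |a|²`: `h' z₀ = (1/(1-|b|²)) (1/(2b)) (1 - |b|⁴) f' z₀`,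
`|h' z₀| = ((1 + |b|²)/(2|b|)) |f' z₀| > |f' z₀|` as `|b| < 1`. -/
def S_ON : Prop := ∀ (U : Set ℂ) (z₀ a : ℂ) (f : ℂ → ℂ), IsOpen U → z₀ ∈ U → SqrtProp U → Fam U z₀ f → deriv f z₀ ≠ 0 → ‖a‖ < 1 →
  a ∉ f '' U → ∃ h : ℂ → ℂ, Fam U z₀ h ∧ ‖deriv f z₀‖ < ‖deriv h z₀‖

/-- RM. Riemann's theorem. USES: XT, ON.
PROOF. `f` of `XT` maps `U` onto the disk (`ON`); its inverse (`invFunOn`) is differentiable on the disk: `f` is injective, so an open map with nonzero derivative (`f' ≠ 0` for injective holomorphic `f`: see the team's packets CA and PH or Mathlib; `HasDerivAt` of the inverse: `HasStrictDerivAt.to_localInverse`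
or `HasDerivAt.of_local_left_inverse`). -/
def S_RM : Prop := ∀ U : Set ℂ, IsOpen U → Bornology.IsBounded U → IsConnected U → SqrtProp U → ConfDisk U

/-! ## The theorem -/

/-- FL. The filled domain. USES: OC, FA, FB, FC, FR, FS, SQ, RM. -/
def S_FL : Prop := ∀ Ω : Set ℂ, LipDomain Ω → LipDomain (fill Ω) ∧ ConfDisk (fill Ω) ∧ (∀ k, bounds k (fill Ω) ⊆ bounds k Ω) ∧
  area Ω ≤ area (fill Ω) ∧ ∀ c w : ℂ, ‖w‖ = 1 → rot c w '' Ω = Ω → rot c w '' fill Ω = fill Ω

/-- FINR. The theorem for domains of any connectivity. USES: FL, FIN. -/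
def S_FINR : Prop := ∀ k : ℕ, 45 ≤ k →
  (∀ (Ω : Set ℂ) (p : ℕ) (c w : ℂ), LipDomain Ω → k < 2 * p → 3 * p + 3 ≤ 2 * k → IsPrimitiveRoot w p →
    rot c w '' Ω = Ω → steklov k Ω * √(area Ω) ≤ ((k + 1) / 2 : ℕ) * √Real.pi) ∧
  steklov k (ball 0 1) * √(area (ball 0 1)) = ((k + 1) / 2 : ℕ) * √Real.pi ∧
  ∀ Ω : Set ℂ, IsMaximiser k Ω → ∀ c w : ℂ, ‖w‖ = 1 → rot c w '' Ω = Ω →
    ∃ p : ℕ, 1 ≤ p ∧ IsPrimitiveRoot w p ∧ (2 * p ≤ k ∨ 2 * k < 3 * p + 3 ∧ p ≤ k)

end Pool.Agent.Helper69.ST
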