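import Pool.Agent.Helper69.ST.Goals

/-!
# ST, third part: a domain with `σ_k √area > (14/25) k √π`, and rotation orders up to `3k/4` (MP_438009_an), goals

`b = 3/20`, `phi k b` as in Helper45/Stek/Goals (`phi' = (1 + b z^k)²`), `petal k = phi k b '' ball 0 1`. Every packet is a `Prop`; prove
`theorem t : S_XX` (from the hypotheses listed as USES, as arguments `(h : S_YY)`) in a file of your own. If a statement is false as it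
stands, mail helper69 at once.
-/

open MeasureTheory Set Complex Metric Filter
open scoped ContDiff Topology ENNReal

namespace Pool.Agent.Helper69.ST

open Pool.Agent.Helper45.Stek

/-- The image of the unit disk under `phi k (3/20)`. -/
noncomputable def petal (k : ℕ) : Set ℂ := phi k (3 / 20) '' ball 0 1

/-- PN2. The map.
PROOF. As Helper45/Stek/PN.lean (`phi_deriv` there is general in `b`). Near: for `|z| ≤ 1 + 1/(20k)` one has `|z|^k ≤ exp(1/20) ≤ 1.06`, `|phi' - 1| = |2 b z^k + b² z^(2k)| ≤ 0.3 · 1.06 + 0.0225 · 1.06² = 0.3433 ≤ 7/20`. -/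
def S_PN2 : Prop := ∀ k : ℕ, 2 ≤ k → (∀ z, HasDerivAt (phi k (3 / 20)) ((1 + (3 / 20 : ℝ) * z ^ k) ^ 2) z) ∧
  Near (phi k (3 / 20)) (1 / (20 * k)) ∧ RotSymmetric k (petal k)

/-- AR2. The area. USES: PN2.
PROOF. As Helper45/Stek/AR.lean. -/
def S_AR2 : Prop := ∀ k : ℕ, 2 ≤ k → Real.pi < area (petal k)

/-- The `k` conditions on the Fourier coefficients: `c_l + (2l/k) c_(l-k) = 0` for `0 ≤ l ≤ k/2`, and the mirror image. -/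
def Cond2 (k : ℕ) (c : ℤ → ℂ) : Prop := ∀ l : ℤ, -(k : ℤ) < 2 * l → 2 * l ≤ k →
  if 0 ≤ l then c l = -(2 * l / k : ℝ) * c (l - k) else c l = -(2 * (-l) / k : ℝ) * c (l + k)

/-- LA2. A nonzero vector satisfying the `k` conditions.
PROOF. As Helper45/Stek/LA.lean: `k` linear equations (`l` runs through `k` integers) for a vector of `ℂ^(k+1)`. -/
def S_LA2 : Prop := ∀ k : ℕ, 2 ≤ k → ∀ u : Fin (k + 1) → ℂ → ℂ, (∀ i, Continuous (u i)) →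
  ∃ c : Fin (k + 1) → ℂ, c ≠ 0 ∧ Cond2 k (fun n => fcr (fun z => ∑ i, c i * u i z) 1 n)

/-- JA2. The inequality for the Jacobi form.
PROOF. `s = 14/25`, `b = 3/20`: `s (1 + b²) = 0.5726`, `2 s b = 0.168`. Divide by `k`: with `y_n = |n|/k`, `D_n := y_n - 0.5726`, `e_n := 0.168 Re(c_n conj c_(n+k))` the claim is `∑ e_n ≤ ∑ D_n |c_n|²`. (Method of Helper45/Stek/JA.lean: it suffices to find `A_n, B_n`, bounded, with
`e_n ≤ A_n |c_n|² + B_(n+k) |c_(n+k)|²` and `(A_n + B_n) |c_n|² ≤ D_n |c_n|²`, or for the pairs below the sum of two such inequalities; all sums converge absolutely.) Classes mod `k`: let `0 ≤ l ≤ k/2`, `y = l/k`, the class is `..., l-2k, l-k, l, l+k, l+2k, ...` with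
`D = ..., 2-y-.5726, 1-y-.5726, y-.5726, 1+y-.5726, 2+y-.5726, ...` and `c_l = -2y x`, `x := c_(l-k)`. All edges use `|c||c'| ≤ (|c|² + |c'|²)/2`, i.e. `A = B = .084`, except the three next to `l, l-k`:
edge `(l-k, l)`: `e_(l-k) = -.336 y |x|²` exactly; edge `(l, l+k)`: `e_l ≤ .336 y |x| |c_(l+k)| ≤ .0084 |x|² + (.3434 + y) |c_(l+k)|²` as `(.168 y)² ≤ .0084 (.3434 + y)` for `0 ≤ y ≤ 1/2`; edge `(l-2k, l-k)`: `e ≤ .168 |x| |c_(l-2k)| ≤ .0084 |x|² + (1.3434 - y) |c_(l-2k)|²` as `.084² ≤ .0084 (1.3434 - y)`.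
Then at `l+k`: `.3434 + y + .084 ≤ 1 + y - .5726`; at `l-2k`: `1.3434 - y + .084 ≤ 2 - y - .5726`; at all further places `.168 ≤ D`; and at the pair `{l, l-k}`: `(y - .5726) 4y² + (1 - y - .5726) + .336 y ≥ .0168`: `f(y) = .4274 - .664 y - 2.2904 y² + 4y³ ≥ .0226` on `[0, 1/2]` (minimum near `y = .494`).
Classes with `l < 0`: the mirror image `n ↦ -n`. For `l = 0`: `c_0 = 0`. For `2l = k`: `l - k = -l`, one class. -/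
def S_JA2 : Prop := ∀ k : ℕ, 2 ≤ k → ∀ c : ℤ → ℂ, Summable (fun n : ℤ => |(n : ℝ)| * ‖c n‖ ^ 2) →
  Summable (fun n : ℤ => ‖c n‖ ^ 2) → Cond2 k c →
  14 / 25 * (k : ℝ) * ((1 + (3 / 20 : ℝ) ^ 2) * ∑' n : ℤ, ‖c n‖ ^ 2 +
    2 * (3 / 20 : ℝ) * ∑' n : ℤ, (c n * starRingEnd ℂ (c (n + k))).re) ≤ ∑' n : ℤ, |(n : ℝ)| * ‖c n‖ ^ 2

/-- LB2. The lower bound. USES: PN2, JA2, LA2.
PROOF. As Helper45/Stek/LB.lean; `nt`, `et`, `bt`, `fb fd`, `pv`, `ne`, `co`, `cl` of Helper45/Stek (see Main.lean there) are theorems. -/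
def S_LB2 : Prop := ∀ k : ℕ, 2 ≤ k → LipDomain (petal k) ∧ 14 / 25 * (k : ℝ) ≤ steklov k (petal k)

/-! ## The numbers

`M = (14/25) k`. Useful lemmas in Helper69/ST/NU.lean: `good_between` (`Good` at two points implies `Good` in between), `good_zero`, `T_lower`, `lam_card`. -/

/-- NA. Small `κ`.
PROOF. `J = {l | d ≤ |l|, -p < 2l ≤ p}`, `d := (2p-k)/2` (natural division, `d ≥ 1`): `p - (2d - 1) ≥ k + 1 - p` elements. `Good` at `d`: `p ≤ d + (k+1)/2`, so `T - p + d ≥ .56k(1 + .93κ) - (k+1)/2 ≥ k (.0516 + .5208 κ)` (`k ≥ 53`); `d ≤ p/3 ≤ k/4`, and for `z = d/k ≤ 1/4`: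
`(.56 + .5208κ - z)(.0516 + .5208κ - 2zκ) - z²κ` is decreasing in `z`, at `z = 1/4` it is `(.31 + .5208κ)(.0516 + .0208κ) - .0625κ > 0` for `0 ≤ κ ≤ .27` (at `κ = .27`: `.0089`). `Good` at `p/2`: `T ≥ (56/75) p (1 + .93κ)`, `X = T/p`: `(X - 1/2)(X - 1/2 - κ) ≥ κ/4`: `(.2466 + .694κ)(.2466 - .306κ) ≥ κ/4` on `[0, .27]`
(both factors increase with `T`). -/
def S_NA : Prop := ∀ (p k : ℕ) (κ T : ℝ), 40 ≤ p → 4 * p ≤ 3 * k → 2 * k < 3 * p + 3 → 0 ≤ κ → κ ≤ 27 / 100 →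
  14 / 25 * (k : ℝ) * (1 + 93 / 100 * κ) ≤ T →
  ∃ J : Finset ℤ, (∀ l ∈ J, -(p : ℤ) < 2 * l ∧ 2 * l ≤ p) ∧ k + 1 - p ≤ J.card ∧ ∀ l ∈ J, Good p κ T |(l : ℝ)|

/-- NB. Middle `κ`.
PROOF. `e := (p+4)/5`, `f := (k+2-p)/2` (natural division), `J = {l | e ≤ |l| ≤ e+f-1}`: `2f ≥ k+1-p` elements, `2(e+f-1) < p`. `p/5 ≤ e ≤ p/5 + 4/5`, `e+f-1 ≤ j₂ := k/2 - 3p/10 + 4/5`. `X = T/p ≥ .56 μ (1.008 + .9κ)`, `μ = k/p ≥ 4/3`. `Good` at `e` (`.2 ≤ y ≤ .22`): `(X - y)(X - 1 + y - 2yκ) ≥ y²κ` (at `κ = .27, y = .2`: `.0191 ≥ .0108`)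
and at `j₂` (`y = μ/2 - .3 + .8/p`; the tightest case `μ = 4/3`, `p = 40`, `κ = .38`: `.0626 ≥ .0568`). -/
def S_NB : Prop := ∀ (p k : ℕ) (κ T : ℝ), 40 ≤ p → 4 * p ≤ 3 * k → 2 * k < 3 * p + 3 → 27 / 100 ≤ κ → κ ≤ 38 / 100 →
  14 / 25 * (k : ℝ) * (126 / 125 + 9 / 10 * κ) ≤ T →
  ∃ J : Finset ℤ, (∀ l ∈ J, -(p : ℤ) < 2 * l ∧ 2 * l ≤ p) ∧ k + 1 - p ≤ J.card ∧ ∀ l ∈ J, Good p κ T |(l : ℝ)|

/-- NC. Large `κ`.
PROOF. `J = {l | |l| ≤ d}`, `d := (k-p+1)/2` (natural division): `2d + 1 ≥ k + 1 - p` elements. `X = T/p ≥ .56 μ (1.033 + .834κ) ≥ 1` (`μ = k/p ≥ 4/3`), so `Good` at `0`; `Good` at `j₂ := (k-p+1)/2`, `y = (μ - 1 + 1/p)/2 ≤ 1/4 + 5/(4p)`: `(X - y)(X - 1 + y - 2yκ) ≥ y²κ` (at `μ = 4/3`, `κ = .38`: `.0425 ≥ .0122`). -/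
def S_NC : Prop := ∀ (p k : ℕ) (κ T : ℝ), 40 ≤ p → 4 * p ≤ 3 * k → 2 * k < 3 * p + 3 → 38 / 100 ≤ κ → κ ≤ 1 →
  14 / 25 * (k : ℝ) * (1033 / 1000 + 834 / 1000 * κ) ≤ T →
  ∃ J : Finset ℤ, (∀ l ∈ J, -(p : ℤ) < 2 * l ∧ 2 * l ≤ p) ∧ k + 1 - p ≤ J.card ∧ ∀ l ∈ J, Good p κ T |(l : ℝ)|

/-- NW. USES: NA, NB, NC. (helper69) -/
def S_NW : Prop := ∀ (p k : ℕ) (κ r : ℝ), 40 ≤ p → 4 * p ≤ 3 * k → 2 * k < 3 * p + 3 → 0 ≤ κ → κ < 1 →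
  0 < r → r ^ 2 * (p + 1) ≤ 2 + (p - 1) / (1 + κ) ^ 2 →
  ∃ J : Finset ℤ, (∀ l ∈ J, -(p : ℤ) < 2 * l ∧ 2 * l ≤ p) ∧ k + 1 - p ≤ J.card ∧
    ∀ l ∈ J, Good p κ (14 / 25 * (k : ℝ) / r) |(l : ℝ)|

end Pool.Agent.Helper69.ST
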