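import Pool.Agent.Helper69.ST.Goals
import Pool.Agent.Helper45.Stek.FM
import Pool.Agent.Helper36.ST.MB
import Pool.Agent.Helper19.ST.H2

open MeasureTheory Set Complex Metric Filter
open scoped ContDiff Topology ENNReal

namespace Pool.Agent.Helper69.ST.MS

open Pool.Agent.Helper45.Stek Pool.Agent.Helper69.ST

theorem norm_e (x : ℝ) : ‖exp ((x : ℂ) * I)‖ = 1 := Complex.norm_exp_ofReal_mul_I x

theorem sq_int (H x : ℝ → ℂ) (hm : Measurable H) (hx : Continuous x)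
    (hall : ∀ a b : ℝ, IntervalIntegrable (fun t => ‖H t‖ ^ 2) volume a b) :
    ∀ a b : ℝ, IntervalIntegrable (fun t => ‖x t - H t‖ ^ 2) volume a b := by
  intro a b
  have h1 : IntervalIntegrable (fun t => 2 * ‖x t‖ ^ 2 + 2 * ‖H t‖ ^ 2) volume a b :=
    ((hx.norm.pow 2).const_mul 2 |>.intervalIntegrable a b).add ((hall a b).const_mul 2)
  refine h1.mono_fun ((hx.measurable.sub hm).norm.pow_const 2).aestronglyMeasurable ?_
  refine Eventually.of_forall fun t => ?_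
  simp only
  rw [Real.norm_of_nonneg (by positivity), Real.norm_of_nonneg (by positivity)]
  have h2 := norm_sub_le (x t) (H t)
  have h3 := norm_nonneg (x t - H t)
  nlinarith [sq_nonneg (‖x t‖ - ‖H t‖), norm_nonneg (x t), norm_nonneg (H t)]

theorem pt (g G η : ℝ) (x y : ℂ) (hg : 0 ≤ g) (hgG : g ≤ G) (hη : 0 < η) :
    g * ‖y‖ ^ 2 ≤ g * ‖x‖ ^ 2 + G * (η * ‖y‖ ^ 2 + ‖x - y‖ ^ 2 / η) := by
  have hx := norm_nonneg x
  have hy := norm_nonneg y
  have hd := norm_nonneg (x - y)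
  have h1 : ‖y‖ ≤ ‖x‖ + ‖x - y‖ := by
    have := norm_sub_norm_le y x
    rw [norm_sub_rev] at this
    linarith
  have h2 : ‖y‖ ^ 2 ≤ ‖x‖ ^ 2 + 2 * ‖y‖ * ‖x - y‖ := by
    rcases le_total ‖y‖ ‖x‖ with h | h
    · nlinarith [mul_nonneg hy hd]
    · nlinarith [mul_nonneg hy hd]
  have h3 : 2 * ‖y‖ * ‖x - y‖ ≤ η * ‖y‖ ^ 2 + ‖x - y‖ ^ 2 / η := by
    have h4 : η * ‖y‖ ^ 2 + ‖x - y‖ ^ 2 / η - 2 * ‖y‖ * ‖x - y‖ = (η * ‖y‖ - ‖x - y‖) ^ 2 / η := by
      field_simp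
      ring
    have h5 : 0 ≤ (η * ‖y‖ - ‖x - y‖) ^ 2 / η := by positivity
    linarith
  have h6 : 0 ≤ η * ‖y‖ ^ 2 + ‖x - y‖ ^ 2 / η := by positivity
  calc g * ‖y‖ ^ 2 ≤ g * (‖x‖ ^ 2 + (η * ‖y‖ ^ 2 + ‖x - y‖ ^ 2 / η)) :=
        mul_le_mul_of_nonneg_left (by linarith) hg
    _ = g * ‖x‖ ^ 2 + g * (η * ‖y‖ ^ 2 + ‖x - y‖ ^ 2 / η) := by ring
    _ ≤ _ := by
      have := mul_le_mul_of_nonneg_right hgG h6
      linarith

theorem hfun_p (p : ℕ) (β : ℕ → ℂ) (ρ θ : ℝ) :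
    hfun p β (ρ * exp (θ * I)) = hfun 1 β (((ρ ^ p : ℝ) : ℂ) * exp (((p * θ : ℝ) : ℂ) * I)) := by
  unfold hfun
  congr 1
  funext n
  congr 1
  have h1 : exp (((p * θ : ℝ) : ℂ) * I) = exp (θ * I) ^ p := by
    rw [← Complex.exp_nat_mul]
    congr 1
    push_cast
    ring
  rw [h1, Complex.ofReal_pow, ← mul_pow, ← pow_mul, one_mul]

theorem t (hPH : S_PH) (hGQ : S_GQ) (hQI : S_QI) (hKP : S_KP) : S_MS := by
  intro p Ω f φ β V τ₀ H hp hΩ hC hV hH g hg hg0 ε hε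
  obtain ⟨hφ, -, hcont, hdiff, -, -, hfr⟩ := hPH p Ω f φ β hp hΩ.isOpen hC
  have hfin : (Measure.hausdorffMeasure 1 : Measure ℂ) (frontier Ω) < ⊤ := fm Ω hΩ
  set L : ℝ := ((Measure.hausdorffMeasure 1 : Measure ℂ).real (frontier Ω)) with hL
  have hL0 : 0 ≤ L := measureReal_nonneg
  set ε' : ℝ := ε / (3 * (L + 1)) with hε'
  have hε'0 : 0 < ε' := by positivity
  have hε'L : ε' * L ≤ ε / 3 := by
    rw [hε', div_mul_eq_mul_div, div_le_div_iff₀ (by positivity) (by norm_num)]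
    nlinarith
  obtain ⟨ρ₀, hρ₀, hρ₁, hK⟩ := hKP g hg hg0 ε' hε'0
  -- the boundary function
  have hall : ∀ a b : ℝ, IntervalIntegrable (fun t => ‖H t‖ ^ 2) volume a b := by
    intro a b
    have hP : Function.Periodic (fun t => ‖H t‖ ^ 2) (2 * Real.pi) := by
      intro t
      simp only [hH.per]
    refine hP.intervalIntegrable (by positivity) (t := -Real.pi) ?_ a b
    have h4 : -Real.pi + 2 * Real.pi = Real.pi := by ring
    rw [h4]
    exact hH.sq
  have hscale : ∀ (G : ℝ → ℝ), (∀ a b : ℝ, IntervalIntegrable G volume a b) →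
      IntervalIntegrable (fun θ : ℝ => G (p * θ)) volume (-Real.pi) Real.pi := by
    intro G hGi
    have hp0 : (p : ℝ) ≠ 0 := by
      have : (1 : ℝ) ≤ p := by exact_mod_cast hp
      positivity
    have h1 := (hGi (p * -Real.pi) (p * Real.pi)).comp_mul_left (c := (p : ℝ))
    rwa [mul_div_cancel_left₀ _ hp0, mul_div_cancel_left₀ _ hp0] at h1
  have hc1 : ∀ r : ℝ, 0 ≤ r → r < 1 → Continuous (fun t : ℝ => hfun 1 β (r * exp (t * I))) := by
    intro r hr0 hr1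
    unfold hfun
    apply continuous_tsum (u := fun n : ℕ => ‖β n‖ * r ^ n)
    · intro n
      fun_prop
    · exact hC.sm r hr0 hr1
    · intro n t
      rw [norm_mul, norm_pow, norm_mul, norm_e, mul_one, Complex.norm_real, Real.norm_of_nonneg hr0, one_mul]
  obtain ⟨G, hG⟩ := (isCompact_sphere (0 : ℂ) 1).exists_bound_of_continuousOn hg.continuousOn
  have hGθ : ∀ θ : ℝ, g (exp (θ * I)) ≤ G := by
    intro θ
    have h1 := hG (exp (θ * I)) (by rw [mem_sphere_zero_iff_norm]; exact norm_e θ)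
    rwa [Real.norm_of_nonneg (hg0 _)] at h1
  have hG0 : 0 ≤ G := (hg0 _).trans (hGθ 0)
  set N : ℝ := ∫ t in (-Real.pi)..Real.pi, ‖H t‖ ^ 2 with hN
  have hN0 : 0 ≤ N := intervalIntegral.integral_nonneg (by linarith [Real.pi_pos]) fun t _ => by positivity
  have hNp : ∫ θ in (-Real.pi)..Real.pi, ‖H (p * θ)‖ ^ 2 = N :=
    Pool.Agent.Helper36.ST.MB.int_mul p hp (fun t => ‖H t‖ ^ 2) (fun t => by simp only [hH.per]) hall
  set η : ℝ := ε / (6 * ((G + 1) * (N + 1))) with hη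
  have hη0 : 0 < η := by positivity
  have hηN : G * (η * N) ≤ ε / 6 := by
    have h1 : G * N ≤ (G + 1) * (N + 1) := by nlinarith
    have h2 : G * (η * N) = (G * N) * η := by ring
    rw [h2, hη, mul_div_assoc', div_le_div_iff₀ (by positivity) (by norm_num)]
    nlinarith
  -- choice of ρ
  have hpow : Tendsto (fun ρ : ℝ => ρ ^ p) (𝓝[<] 1) (𝓝[<] 1) := by
    apply tendsto_nhdsWithin_of_tendsto_nhds_of_eventually_within
    · have h1 : Continuous (fun ρ : ℝ => ρ ^ p) := by fun_prop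
      have h2 := h1.tendsto 1
      rw [one_pow] at h2
      exact h2.mono_left nhdsWithin_le_nhds
    · have h1 : ∀ᶠ ρ : ℝ in 𝓝[<] 1, 0 < ρ :=
        mem_nhdsWithin_of_mem_nhds (lt_mem_nhds one_pos)
      filter_upwards [h1, self_mem_nhdsWithin] with ρ ha hb
      exact pow_lt_one₀ ha.le hb (by omega)
  set ε₁ : ℝ := ε * η / (6 * (G + 1)) with hε₁
  have hε₁0 : 0 < ε₁ := by positivity
  have hev := (hH.cv.comp hpow).eventually (gt_mem_nhds hε₁0)
  have h1 : ∀ᶠ ρ : ℝ in 𝓝[<] 1, ρ₀ < ρ := mem_nhdsWithin_of_mem_nhds (lt_mem_nhds hρ₁)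
  obtain ⟨ρ, hDρ, hρ, hρ'⟩ := (hev.and (h1.and self_mem_nhdsWithin)).exists
  simp only [Function.comp] at hDρ
  replace hρ' : ρ < 1 := hρ'
  have hρpos : 0 < ρ := hρ₀.trans hρ
  have hrp0 : 0 ≤ ρ ^ p := by positivity
  have hrp1 : ρ ^ p < 1 := pow_lt_one₀ hρpos.le hρ' (by omega)
  -- comparison of the integrals
  have hin : ∀ θ : ℝ, (ρ : ℂ) * exp (θ * I) ∈ ball (0 : ℂ) 1 := by
    intro θ
    rw [mem_ball_zero_iff, norm_mul, norm_e, mul_one, Complex.norm_real, Real.norm_eq_abs,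
      abs_of_pos hρpos]
    exact hρ'
  have hcc : Continuous (fun θ : ℝ => hfun p β (ρ * exp (θ * I))) := by
    rw [← continuousOn_univ]
    exact hcont.comp (by fun_prop) (fun θ _ => hin θ)
  have hgc : Continuous (fun θ : ℝ => g (exp (θ * I))) := hg.comp (by fun_prop)
  have hsq := sq_int H (fun t : ℝ => hfun 1 β (((ρ ^ p : ℝ) : ℂ) * exp (t * I))) hH.meas
    (hc1 _ hrp0 hrp1) hall
  have hD : ∫ θ in (-Real.pi)..Real.pi, ‖hfun p β (ρ * exp (θ * I)) - H (p * θ)‖ ^ 2 < ε₁ := by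
    refine lt_of_eq_of_lt ?_ hDρ
    rw [← Pool.Agent.Helper36.ST.MB.int_mul p hp
      (fun t : ℝ => ‖hfun 1 β (((ρ ^ p : ℝ) : ℂ) * exp (t * I)) - H t‖ ^ 2) ?_ hsq]
    · congr 1
      funext θ
      rw [hfun_p p β ρ θ]
    · intro t
      have he : exp (((t + 2 * Real.pi : ℝ) : ℂ) * I) = exp (t * I) := by
        rw [Complex.exp_eq_exp_iff_exists_int]
        exact ⟨1, by push_cast; ring⟩
      simp only [hH.per, he]
  have hI1 : IntervalIntegrable (fun θ : ℝ => ‖H (p * θ)‖ ^ 2) volume (-Real.pi) Real.pi :=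
    hscale _ hall
  have hI2 : IntervalIntegrable (fun θ : ℝ => ‖hfun p β (ρ * exp (θ * I)) - H (p * θ)‖ ^ 2) volume
      (-Real.pi) Real.pi := by
    have h2 := hscale _ hsq
    refine h2.congr ?_
    intro θ _
    simp only
    rw [hfun_p p β ρ θ]
  have hI3 : IntervalIntegrable (fun θ : ℝ => g (exp (θ * I)) * ‖hfun p β (ρ * exp (θ * I))‖ ^ 2) volume
      (-Real.pi) Real.pi := (hgc.mul (hcc.norm.pow 2)).intervalIntegrable _ _
  have hI4 : IntervalIntegrable (fun θ : ℝ => g (exp (θ * I)) * ‖H (p * θ)‖ ^ 2) volume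
      (-Real.pi) Real.pi := hI1.continuousOn_mul hgc.continuousOn
  have hcomp : ∫ θ in (-Real.pi)..Real.pi, g (exp (θ * I)) * ‖H (p * θ)‖ ^ 2 ≤
      (∫ θ in (-Real.pi)..Real.pi, g (exp (θ * I)) * ‖hfun p β (ρ * exp (θ * I))‖ ^ 2) + ε / 3 := by
    have h2 : ∫ θ in (-Real.pi)..Real.pi, g (exp (θ * I)) * ‖H (p * θ)‖ ^ 2 ≤
        ∫ θ in (-Real.pi)..Real.pi, (g (exp (θ * I)) * ‖hfun p β (ρ * exp (θ * I))‖ ^ 2 +
          G * (η * ‖H (p * θ)‖ ^ 2 + ‖hfun p β (ρ * exp (θ * I)) - H (p * θ)‖ ^ 2 / η)) := by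
      apply intervalIntegral.integral_mono_on (by linarith [Real.pi_pos]) hI4
      · exact hI3.add (((hI1.const_mul η).add (hI2.div_const η)).const_mul G)
      · intro θ _
        exact pt _ _ _ _ _ (hg0 _) (hGθ θ) hη0
    rw [intervalIntegral.integral_add hI3 (((hI1.const_mul η).add (hI2.div_const η)).const_mul G),
      intervalIntegral.integral_const_mul, intervalIntegral.integral_add (hI1.const_mul η) (hI2.div_const η),
      intervalIntegral.integral_const_mul, intervalIntegral.integral_div, hNp] at h2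
    have h3 : G * ((∫ θ in (-Real.pi)..Real.pi, ‖hfun p β (ρ * exp (θ * I)) - H (p * θ)‖ ^ 2) / η) ≤ ε / 6 := by
      have h4 : (∫ θ in (-Real.pi)..Real.pi, ‖hfun p β (ρ * exp (θ * I)) - H (p * θ)‖ ^ 2) / η ≤
          ε / (6 * (G + 1)) := by
        rw [div_le_iff₀ hη0]
        refine hD.le.trans (le_of_eq ?_)
        rw [hε₁]
        ring
      have h5 : G * (ε / (6 * (G + 1))) ≤ ε / 6 := by
        rw [mul_div_assoc', div_le_div_iff₀ (by positivity) (by norm_num)]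
        nlinarith
      exact (mul_le_mul_of_nonneg_left h4 hG0).trans h5
    linarith
  -- the kernel
  obtain ⟨δ, hδ, hker⟩ := hK ρ hρ hρ'
  have hnz : ∀ θ : ℝ, hfun p β (ρ * exp (θ * I)) ≠ 0 := fun θ => hC.nz _ (hin θ)
  set F : ℂ → ℂ := fun z => hfun p β z ^ 2 with hF
  set Q : ℝ → ℂ := fun θ => (g (exp (θ * I)) : ℂ) * (starRingEnd ℂ (hfun p β (ρ * exp (θ * I))) /
    hfun p β (ρ * exp (θ * I))) with hQ
  have hQc : Continuous Q :=
    (Complex.continuous_ofReal.comp hgc).mul ((Complex.continuous_conj.comp hcc).div hcc hnz)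
  have hQn : ∀ θ, ‖Q θ‖ ≤ g (exp (θ * I)) := by
    intro θ
    simp only [hQ]
    rw [norm_mul, norm_div, RCLike.norm_conj, div_self (norm_ne_zero_iff.mpr (hnz θ)), mul_one,
      Complex.norm_real, Real.norm_of_nonneg (hg0 _)]
  obtain ⟨q, hqs, hq1, hq2, hq3⟩ := hQI ρ Q hρpos hρ' hQc
  have hρ₂ : (1 + ρ) / 2 < 1 := by linarith
  obtain ⟨τ₁, hτ₁, hτ₁', hgq⟩ := hGQ p Ω f φ β V τ₀ hp hΩ hC hV q ((1 + ρ) / 2) hqs hρ₂ hq2 (ε / 3) (by positivity)
  have hδ' : 0 < min δ (1 - (1 + ρ) / 2) := lt_min hδ (by linarith)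
  obtain ⟨τ₂, hτ₂, hτ₂', hf⟩ := hfr V τ₀ hV _ hδ'
  refine ⟨min τ₁ τ₂, lt_min hτ₁ hτ₂, (min_le_left _ _).trans hτ₁', ?_⟩
  intro τ hτ hτm
  have hτ1 : τ < τ₁ := lt_of_lt_of_le hτm (min_le_left _ _)
  have hτ2 : τ < τ₂ := lt_of_lt_of_le hτm (min_le_right _ _)
  have hτ0 : τ < τ₀ := lt_of_lt_of_le hτ1 hτ₁'
  have hpsi : ∀ x ∈ frontier Ω, x + τ * V x ∈ Ω := fun x hx =>
    hV.shift τ hτ hτ0 x (frontier_subset_closure hx)
  have hφc : ContinuousOn (fun x => φ (x + τ * V x)) (frontier Ω) := by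
    have h2 : ContinuousOn φ Ω := fun x hx => ((hφ x hx).2.2.continuousAt).continuousWithinAt
    refine h2.comp ?_ hpsi
    exact (continuous_id.add (continuous_const.mul hV.sm.continuous)).continuousOn
  have hmf : MeasurableSet (frontier Ω) := isClosed_frontier.measurableSet
  have hcpt : IsCompact (frontier Ω) :=
    Metric.isCompact_of_isClosed_isBounded isClosed_frontier
      (hΩ.bdd.closure.subset frontier_subset_closure)
  have hint : ∀ u : ℂ → ℝ, ContinuousOn u (frontier Ω) →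
      IntegrableOn u (frontier Ω) (Measure.hausdorffMeasure 1) := by
    intro u hu
    obtain ⟨C, hC'⟩ := hcpt.exists_bound_of_continuousOn hu
    have hfm : IsFiniteMeasure ((Measure.hausdorffMeasure 1 : Measure ℂ).restrict (frontier Ω)) :=
      ⟨by rw [Measure.restrict_apply_univ]; exact hfin⟩
    refine Integrable.of_bound (hu.aestronglyMeasurable hmf) C ?_
    rw [ae_restrict_iff' hmf]
    exact Eventually.of_forall hC'
  have hJ1 : IntegrableOn (fun x => ‖q (φ (x + τ * V x))‖) (frontier Ω) (Measure.hausdorffMeasure 1) :=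
    hint (fun x => ‖q (φ (x + τ * V x))‖) (hqs.continuous.comp_continuousOn hφc).norm
  have hJ2 : IntegrableOn (fun x => g (φ (x + τ * V x))) (frontier Ω) (Measure.hausdorffMeasure 1) :=
    hint (fun x => g (φ (x + τ * V x))) (hg.comp_continuousOn hφc)
  have hJ3 : IntegrableOn (fun _ : ℂ => ε') (frontier Ω) (Measure.hausdorffMeasure 1) :=
    hint (fun _ => ε') continuousOn_const
  have hbd : ∫ x in frontier Ω, ‖q (φ (x + τ * V x))‖ ∂(Measure.hausdorffMeasure 1) ≤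
      (∫ x in frontier Ω, g (φ (x + τ * V x)) ∂(Measure.hausdorffMeasure 1)) + ε / 3 := by
    have h2 : ∫ x in frontier Ω, ‖q (φ (x + τ * V x))‖ ∂(Measure.hausdorffMeasure 1) ≤
        ∫ x in frontier Ω, (g (φ (x + τ * V x)) + ε') ∂(Measure.hausdorffMeasure 1) := by
      refine setIntegral_mono_on hJ1 (hJ2.add hJ3) hmf ?_
      intro x hx
      obtain ⟨ha, hb⟩ := hf τ hτ hτ2 x hx
      have h3 : 1 - δ < ‖φ (x + τ * V x)‖ := lt_of_le_of_lt (by
        have := min_le_left δ (1 - (1 + ρ) / 2)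
        linarith) ha
      have h4 : (1 + ρ) / 2 < ‖φ (x + τ * V x)‖ := lt_of_le_of_lt (by
        have := min_le_right δ (1 - (1 + ρ) / 2)
        linarith) ha
      rw [hq1 _ h4 hb.le]
      exact hker Q hQc hQn _ h3 hb
    rw [integral_add hJ2 hJ3, setIntegral_const, smul_eq_mul] at h2
    have h5 : (Measure.hausdorffMeasure 1 : Measure ℂ).real (frontier Ω) * ε' ≤ ε / 3 := by
      rw [← hL, mul_comm]
      exact hε'L
    linarith
  have hdF : DifferentiableOn ℂ F (ball 0 1) := hdiff.pow 2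
  have h3 := hq3 F hdF
  have h4 : ∫ θ in (-Real.pi)..Real.pi, Q θ * F (ρ * exp (θ * I)) =
      ((∫ θ in (-Real.pi)..Real.pi, g (exp (θ * I)) * ‖hfun p β (ρ * exp (θ * I))‖ ^ 2 : ℝ) : ℂ) := by
    rw [← intervalIntegral.integral_ofReal]
    congr 1
    funext θ
    simp only [hQ, hF]
    have h5 := hnz θ
    have h6 : starRingEnd ℂ (hfun p β (ρ * exp (θ * I))) / hfun p β (ρ * exp (θ * I)) *
        hfun p β (ρ * exp (θ * I)) ^ 2 = ((‖hfun p β (ρ * exp (θ * I))‖ ^ 2 : ℝ) : ℂ) := by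
      have h7 : starRingEnd ℂ (hfun p β (ρ * exp (θ * I))) / hfun p β (ρ * exp (θ * I)) *
          hfun p β (ρ * exp (θ * I)) ^ 2 =
          hfun p β (ρ * exp (θ * I)) * starRingEnd ℂ (hfun p β (ρ * exp (θ * I))) := by
        field_simp
      rw [h7, Complex.mul_conj, Complex.normSq_eq_norm_sq]
    rw [mul_assoc, h6]
    push_cast
    ring
  have h5 := hgq τ hτ hτ1
  rw [h3, h4, Complex.norm_real, Real.norm_eq_abs] at h5
  have h6 := (le_abs_self _).trans h5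
  linarith

end Pool.Agent.Helper69.ST.MS
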