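import Pool.Agent.Helper69.ST.Goals

open MeasureTheory Set Complex Metric Filter
open scoped ContDiff Topology ENNReal

namespace Pool.Agent.Helper69.ST

open Pool.Agent.Helper45.Stek

theorem reindex (k : ℕ) (S : Finset (ℤ ⊕ ℤ)) (h : k + 1 ≤ S.card) :
    ∃ e : Fin (k + 1) → ℤ ⊕ ℤ, Function.Injective e ∧ ∀ i, e i ∈ S := by
  refine ⟨fun i => (S.equivFin.symm (Fin.castLE h i) : ℤ ⊕ ℤ), ?_, fun i => (S.equivFin.symm (Fin.castLE h i)).2⟩
  intro i j hij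
  have h1 := S.equivFin.symm.injective (Subtype.ext hij)
  exact Fin.castLE_injective h h1

theorem sum_reindex (k : ℕ) (Λ J : Finset ℤ) (e : Fin (k + 1) → ℤ ⊕ ℤ) (he : ∀ i, e i ∈ Λ.disjSum J)
    (c : Fin (k + 1) → ℂ) (g : ℤ ⊕ ℤ → ℂ) :
    ∑ i, c i * g (e i) = ∑ l ∈ Λ, (∑ i, if e i = Sum.inl l then c i else 0) * g (Sum.inl l) +
      ∑ l ∈ J, (∑ i, if e i = Sum.inr l then c i else 0) * g (Sum.inr l) := by
  have h1 : ∑ s ∈ Λ.disjSum J, (∑ i, if e i = s then c i else 0) * g s = ∑ i, c i * g (e i) := by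
    simp only [Finset.sum_mul]
    rw [Finset.sum_comm]
    apply Finset.sum_congr rfl
    intro i _
    rw [Finset.sum_eq_single (e i)]
    · simp
    · intro s _ hs
      rw [if_neg (fun h => hs h.symm), zero_mul]
    · intro h
      exact absurd (he i) h
  rw [← h1, Finset.sum_disjSum]

theorem coeff_ne (k : ℕ) (e : Fin (k + 1) → ℤ ⊕ ℤ) (he : Function.Injective e) (c : Fin (k + 1) → ℂ) (i : Fin (k + 1)) :
    (∑ j, if e j = e i then c j else 0) = c i := by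
  rw [Finset.sum_eq_single i]
  · simp
  · intro j _ hj
    rw [if_neg (fun h => hj (he h))]
  · intro h
    exact absurd (Finset.mem_univ i) h

theorem hfun_zero (p : ℕ) (hp : 1 ≤ p) (β : ℕ → ℂ) : hfun p β 0 = β 0 := by
  unfold hfun
  rw [tsum_eq_single 0]
  · simp
  · intro n hn
    rw [zero_pow (by positivity), mul_zero]

theorem norm_one_of_pow (p : ℕ) (hp : 1 ≤ p) (ζ : ℂ) (h : ζ ^ p = 1) : ‖ζ‖ = 1 := by
  have h1 : ‖ζ‖ ^ p = 1 := by rw [← norm_pow, h, norm_one]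
  exact (pow_eq_one_iff_of_nonneg (norm_nonneg _) (by omega)).mp h1

/-- The numbers `R = √(area/π)` and `a`. -/
theorem ratio_bound (p : ℕ) (a b A κ : ℝ) (ha : 0 < a) (hb : 0 ≤ b) (hp : 1 ≤ p) (hκ : 0 ≤ κ) (hA : 0 < A)
    (h1 : b * (1 + κ) ≤ a) (h2 : A ≤ Real.pi * ((2 * a ^ 2 + (p - 1) * b ^ 2) / (p + 1))) :
    (√(A / Real.pi) / a) ^ 2 * (p + 1) ≤ 2 + (p - 1) / (1 + κ) ^ 2 := by
  have hpR : (1 : ℝ) ≤ p := by exact_mod_cast hp
  have hπ := Real.pi_pos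
  have h3 : (√(A / Real.pi) / a) ^ 2 = A / Real.pi / a ^ 2 := by
    rw [div_pow, Real.sq_sqrt (by positivity)]
  have h4 : A / Real.pi ≤ (2 * a ^ 2 + (p - 1) * b ^ 2) / (p + 1) := by
    rw [div_le_iff₀ hπ]
    linarith
  have h5 : A / Real.pi * (p + 1) ≤ 2 * a ^ 2 + (p - 1) * b ^ 2 := by
    rwa [le_div_iff₀ (by linarith)] at h4
  have h6 : b ^ 2 ≤ a ^ 2 / (1 + κ) ^ 2 := by
    rw [le_div_iff₀ (by positivity), ← mul_pow]
    exact pow_le_pow_left₀ (by positivity) h1 2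
  rw [h3, div_mul_eq_mul_div, div_le_iff₀ (by positivity)]
  have h7 : ((p : ℝ) - 1) * b ^ 2 ≤ (p - 1) * (a ^ 2 / (1 + κ) ^ 2) := mul_le_mul_of_nonneg_left h6 (by linarith)
  calc A / Real.pi * (p + 1) ≤ 2 * a ^ 2 + (p - 1) * (a ^ 2 / (1 + κ) ^ 2) := by linarith
    _ = _ := by ring

theorem r_le_one (p : ℕ) (r κ : ℝ) (hp : 1 ≤ p) (hκ : 0 ≤ κ) (hr : 0 < r)
    (h : r ^ 2 * (p + 1) ≤ 2 + (p - 1) / (1 + κ) ^ 2) : r ≤ 1 := by
  have hpR : (1 : ℝ) ≤ p := by exact_mod_cast hp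
  have h1 : ((p : ℝ) - 1) / (1 + κ) ^ 2 ≤ p - 1 := by
    apply div_le_self (by linarith)
    nlinarith
  have h2 : r ^ 2 * (p + 1) ≤ 1 * (p + 1) := by linarith
  have h3 : r ^ 2 ≤ 1 := le_of_mul_le_mul_right h2 (by linarith)
  nlinarith

/-- One sector. -/
theorem block_le (hBI : S_BI) (p : ℕ) (T a l κ : ℝ) (α γ c' : ℂ) (J : Prop) (hl : 0 ≤ l) (hlT : l ≤ T) (ha : 0 < a)
    (hκ : ‖c'‖ ^ 2 = κ) (hJ : J → Good p κ T l) (hnJ : ¬ J → γ = 0) :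
    2 * Real.pi * (l * ‖α - γ * c'‖ ^ 2 + (p - l * (1 - κ)) * ‖γ‖ ^ 2) ≤
      (T / a) * ((‖α‖ ^ 2 + ‖γ‖ ^ 2) * (2 * Real.pi * a)) := by
  have hπ := Real.pi_pos
  have e1 : (T / a) * ((‖α‖ ^ 2 + ‖γ‖ ^ 2) * (2 * Real.pi * a)) =
      2 * Real.pi * (T * (‖α‖ ^ 2 + ‖γ‖ ^ 2)) := by
    field_simp
  rw [e1]
  refine mul_le_mul_of_nonneg_left ?_ (by positivity)
  by_cases h : J
  · subst hκ
    exact hBI p T l c' α γ hl (hJ h)
  · rw [hnJ h]
    simp only [zero_mul, sub_zero, norm_zero, ne_eq, OfNat.ofNat_ne_zero, not_false_eq_true, zero_pow, mul_zero,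
      add_zero]
    exact mul_le_mul_of_nonneg_right hlT (by positivity)

/-- The sectors. -/
noncomputable def Lam (p : ℕ) : Finset ℤ := Finset.Icc (-(((p - 1) / 2 : ℕ) : ℤ)) ((p / 2 : ℕ) : ℤ)

theorem Lam_card (p : ℕ) (hp : 1 ≤ p) : (Lam p).card = p := by
  unfold Lam
  rw [Int.card_Icc]
  omega

theorem mem_Lam (p : ℕ) (hp : 1 ≤ p) (l : ℤ) : l ∈ Lam p ↔ -(p : ℤ) < 2 * l ∧ 2 * l ≤ p := by
  unfold Lam
  rw [Finset.mem_Icc]
  omega

/-- The trial space: energy and mass. -/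
theorem trial (hBI : S_BI) (hSD : S_SD) (hMB : S_MB) (hBL : S_BL) (p k : ℕ) (H : ℝ → ℂ) (c : ℂ) (a T : ℝ)
    (J : Finset ℤ) (hp : 1 ≤ p) (hm : Measurable H) (hper : ∀ t, H (t + 2 * Real.pi) = H t)
    (hsq : IntervalIntegrable (fun t => ‖H t‖ ^ 2) volume (-Real.pi) Real.pi) (hc : ‖c‖ < 1)
    (hcen : ∫ t in (-Real.pi)..Real.pi, mob c (exp (t * I)) * ((‖H t‖ ^ 2 : ℝ) : ℂ) = 0)
    (htot : ∫ t in (-Real.pi)..Real.pi, ‖H t‖ ^ 2 = 2 * Real.pi * a) (ha : 0 < a) (hT : (p : ℝ) / 2 ≤ T)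
    (hJ1 : ∀ l ∈ J, -(p : ℤ) < 2 * l ∧ 2 * l ≤ p) (hJ2 : k + 1 - p ≤ J.card)
    (hJ3 : ∀ l ∈ J, Good p (‖c‖ ^ 2) T |(l : ℝ)|) :
    ∃ u : Fin (k + 1) → ℂ → ℂ, (∀ i, ContDiff ℝ ∞ (u i)) ∧ ∀ d : Fin (k + 1) → ℂ, d ≠ 0 →
      0 < mass p H (fun z => ∑ i, d i * u i z) ∧
      energy (ball 0 1) (fun z => ∑ i, d i * u i z) ≤ (T / a) * mass p H (fun z => ∑ i, d i * u i z) := by
  have hπ := Real.pi_pos
  have hT0 : 0 ≤ T := le_trans (by positivity) hT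
  have hv : ∀ l : ℤ, ∃ v : ℂ → ℂ, 2 * |l| ≤ p → ContDiff ℝ ∞ v ∧
      (∀ θ : ℝ, v (exp (θ * I)) = vcirc p c l θ) ∧
      (∀ ζ z : ℂ, ζ ^ p = 1 → z ∈ closedBall (0 : ℂ) 1 → v (ζ * z) = ζ ^ l * v z) ∧
      ∀ α γ : ℂ, energy (ball 0 1) (fun z => α * hf l z + γ * v z) = 2 * Real.pi *
        (|(l : ℝ)| * ‖α - γ * (if 0 ≤ l then starRingEnd ℂ c else c)‖ ^ 2 +
          (p - |(l : ℝ)| * (1 - ‖c‖ ^ 2)) * ‖γ‖ ^ 2) := by
    intro l
    by_cases h : 2 * |l| ≤ p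
    · obtain ⟨v, h1⟩ := hBL p c l hp hc h
      exact ⟨v, fun _ => h1⟩
    · exact ⟨0, fun h1 => absurd h1 h⟩
  choose v hv using hv
  have hΛ : ∀ l ∈ Lam p, 2 * |l| ≤ p := by
    intro l hl
    rw [mem_Lam p hp] at hl
    rcases abs_cases l with h | h <;> omega
  have hJΛ : J ⊆ Lam p := fun l hl => (mem_Lam p hp l).mpr (hJ1 l hl)
  have hcard : k + 1 ≤ ((Lam p).disjSum J).card := by
    rw [Finset.card_disjSum, Lam_card p hp]
    omega
  obtain ⟨e, he1, he2⟩ := reindex k _ hcard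
  set g : ℤ ⊕ ℤ → ℂ → ℂ := fun s => Sum.elim (fun l => hf l) (fun l => v l) s with hg
  have hgsm : ∀ s ∈ (Lam p).disjSum J, ContDiff ℝ ∞ (g s) := by
    intro s hs
    rcases s with l | l
    · exact hf_contDiff l
    · rw [Finset.inr_mem_disjSum] at hs
      exact (hv l (hΛ l (hJΛ hs))).1
  refine ⟨fun i => g (e i), fun i => hgsm _ (he2 i), ?_⟩
  intro d hd
  set α : ℤ → ℂ := fun l => ∑ i, if e i = Sum.inl l then d i else 0 with hα
  set γ : ℤ → ℂ := fun l => ∑ i, if e i = Sum.inr l then d i else 0 with hγ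
  have hγ0 : ∀ l, l ∉ J → γ l = 0 := by
    intro l hl
    rw [hγ]
    apply Finset.sum_eq_zero
    intro i _
    rw [if_neg]
    intro h
    have h1 := he2 i
    rw [h, Finset.inr_mem_disjSum] at h1
    exact hl h1
  set U : ℤ → ℂ → ℂ := fun l z => α l * hf l z + γ l * v l z with hU
  have hsum : (fun z => ∑ i, d i * g (e i) z) = fun z => ∑ l ∈ Lam p, U l z := by
    ext z
    have h1 := sum_reindex k (Lam p) J e he2 d (fun s => g s z)
    rw [h1]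
    have h2 : ∑ l ∈ J, γ l * v l z = ∑ l ∈ Lam p, γ l * v l z := by
      apply Finset.sum_subset hJΛ
      intro l _ hl
      rw [hγ0 l hl, zero_mul]
    rw [hU]
    simp only
    rw [Finset.sum_add_distrib, ← h2]
    rfl
  have hUsm : ∀ l ∈ Lam p, ContDiff ℝ ∞ (U l) := by
    intro l hl
    exact (contDiff_const.mul (hf_contDiff l)).add (contDiff_const.mul (hv l (hΛ l hl)).1)
  have hUrot : ∀ l ∈ Lam p, ∀ ζ z : ℂ, ζ ^ p = 1 → z ∈ closedBall (0 : ℂ) 1 → U l (ζ * z) = ζ ^ l * U l z := by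
    intro l hl ζ z hζ hz
    have h1 := (hv l (hΛ l hl)).2.2.1 ζ z hζ hz
    have h2 := hf_rot l ζ (norm_one_of_pow p hp ζ hζ) z
    rw [hU]
    simp only
    rw [h1, h2]
    ring
  have hdiv : ∀ l ∈ Lam p, ∀ l' ∈ Lam p, l ≠ l' → ¬ ((p : ℤ) ∣ l - l') := by
    intro l hl l' hl' hne hdvd
    rw [mem_Lam p hp] at hl hl'
    have h1 : l - l' ≠ 0 := sub_ne_zero.mpr hne
    have h2 := Int.le_of_dvd (abs_pos.mpr h1) ((dvd_abs _ _).mpr hdvd)
    rcases abs_cases (l - l') with h | h <;> omega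
  obtain ⟨hE, hM⟩ := hSD p H (Lam p) U hp hm hper hsq hUsm hUrot hdiv
  have hMl : ∀ l ∈ Lam p, mass p H (U l) = (‖α l‖ ^ 2 + ‖γ l‖ ^ 2) * (2 * Real.pi * a) := by
    intro l hl
    have h1 := hv l (hΛ l hl)
    rw [← htot]
    exact hMB p H c l (v l) hp hm hper hsq hc hcen h1.1.continuous h1.2.1 (α l) (γ l)
  rw [hsum, hE, hM]
  constructor
  · obtain ⟨i, hi⟩ : ∃ i, d i ≠ 0 := by
      by_contra hcon
      push Not at hcon
      exact hd (funext hcon)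
    have hci := coeff_ne k e he1 d i
    have hnn : ∀ l ∈ Lam p, 0 ≤ mass p H (U l) := by
      intro l hl
      rw [hMl l hl]
      positivity
    have hmem := he2 i
    rcases hei : e i with l | l
    · rw [hei, Finset.inl_mem_disjSum] at hmem
      rw [hei] at hci
      refine Finset.sum_pos' hnn ⟨l, hmem, ?_⟩
      rw [hMl l hmem]
      have h1 : α l = d i := hci
      rw [h1]
      have h2 : 0 < ‖d i‖ := norm_pos_iff.mpr hi
      positivity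
    · rw [hei, Finset.inr_mem_disjSum] at hmem
      rw [hei] at hci
      refine Finset.sum_pos' hnn ⟨l, hJΛ hmem, ?_⟩
      rw [hMl l (hJΛ hmem)]
      have h1 : γ l = d i := hci
      rw [h1]
      have h2 : 0 < ‖d i‖ := norm_pos_iff.mpr hi
      positivity
  · rw [Finset.mul_sum]
    apply Finset.sum_le_sum
    intro l hl
    rw [hMl l hl, (hv l (hΛ l hl)).2.2.2 (α l) (γ l)]
    have hκ : ‖(if 0 ≤ l then starRingEnd ℂ c else c)‖ ^ 2 = ‖c‖ ^ 2 := by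
      split_ifs
      · rw [RCLike.norm_conj]
      · rfl
    have hl2 : |(l : ℝ)| ≤ T := by
      have h1 := hΛ l hl
      have h2 : 2 * |(l : ℝ)| ≤ p := by exact_mod_cast h1
      linarith
    exact block_le hBI p T a _ _ _ _ _ (l ∈ J) (abs_nonneg _) hl2 ha hκ (fun h => hJ3 l h) (fun h => hγ0 l h)

theorem t_UB (hVF : S_VF) (hH2 : S_H2) (hBF : S_BF) (hTT : S_TT) (hHC : S_HC) (hSZ : S_SZ) (hAB : S_AB)
    (hBL : S_BL) (hSD : S_SD) (hMB : S_MB) (hBI : S_BI) (hNU : S_NU) : S_UB := by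
  intro m p k Ω f φ β hm hcase hΩ hconf
  have hπ := Real.pi_pos
  have hp : 1 ≤ p := by rcases hcase with h | h <;> omega
  have hpm : p ≤ 2 * m := by rcases hcase with h | h <;> omega
  obtain ⟨V, τ₀, hV⟩ := hVF Ω hΩ
  have hsum := hH2 p Ω f φ β V τ₀ hp hΩ hconf hV
  obtain ⟨H, hH⟩ := hBF β hsum
  set a : ℝ := ∑' n : ℕ, ‖β n‖ ^ 2 with haa
  have hβ0 : β 0 ≠ 0 := by
    rw [← hfun_zero p hp β]
    exact hconf.nz 0 (by simp)
  have ha : 0 < a := by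
    have h1 : ‖β 0‖ ^ 2 ≤ a := hsum.le_tsum 0 (fun n _ => by positivity)
    have h2 : 0 < ‖β 0‖ := norm_pos_iff.mpr hβ0
    have h3 : 0 < ‖β 0‖ ^ 2 := by positivity
    linarith
  have htot := hH.tot
  obtain ⟨c, hc, hcen⟩ := hHC H hH.meas hH.sq (by rw [htot]; positivity)
  have hsz := hSZ β H c hsum hH hc hcen
  have hab := hAB p Ω f φ β hp hΩ.isOpen hconf hsum
  have hA : 0 < area Ω := by
    unfold area
    rw [ENNReal.toReal_pos_iff]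
    exact ⟨hΩ.isOpen.measure_pos volume hΩ.conn.nonempty, hΩ.bdd.measure_lt_top⟩
  set κ : ℝ := ‖c‖ ^ 2 with hκ
  have hκ0 : 0 ≤ κ := by positivity
  have hκ1 : κ < 1 := by
    rw [hκ]
    have := norm_nonneg c
    nlinarith
  set R : ℝ := √(area Ω / Real.pi) with hR
  have hR0 : 0 < R := Real.sqrt_pos.mpr (by positivity)
  have hr0 : 0 < R / a := div_pos hR0 ha
  have hratio : (R / a) ^ 2 * (p + 1) ≤ 2 + (p - 1) / (1 + κ) ^ 2 := by
    refine ratio_bound p a (‖β 0‖ ^ 2) (area Ω) κ ha (by positivity) hp hκ0 hA hsz ?_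
    have e : (‖β 0‖ ^ 2) ^ 2 = ‖β 0‖ ^ 4 := by ring
    rw [e]
    exact hab
  have hr1 := r_le_one p _ κ hp hκ0 hr0 hratio
  obtain ⟨J, hJ1, hJ2, hJ3⟩ := hNU m p k κ (R / a) hm hcase hκ0 hκ1 hr0 hratio
  have hT : (p : ℝ) / 2 ≤ m / (R / a) := by
    have h1 : (p : ℝ) ≤ 2 * m := by exact_mod_cast hpm
    have h2 : (m : ℝ) ≤ m / (R / a) := by
      rw [le_div_iff₀ hr0]
      have h3 : (0 : ℝ) ≤ m := Nat.cast_nonneg m
      nlinarith
    linarith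
  obtain ⟨u, hu1, hu2⟩ := trial hBI hSD hMB hBL p k H c a (m / (R / a)) J hp hH.meas hH.per hH.sq hc hcen htot ha hT
    hJ1 hJ2 hJ3
  have hl0 : 0 ≤ (m : ℝ) / (R / a) / a := by positivity
  have hfin := hTT p Ω f φ β V τ₀ H hp hΩ hconf hV hH k u _ hl0 hu1 hu2
  have e1 : (m : ℝ) / (R / a) / a = m / R := by
    field_simp
  rw [e1] at hfin
  have e2 : √(area Ω) = R * √Real.pi := by
    rw [hR, ← Real.sqrt_mul (by positivity)]
    congr 1
    field_simp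
  calc steklov k Ω * √(area Ω) ≤ m / R * √(area Ω) := mul_le_mul_of_nonneg_right hfin (Real.sqrt_nonneg _)
    _ = m * √Real.pi := by
      rw [e2]
      field_simp

end Pool.Agent.Helper69.ST
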