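import Pool.Agent.Helper93.ST.LC

open MeasureTheory Set Complex Metric Filter
open scoped ContDiff Topology ENNReal

namespace Pool.Agent.Helper69.ST.VF

open Pool.Agent.Helper45.Stek Pool.Agent.Helper69.ST

theorem local_dir (Ω : Set ℂ) (hΩ : LipDomain Ω) (p : ℂ) (hp : p ∈ frontier Ω) :
    ∃ (e : ℂ) (η : ℝ), ‖e‖ = 1 ∧ 0 < η ∧ ∀ x ∈ closure Ω, ‖x - p‖ < η → ∀ σ : ℝ, 0 < σ → σ < η → x + σ * e ∈ Ω := by
  obtain ⟨a, ρ, r, L, g, ha, hρ, hρr, -, -, -, -, hbox, -⟩ := Pool.Agent.Helper93.ST.LC.t Ω hΩ p hp 1 one_pos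
  have ha0 : a ≠ 0 := by
    intro h
    rw [h, norm_zero] at ha
    exact zero_ne_one ha
  refine ⟨a * I, ρ / 2, by simp [ha], by linarith, ?_⟩
  intro x hx hxp σ hσ hσ2
  set ζ : ℂ := (x - p) / a with hζ
  have hζn : ‖ζ‖ = ‖x - p‖ := by rw [hζ, norm_div, ha, div_one]
  have hxe : x = p + a * (ζ.re + ζ.im * I) := by
    rw [Complex.re_add_im, hζ]
    field_simp
    ring
  have hs : |ζ.re| < ρ / 2 := lt_of_le_of_lt (Complex.abs_re_le_norm ζ) (by rw [hζn]; exact hxp)
  have ht : |ζ.im| < ρ / 2 := lt_of_le_of_lt (Complex.abs_im_le_norm ζ) (by rw [hζn]; exact hxp)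
  have h1 := (hbox ζ.re ζ.im (by linarith) (by linarith)).2.1
  rw [← hxe] at h1
  have h2 := h1.mp hx
  have h3 : |ζ.im + σ| < r := by
    rw [abs_lt] at ht ⊢
    constructor <;> linarith
  have h4 := (hbox ζ.re (ζ.im + σ) (by linarith) h3).1
  have h5 : x + σ * (a * I) = p + a * (ζ.re + ((ζ.im + σ : ℝ) : ℂ) * I) := by
    conv_lhs => rw [hxe]
    push_cast
    ring
  rw [h5]
  exact h4.mpr (by linarith)

theorem bump (p : ℂ) (η : ℝ) (hη : 0 < η) : ∃ χ : ℂ → ℝ, ContDiff ℝ ∞ χ ∧ (∀ x, 0 ≤ χ x ∧ χ x ≤ 1) ∧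
    (∀ x, ‖x - p‖ < η / 2 → 0 < χ x) ∧ ∀ x, 0 < χ x → ‖x - p‖ < η / 2 := by
  let f : ContDiffBump p := ⟨η / 4, η / 2, by linarith, by linarith⟩
  refine ⟨f, f.contDiff, fun x => ⟨f.nonneg, f.le_one⟩, ?_, ?_⟩
  · intro x hx
    exact f.pos_of_mem_ball (by rw [mem_ball, dist_eq_norm]; exact hx)
  · intro x hx
    have h : x ∈ Function.support f := hx.ne'
    rw [f.support_eq, mem_ball, dist_eq_norm] at h
    exact h

theorem t : S_VF := by
  intro Ω hΩ
  have key := local_dir Ω hΩ
  choose! e η he hη hk using key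
  have hb : ∀ p ∈ frontier Ω, ∃ χ : ℂ → ℝ, ContDiff ℝ ∞ χ ∧ (∀ x, 0 ≤ χ x ∧ χ x ≤ 1) ∧
    (∀ x, ‖x - p‖ < η p / 2 → 0 < χ x) ∧ ∀ x, 0 < χ x → ‖x - p‖ < η p / 2 :=
    fun p hp => bump p (η p) (hη p hp)
  choose! χ hχs hχb hχp hχn using hb
  have hcpt : IsCompact (frontier Ω) :=
    Metric.isCompact_of_isClosed_isBounded isClosed_frontier
      (hΩ.bdd.closure.subset frontier_subset_closure)
  obtain ⟨T, hT, hTc⟩ := hcpt.elim_nhds_subcover (fun p => ball p (η p / 2))
    (fun p hp => ball_mem_nhds p (by have := hη p hp; linarith))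
  obtain ⟨δ, hδ, hδη⟩ : ∃ δ : ℝ, 0 < δ ∧ ∀ p ∈ T, δ ≤ η p / 2 := by
    rcases T.eq_empty_or_nonempty with h | h
    · exact ⟨1, one_pos, by simp [h]⟩
    · refine ⟨T.inf' h (fun p => η p / 2), ?_, fun p hp => Finset.inf'_le _ hp⟩
      rw [Finset.lt_inf'_iff]
      intro p hp
      have := hη p (hT p hp)
      linarith
  set V : ℂ → ℂ := fun x => ∑ p ∈ T, (χ p x : ℂ) * e p with hV
  refine ⟨V, δ / (T.card + 1), ⟨?_, ?_, by positivity, ?_⟩⟩
  · rw [hV]
    apply ContDiff.sum
    intro p hp
    exact (Complex.ofRealCLM.contDiff.comp (hχs p (hT p hp))).mul contDiff_const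
  · apply HasCompactSupport.intro (K := ⋃ p ∈ T, closedBall p (η p))
      (T.isCompact_biUnion fun p _ => isCompact_closedBall _ _)
    intro x hx
    rw [hV]
    apply Finset.sum_eq_zero
    intro p hp
    have h1 : ¬ 0 < χ p x := by
      intro h
      have h2 := hχn p (hT p hp) x h
      apply hx
      rw [mem_iUnion₂]
      refine ⟨p, hp, ?_⟩
      rw [mem_closedBall, dist_eq_norm]
      have := hη p (hT p hp)
      linarith
    have h2 : χ p x = 0 := le_antisymm (not_lt.mp h1) (hχb p (hT p hp) x).1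
    rw [h2]
    simp
  · intro τ hτ hτ2 x hx
    have hcard : τ * T.card < δ := by
      rw [lt_div_iff₀ (by positivity)] at hτ2
      have : (0 : ℝ) ≤ T.card := Nat.cast_nonneg _
      nlinarith
    have claim : ∀ S : Finset ℂ, S ⊆ T →
        (x + ∑ p ∈ S, (τ : ℂ) * ((χ p x : ℂ) * e p) ∈ closure Ω) ∧
        ((∃ p ∈ S, 0 < χ p x) → x + ∑ p ∈ S, (τ : ℂ) * ((χ p x : ℂ) * e p) ∈ Ω) := by
      intro S
      induction S using Finset.induction_on with
      | empty =>
        intro _
        refine ⟨by simpa using hx, ?_⟩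
        rintro ⟨p, hp, -⟩
        simp at hp
      | insert q S hqS ih =>
        intro hins
        obtain ⟨ih1, ih2⟩ := ih ((Finset.subset_insert q S).trans hins)
        have hqT : q ∈ T := hins (Finset.mem_insert_self q S)
        rw [Finset.sum_insert hqS]
        set y := x + ∑ p ∈ S, (τ : ℂ) * ((χ p x : ℂ) * e p) with hy
        have e1 : x + ((τ : ℂ) * ((χ q x : ℂ) * e q) + ∑ p ∈ S, (τ : ℂ) * ((χ p x : ℂ) * e p)) =
            y + ((τ * χ q x : ℝ) : ℂ) * e q := by
          rw [hy]; push_cast; ring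
        rw [e1]
        rcases (hχb q (hT q hqT) x).1.eq_or_lt with h0 | h0
        · rw [← h0]
          simp only [mul_zero, Complex.ofReal_zero, zero_mul, add_zero]
          refine ⟨ih1, ?_⟩
          rintro ⟨p, hp, hpx⟩
          rw [Finset.mem_insert] at hp
          rcases hp with rfl | hp
          · rw [← h0] at hpx
            exact absurd hpx (lt_irrefl _)
          · exact ih2 ⟨p, hp, hpx⟩
        · have hyx : ‖y - x‖ ≤ τ * T.card := by
            have e2 : y - x = ∑ p ∈ S, (τ : ℂ) * ((χ p x : ℂ) * e p) := by rw [hy]; ring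
            rw [e2]
            calc ‖∑ p ∈ S, (τ : ℂ) * ((χ p x : ℂ) * e p)‖ ≤ ∑ p ∈ S, τ := by
                  refine (norm_sum_le _ _).trans (Finset.sum_le_sum fun p hp => ?_)
                  have hpT : p ∈ T := hins (Finset.mem_insert_of_mem hp)
                  have h5 := hχb p (hT p hpT) x
                  rw [norm_mul, norm_mul, Complex.norm_real, Complex.norm_real, he p (hT p hpT), mul_one,
                    Real.norm_of_nonneg hτ.le, Real.norm_of_nonneg h5.1]
                  nlinarith [h5.2]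
              _ = S.card * τ := by rw [Finset.sum_const, nsmul_eq_mul]
              _ ≤ τ * T.card := by
                  have h6 : (S.card : ℝ) ≤ T.card := by
                    exact_mod_cast Finset.card_le_card ((Finset.subset_insert q S).trans hins)
                  nlinarith
          have hxq := hχn q (hT q hqT) x h0
          have hδq := hδη q hqT
          have hyq : ‖y - q‖ < η q := by
            have e3 : y - q = (y - x) + (x - q) := by ring
            rw [e3]
            have := norm_add_le (y - x) (x - q)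
            linarith
          have hle := (hχb q (hT q hqT) x).2
          have hσ : τ * χ q x < η q := by
            have h7 : (1 : ℝ) ≤ T.card := by
              exact_mod_cast Finset.card_pos.mpr ⟨q, hqT⟩
            have h8 := hη q (hT q hqT)
            nlinarith
          have hin := hk q (hT q hqT) y ih1 hyq (τ * χ q x) (mul_pos hτ h0) hσ
          exact ⟨subset_closure hin, fun _ => hin⟩
    obtain ⟨c1, c2⟩ := claim T (Finset.Subset.refl T)
    have e4 : x + (τ : ℂ) * V x = x + ∑ p ∈ T, (τ : ℂ) * ((χ p x : ℂ) * e p) := by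
      rw [hV]
      simp only
      rw [Finset.mul_sum]
    rw [e4]
    by_cases hex : ∃ p ∈ T, 0 < χ p x
    · exact c2 hex
    · push Not at hex
      have h9 : ∀ p ∈ T, χ p x = 0 := fun p hp => le_antisymm (hex p hp) (hχb p (hT p hp) x).1
      have h10 : x ∈ Ω := by
        by_contra hcon
        have hfr : x ∈ frontier Ω := by
          rw [frontier, hΩ.isOpen.interior_eq]
          exact ⟨hx, hcon⟩
        obtain ⟨p, hp, hpx⟩ := mem_iUnion₂.mp (hTc hfr)
        rw [mem_ball, dist_eq_norm] at hpx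
        have := hχp p (hT p hp) x hpx
        rw [h9 p hp] at this
        exact lt_irrefl _ this
      have h11 : ∑ p ∈ T, (τ : ℂ) * ((χ p x : ℂ) * e p) = 0 := by
        apply Finset.sum_eq_zero
        intro p hp
        rw [h9 p hp]
        simp
      rw [h11, add_zero]
      exact h10

end Pool.Agent.Helper69.ST.VF
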