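import Pool.Agent.Helper69.ST.BI
import Pool.Agent.Helper69.ST.CF
import Pool.Agent.Helper69.ST.NU
import Pool.Agent.Helper69.ST.UB
import Pool.Agent.Helper69.ST.FIN
import Pool.Agent.Helper72.ST.CA
import Pool.Agent.Helper22.ST.CB
import Pool.Agent.Helper15.ST.PH
import Pool.Agent.Helper69.ST.VF
import Pool.Agent.Helper9.ST.DL
import Pool.Agent.Helper59.ST.DV
import Pool.Agent.Helper16.ST.EX
import Pool.Agent.Helper37.ST.EE
import Pool.Agent.Helper98.ST.GQ
import Pool.Agent.Helper42.ST.QI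
import Pool.Agent.Helper83.ST.KP
import Pool.Agent.Helper19.ST.H2
import Pool.Agent.Helper93.ST.BF
import Pool.Agent.Helper69.ST.MS
import Pool.Agent.Helper77.ST.TT
import Pool.Agent.Helper2.ST.HC
import Pool.Agent.Helper20.ST.SZ
import Pool.Agent.Helper71.ST.AB
import Pool.Agent.Helper76.ST.BL
import Pool.Agent.Helper50.ST.SD
import Pool.Agent.Helper36.ST.MB

/-!
# ST: assembly
-/

namespace Pool.Agent.Helper69.ST

theorem cf : S_CF := t_CF Pool.Agent.Helper72.ST.CA.t Pool.Agent.Helper22.ST.CB.t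
theorem ph : S_PH := Pool.Agent.Helper15.ST.PH.t
theorem vf : S_VF := Pool.Agent.Helper69.ST.VF.t
theorem dv : S_DV := Pool.Agent.Helper59.ST.DV.t Pool.Agent.Helper9.ST.DL.t
theorem ex : S_EX := Pool.Agent.Helper16.ST.EX.t ph
theorem ee : S_EE := Pool.Agent.Helper37.ST.EE.t ph
theorem gq : S_GQ := Pool.Agent.Helper98.ST.GQ.t ph ex ee dv
theorem qi : S_QI := Pool.Agent.Helper42.ST.QI.t
theorem kp : S_KP := Pool.Agent.Helper83.ST.KP.t
theorem h2 : S_H2 := Pool.Agent.Helper19.ST.H2.t ph gq qi kp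
theorem ms : S_MS := Pool.Agent.Helper69.ST.MS.t ph gq qi kp
theorem tt : S_TT := Pool.Agent.Helper77.ST.TT.t ph ex ee ms
theorem ub : S_UB := t_UB vf h2 Pool.Agent.Helper93.ST.BF.t tt Pool.Agent.Helper2.ST.HC.t Pool.Agent.Helper20.ST.SZ.t
  (Pool.Agent.Helper71.ST.AB.t ph) Pool.Agent.Helper76.ST.BL.t Pool.Agent.Helper50.ST.SD.t Pool.Agent.Helper36.ST.MB.t
  t_BI t_NU

/-- The theorem for simply connected domains. -/
theorem t_MAIN : S_FIN := t_FIN cf ub

end Pool.Agent.Helper69.ST
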