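import Pool.Agent.Helper69.ST.FL
import Pool.Agent.Helper92.ST.OC
import Pool.Agent.Helper93.ST.LC
import Pool.Agent.Helper36.ST.FA
import Pool.Agent.Helper17.ST.FB
import Pool.Agent.Helper70.ST.FC
import Pool.Agent.Helper45.ST.FR
import Pool.Agent.Helper78.ST.FS
import Pool.Agent.Helper67.ST.PP
import Pool.Agent.Helper19.ST.RU
import Pool.Agent.Helper31.ST.HU
import Pool.Agent.Helper76.ST.PR
import Pool.Agent.Helper36.ST.SQ
import Pool.Agent.Helper61.ST.MT
import Pool.Agent.Helper98.ST.HW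
import Pool.Agent.Helper2.ST.XT
import Pool.Agent.Helper64.ST.ON
import Pool.Agent.Helper14.ST.RM

/-!
# ST: assembly of the second part
-/

namespace Pool.Agent.Helper69.ST

theorem fa : S_FA := Pool.Agent.Helper36.ST.FA.t Pool.Agent.Helper92.ST.OC.t

theorem pr : S_PR := Pool.Agent.Helper76.ST.PR.t (Pool.Agent.Helper19.ST.RU.t Pool.Agent.Helper67.ST.PP.t)
  Pool.Agent.Helper31.ST.HU.t

theorem rm : S_RM := Pool.Agent.Helper14.ST.RM.t
  (Pool.Agent.Helper2.ST.XT.t Pool.Agent.Helper61.ST.MT.t Pool.Agent.Helper98.ST.HW.t) Pool.Agent.Helper64.ST.ON.t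

theorem fl : S_FL := t_FL fa
  (Pool.Agent.Helper17.ST.FB.t Pool.Agent.Helper92.ST.OC.t fa Pool.Agent.Helper93.ST.LC.t)
  (Pool.Agent.Helper70.ST.FC.t Pool.Agent.Helper92.ST.OC.t fa Pool.Agent.Helper93.ST.LC.t)
  Pool.Agent.Helper45.ST.FR.t Pool.Agent.Helper78.ST.FS.t (Pool.Agent.Helper36.ST.SQ.t pr) rm

end Pool.Agent.Helper69.ST
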