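import Pool.Agent.Helper69.ST.Main
import Pool.Agent.Helper69.ST.MainR
import Pool.Agent.Helper69.ST.FINX
import Pool.Agent.Helper70.ST.PN2
import Pool.Agent.Helper12.ST.AR2
import Pool.Agent.Helper24.ST.LA2
import Pool.Agent.Helper72.ST.JA2
import Pool.Agent.Helper83.ST.LB2
import Pool.Agent.Helper94.ST.NA
import Pool.Agent.Helper44.ST.NB
import Pool.Agent.Helper14.ST.NC

/-!
# ST: final assembly
-/

namespace Pool.Agent.Helper69.ST

theorem nw : S_NW := t_NW Pool.Agent.Helper94.ST.NA.t Pool.Agent.Helper44.ST.NB.t Pool.Agent.Helper14.ST.NC.t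

theorem uw : S_UW := t_UW vf h2 Pool.Agent.Helper93.ST.BF.t tt Pool.Agent.Helper2.ST.HC.t Pool.Agent.Helper20.ST.SZ.t
  (Pool.Agent.Helper71.ST.AB.t ph) Pool.Agent.Helper76.ST.BL.t Pool.Agent.Helper50.ST.SD.t Pool.Agent.Helper36.ST.MB.t
  t_BI nw

theorem pn2 : S_PN2 := Pool.Agent.Helper70.ST.PN2.t
theorem ar2 : S_AR2 := Pool.Agent.Helper12.ST.AR2.t pn2
theorem lb2 : S_LB2 := Pool.Agent.Helper83.ST.LB2.t pn2 Pool.Agent.Helper72.ST.JA2.t Pool.Agent.Helper24.ST.LA2.t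

theorem finw : S_FINW := t_FINW fl cf ub uw pn2 ar2 lb2

end Pool.Agent.Helper69.ST
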