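import Pool.Agent.Helper69.ST.GoalsW
import Pool.Agent.Helper69.ST.NU

open MeasureTheory Set Complex Metric Filter
open scoped ContDiff Topology ENNReal

namespace Pool.Agent.Helper69.ST

theorem ineqA (p κ : ℝ) (hp : 40 ≤ p) (h0 : 0 ≤ κ) (h1 : κ ≤ 27 / 100) :
    (1 + 93 / 100 * κ) ^ 2 * (2 * (1 + κ) ^ 2 + p - 1) ≤ (p + 1) * (1 + κ) ^ 2 := by
  have hA : 0 ≤ (1 + κ) ^ 2 - (1 + 93 / 100 * κ) ^ 2 := by nlinarith
  have hB : (1 + 93 / 100 * κ) ^ 2 * (2 * (1 + κ) ^ 2 + 40 - 1) ≤ (40 + 1) * (1 + κ) ^ 2 := by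
    have : 0 ≤ κ * (27 / 100 - κ) := mul_nonneg h0 (by linarith)
    have h3 : 0 ≤ κ ^ 2 * (27 / 100 - κ) := mul_nonneg (by positivity) (by linarith)
    have h4 : 0 ≤ κ ^ 3 * (27 / 100 - κ) := mul_nonneg (by positivity) (by linarith)
    nlinarith
  nlinarith [mul_nonneg hA (by linarith : 0 ≤ p - 40)]

theorem ineqB (p κ : ℝ) (hp : 40 ≤ p) (h0 : 27 / 100 ≤ κ) (h1 : κ ≤ 38 / 100) :
    (126 / 125 + 9 / 10 * κ) ^ 2 * (2 * (1 + κ) ^ 2 + p - 1) ≤ (p + 1) * (1 + κ) ^ 2 := by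
  have hA : 0 ≤ (1 + κ) ^ 2 - (126 / 125 + 9 / 10 * κ) ^ 2 := by nlinarith
  have hB : (126 / 125 + 9 / 10 * κ) ^ 2 * (2 * (1 + κ) ^ 2 + 40 - 1) ≤ (40 + 1) * (1 + κ) ^ 2 := by
    have a1 : 0 ≤ (κ - 27 / 100) * (38 / 100 - κ) := mul_nonneg (by linarith) (by linarith)
    have a2 : 0 ≤ (κ - 27 / 100) * (38 / 100 - κ) * κ := mul_nonneg a1 (by linarith)
    have a3 : 0 ≤ (κ - 27 / 100) * (38 / 100 - κ) * κ ^ 2 := mul_nonneg a1 (by positivity)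
    nlinarith
  nlinarith [mul_nonneg hA (by linarith : 0 ≤ p - 40)]

theorem ineqC (p κ : ℝ) (hp : 40 ≤ p) (h0 : 38 / 100 ≤ κ) (h1 : κ ≤ 1) :
    (1033 / 1000 + 834 / 1000 * κ) ^ 2 * (2 * (1 + κ) ^ 2 + p - 1) ≤ (p + 1) * (1 + κ) ^ 2 := by
  have hA : 0 ≤ (1 + κ) ^ 2 - (1033 / 1000 + 834 / 1000 * κ) ^ 2 := by nlinarith
  have hB : (1033 / 1000 + 834 / 1000 * κ) ^ 2 * (2 * (1 + κ) ^ 2 + 40 - 1) ≤ (40 + 1) * (1 + κ) ^ 2 := by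
    have a1 : 0 ≤ (κ - 38 / 100) * (1 - κ) := mul_nonneg (by linarith) (by linarith)
    have a2 : 0 ≤ (κ - 38 / 100) * (1 - κ) * κ := mul_nonneg a1 (by linarith)
    have a3 : 0 ≤ (κ - 38 / 100) * (1 - κ) * κ ^ 2 := mul_nonneg a1 (by positivity)
    nlinarith
  nlinarith [mul_nonneg hA (by linarith : 0 ≤ p - 40)]

theorem t_NW (hNA : S_NA) (hNB : S_NB) (hNC : S_NC) : S_NW := by
  intro p k κ r hp hpk hkp h0 h1 hr hr2
  have hpR : (40 : ℝ) ≤ p := by exact_mod_cast hp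
  have hM : (0 : ℝ) ≤ 14 / 25 * (k : ℝ) := by positivity
  rcases le_total κ (27 / 100) with ha | ha
  · exact hNA p k κ _ hp hpk hkp h0 ha
      (T_lower _ p κ r _ hM (by linarith) h0 hr hr2 (ineqA p κ hpR h0 ha))
  rcases le_total κ (38 / 100) with hb | hb
  · exact hNB p k κ _ hp hpk hkp ha hb
      (T_lower _ p κ r _ hM (by linarith) h0 hr hr2 (ineqB p κ hpR ha hb))
  · exact hNC p k κ _ hp hpk hkp hb h1.le
      (T_lower _ p κ r _ hM (by linarith) h0 hr hr2 (ineqC p κ hpR hb h1.le))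

end Pool.Agent.Helper69.ST
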