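import Pool.Agent.Helper69.ST.UB
import Pool.Agent.Helper69.ST.FL
import Pool.Agent.Helper69.ST.NW

open MeasureTheory Set Complex Metric Filter
open scoped ContDiff Topology ENNReal

namespace Pool.Agent.Helper69.ST

open Pool.Agent.Helper45.Stek

/-- The upper bound at the origin, for a real number `M` in place of `m`. -/
theorem ub_gen (hVF : S_VF) (hH2 : S_H2) (hBF : S_BF) (hTT : S_TT) (hHC : S_HC) (hSZ : S_SZ) (hAB : S_AB)
    (hBL : S_BL) (hSD : S_SD) (hMB : S_MB) (hBI : S_BI) (M : ℝ) (p k : ℕ) (Ω : Set ℂ) (f φ : ℂ → ℂ) (β : ℕ → ℂ)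
    (hp : 1 ≤ p) (hpM : (p : ℝ) ≤ 2 * M)
    (hNU : ∀ κ r : ℝ, 0 ≤ κ → κ < 1 → 0 < r → r ^ 2 * (p + 1) ≤ 2 + (p - 1) / (1 + κ) ^ 2 →
      ∃ J : Finset ℤ, (∀ l ∈ J, -(p : ℤ) < 2 * l ∧ 2 * l ≤ p) ∧ k + 1 - p ≤ J.card ∧
        ∀ l ∈ J, Good p κ (M / r) |(l : ℝ)|)
    (hΩ : LipDomain Ω) (hconf : Conf p Ω f φ β) : steklov k Ω * √(area Ω) ≤ M * √Real.pi := by
  have hπ := Real.pi_pos
  have hM : 0 ≤ M := by
    have : (0 : ℝ) ≤ p := Nat.cast_nonneg p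
    linarith
  obtain ⟨V, τ₀, hV⟩ := hVF Ω hΩ
  have hsum := hH2 p Ω f φ β V τ₀ hp hΩ hconf hV
  obtain ⟨H, hH⟩ := hBF β hsum
  set a : ℝ := ∑' n : ℕ, ‖β n‖ ^ 2 with haa
  have hβ0 : β 0 ≠ 0 := by
    rw [← hfun_zero p hp β]
    exact hconf.nz 0 (by simp)
  have ha : 0 < a := by
    have h1 : ‖β 0‖ ^ 2 ≤ a := hsum.le_tsum 0 (fun n _ => by positivity)
    have h2 : 0 < ‖β 0‖ := norm_pos_iff.mpr hβ0
    have h3 : 0 < ‖β 0‖ ^ 2 := by positivity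
    linarith
  have htot := hH.tot
  obtain ⟨c, hc, hcen⟩ := hHC H hH.meas hH.sq (by rw [htot]; positivity)
  have hsz := hSZ β H c hsum hH hc hcen
  have hab := hAB p Ω f φ β hp hΩ.isOpen hconf hsum
  have hA : 0 < area Ω := by
    unfold area
    rw [ENNReal.toReal_pos_iff]
    exact ⟨hΩ.isOpen.measure_pos volume hΩ.conn.nonempty, hΩ.bdd.measure_lt_top⟩
  set κ : ℝ := ‖c‖ ^ 2 with hκ
  have hκ0 : 0 ≤ κ := by positivity
  have hκ1 : κ < 1 := by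
    rw [hκ]
    have := norm_nonneg c
    nlinarith
  set R : ℝ := √(area Ω / Real.pi) with hR
  have hR0 : 0 < R := Real.sqrt_pos.mpr (by positivity)
  have hr0 : 0 < R / a := div_pos hR0 ha
  have hratio : (R / a) ^ 2 * (p + 1) ≤ 2 + (p - 1) / (1 + κ) ^ 2 := by
    refine ratio_bound p a (‖β 0‖ ^ 2) (area Ω) κ ha (by positivity) hp hκ0 hA hsz ?_
    have e : (‖β 0‖ ^ 2) ^ 2 = ‖β 0‖ ^ 4 := by ring
    rw [e]
    exact hab
  have hr1 := r_le_one p _ κ hp hκ0 hr0 hratio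
  obtain ⟨J, hJ1, hJ2, hJ3⟩ := hNU κ (R / a) hκ0 hκ1 hr0 hratio
  have hT : (p : ℝ) / 2 ≤ M / (R / a) := by
    have h2 : M ≤ M / (R / a) := by
      rw [le_div_iff₀ hr0]
      nlinarith
    linarith
  obtain ⟨u, hu1, hu2⟩ := trial hBI hSD hMB hBL p k H c a (M / (R / a)) J hp hH.meas hH.per hH.sq hc hcen htot ha hT
    hJ1 hJ2 hJ3
  have hl0 : 0 ≤ M / (R / a) / a := by positivity
  have hfin := hTT p Ω f φ β V τ₀ H hp hΩ hconf hV hH k u _ hl0 hu1 hu2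
  have e1 : M / (R / a) / a = M / R := by
    field_simp
  rw [e1] at hfin
  have e2 : √(area Ω) = R * √Real.pi := by
    rw [hR, ← Real.sqrt_mul (by positivity)]
    congr 1
    field_simp
  calc steklov k Ω * √(area Ω) ≤ M / R * √(area Ω) := mul_le_mul_of_nonneg_right hfin (Real.sqrt_nonneg _)
    _ = M * √Real.pi := by
      rw [e2]
      field_simp

/-- The upper bound at the origin for the orders in `(2k/3 - 1, 3k/4]`. -/
def S_UW : Prop := ∀ (p k : ℕ) (Ω : Set ℂ) (f φ : ℂ → ℂ) (β : ℕ → ℂ), 40 ≤ p → 4 * p ≤ 3 * k → 2 * k < 3 * p + 3 →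
  LipDomain Ω → Conf p Ω f φ β → steklov k Ω * √(area Ω) ≤ 14 / 25 * (k : ℝ) * √Real.pi

theorem t_UW (hVF : S_VF) (hH2 : S_H2) (hBF : S_BF) (hTT : S_TT) (hHC : S_HC) (hSZ : S_SZ) (hAB : S_AB)
    (hBL : S_BL) (hSD : S_SD) (hMB : S_MB) (hBI : S_BI) (hNW : S_NW) : S_UW := by
  intro p k Ω f φ β hp hpk hkp hΩ hconf
  have h1 : (4 : ℝ) * p ≤ 3 * k := by exact_mod_cast hpk
  exact ub_gen hVF hH2 hBF hTT hHC hSZ hAB hBL hSD hMB hBI (14 / 25 * (k : ℝ)) p k Ω f φ β (by omega)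
    (by linarith) (fun κ r h0 h1 hr hr2 => hNW p k κ r hp hpk hkp h0 h1 hr hr2) hΩ hconf

/-- From the origin to any centre and any connectivity. -/
theorem transfer (hFL : S_FL) (hCF : S_CF) (k : ℕ) (M : ℝ) (Ω : Set ℂ) (p : ℕ) (c w : ℂ) (hp : 2 ≤ p)
    (hΩ : LipDomain Ω) (hw : IsPrimitiveRoot w p) (hrot : rot c w '' Ω = Ω)
    (h : ∀ (Ω' : Set ℂ) (f φ : ℂ → ℂ) (β : ℕ → ℂ), LipDomain Ω' → Conf p Ω' f φ β →
      steklov k Ω' * √(area Ω') ≤ M) : steklov k Ω * √(area Ω) ≤ M := by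
  obtain ⟨h1, h2, h3, h4, h5⟩ := hFL Ω hΩ
  have hw1 : ‖w‖ = 1 := by
    have e : ‖w‖ ^ p = 1 := by rw [← norm_pow, hw.pow_eq_one, norm_one]
    exact (pow_eq_one_iff_of_nonneg (norm_nonneg _) (by omega)).mp e
  obtain ⟨f, φ, β, hconf⟩ := hCF (fill Ω) c w p h1.isOpen h2 hp hw (h5 c w hw1 hrot)
  obtain ⟨hΩ', har, hbd, -⟩ := tr (fill Ω) c h1
  have h8 := h _ f φ β hΩ' hconf
  have h6 : steklov k Ω ≤ steklov k ((fun z => z - c) '' fill Ω) := by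
    unfold steklov
    exact csInf_le_csInf ⟨0, fun l hl => hl.1⟩ (ne k _ hΩ') ((hbd k).trans (h3 k))
  have h7 : 0 ≤ steklov k ((fun z => z - c) '' fill Ω) := by
    unfold steklov
    exact Real.sInf_nonneg (fun l hl => hl.1)
  refine le_trans ?_ h8
  rw [har]
  exact mul_le_mul h6 (Real.sqrt_le_sqrt h4) (Real.sqrt_nonneg _) h7

end Pool.Agent.Helper69.ST
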